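import Mathlib

set_option autoImplicit false

namespace Pool.Agent.Helper760.Cov

open Finset
open scoped Classical

/-! Plays are lists of moves, the latest move first. A move `(z, inl x)` puts `x` into the set
`X_z`, a move `(z, inr y)` puts `y` into the set `Y_z`. -/

section
variable {Z U V : Type*}

/-- number of X-moves -/
def xc (w : List (Z × (U ⊕ V))) : ℕ := w.countP (fun q => q.2.isLeft)

/-- the moves made while the number of earlier X-moves was in `[lo, hi)` -/
def seg (lo hi : ℕ) : List (Z × (U ⊕ V)) → List (Z × (U ⊕ V))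
  | [] => []
  | q :: w => if lo ≤ xc w ∧ xc w < hi then q :: seg lo hi w else seg lo hi w

/-- `x` was put into `X_z` before `y` was put into `Y_z` -/
def XF : List (Z × (U ⊕ V)) → Z → U → V → Prop
  | [], _, _, _ => False
  | q :: w, z, x, y => XF w z x y ∨ (q = (z, Sum.inr y) ∧ (z, Sum.inl x) ∈ w)

variable [Fintype U] [Fintype V]

/-- the set `X_z` -/
noncomputable def Xs (w : List (Z × (U ⊕ V))) (z : Z) : Finset U :=
  univ.filter (fun x => (z, Sum.inl x) ∈ w)

/-- the set `Y_z` -/
noncomputable def Ys (w : List (Z × (U ⊕ V))) (z : Z) : Finset V :=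
  univ.filter (fun y => (z, Sum.inr y) ∈ w)

/-- legal plays -/
def Legal (A B : ℕ) (w : List (Z × (U ⊕ V))) : Prop :=
  w.Nodup ∧ ∀ z, (Xs w z).card ≤ A ∧ (Ys w z).card ≤ B

end

section
variable {U V : Type*}

/-- `x` and `y` are in a common cluster -/
def Co (b : Finset (ℕ × (U ⊕ V))) (x : U) (y : V) : Prop :=
  ∃ i, (i, Sum.inl x) ∈ b ∧ (i, Sum.inr y) ∈ b

/-- indices of clusters in use -/
def ids (b : Finset (ℕ × (U ⊕ V))) : Finset ℕ := b.image Prod.fst

/-- size of the X-part of the cluster `i` -/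
def lX (b : Finset (ℕ × (U ⊕ V))) (i : ℕ) : ℕ := (b.filter (fun q => q.1 = i ∧ q.2.isLeft)).card

/-- size of the Y-part of the cluster `i` -/
def lY (b : Finset (ℕ × (U ⊕ V))) (i : ℕ) : ℕ := (b.filter (fun q => q.1 = i ∧ q.2.isRight)).card

end

/-- There is a monotone strategy which covers all demanded pairs, with at most `N` clusters of
sizes at most `a`, `b`. -/
def HasStrat (Z U V : Type*) [Fintype U] [Fintype V] (A B a b N : ℕ)
    (dem : List (Z × (U ⊕ V)) → U → V → Prop) : Prop :=
  ∃ cl : List (Z × (U ⊕ V)) → Finset (ℕ × (U ⊕ V)), (∀ q w, cl w ⊆ cl (q :: w)) ∧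
    ∀ w, Legal A B w → (∀ x y, dem w x y → Co (cl w) x y) ∧
      (∀ i, lX (cl w) i ≤ a ∧ lY (cl w) i ≤ b) ∧ (ids (cl w)).card ≤ N

end Pool.Agent.Helper760.Cov
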