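import Mathlib
import Pool.Agent.Helper760.Cov.Defs

set_option autoImplicit false

namespace Pool.Agent.Helper760.Cov

open Finset
open scoped Classical

/-- every block of the tuple `t` contains an element of `X z` -/
def Hit {Z U : Type*} (s M : ℕ) (X : Z → Finset U) (t : Fin s → Fin M → U) (z : Z) : Prop :=
  ∀ k, ∃ r, t k r ∈ X z

/-- no frequently hit tuple is missed by the sample `ζ` -/
def NoBad {Z U : Type*} [Fintype Z] (s J κ N : ℕ) (X : Z → Finset U) (ζ : Fin N → Z) : Prop :=
  ∀ j < J, ∀ t : Fin s → Fin (8 * s * 2 ^ j) → U,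
    κ * 2 ^ j ≤ 4 * J * (univ.filter (fun z => Hit s (8 * s * 2 ^ j) X t z)).card →
      ∃ i, Hit s (8 * s * 2 ^ j) X t (ζ i)

/-- the window number `P` of length `Δ` -/
def win {Z U V : Type*} (Δ P : ℕ) (w : List (Z × (U ⊕ V))) : List (Z × (U ⊕ V)) :=
  seg (P * Δ) ((P + 1) * Δ) w

/-- the block number `j` of length `c` of a list whose oldest element is the last one -/
noncomputable def blk {Z : Type*} (c j : ℕ) (l : List Z) : Finset Z :=
  ((l.reverse.drop (j * c)).take c).toFinset

end Pool.Agent.Helper760.Cov
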