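import Mathlib
import Pool.Agent.Helper760.Cov.DefsC

set_option autoImplicit false

namespace Pool.Agent.Helper760.Cov.J1108

open Finset
open scoped Classical

theorem nb_sum_coord {Z : Type*} [Fintype Z] {N : ℕ} (i : Fin N) (g : Z → ℝ) :
    (Fintype.card Z : ℝ) * ∑ ζ : Fin N → Z, g (ζ i) = (Fintype.card Z : ℝ) ^ N * ∑ z, g z := by
  classical
  have h := Finset.prod_univ_sum (fun _ : Fin N => (univ : Finset Z))
    (fun k z => if k = i then g z else (1 : ℝ))
  rw [Fintype.piFinset_univ] at h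
  have h1 : ∀ ζ : Fin N → Z, ∏ k, (if k = i then g (ζ k) else (1 : ℝ)) = g (ζ i) := by
    intro ζ
    rw [Finset.prod_ite_eq' univ i (fun k => g (ζ k))]
    simp
  simp only [h1] at h
  rw [← h, ← Finset.mul_prod_erase univ _ (Finset.mem_univ i)]
  have h2 : ∏ k ∈ univ.erase i, ∑ z : Z, (if k = i then g z else (1 : ℝ)) =
      (Fintype.card Z : ℝ) ^ (N - 1) := by
    rw [Finset.prod_congr rfl (g := fun _ => (Fintype.card Z : ℝ))]
    · rw [Finset.prod_const, Finset.card_erase_of_mem (Finset.mem_univ i), Finset.card_univ,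
        Fintype.card_fin]
    · intro k hk
      rw [Finset.mem_erase] at hk
      simp [hk.1]
  rw [h2]
  have hN : N = (N - 1) + 1 := by
    have := i.pos; omega
  simp only [if_true]
  conv_rhs => rw [hN, pow_succ]
  ring

theorem nb_two_pow_le (k : ℕ) : (2 : ℝ) ^ k ≤ Real.exp k := by
  have h1 : (2 : ℝ) ≤ Real.exp 1 := by
    have := Real.exp_one_gt_d9; linarith
  calc (2 : ℝ) ^ k ≤ Real.exp 1 ^ k := pow_le_pow_left₀ (by norm_num) h1 k
    _ = Real.exp k := by rw [← Real.exp_nat_mul, mul_one]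

theorem nb_one {Z : Type*} [Fintype Z] [Nonempty Z] (n s J κ N : ℕ) (hJ : 1 ≤ J)
    (hN : 4 * J * Fintype.card Z * (8 * s ^ 2 * n + 4 * J) ≤ N * κ) (j : ℕ) (H : Finset Z)
    (hH : κ * 2 ^ j ≤ 4 * J * H.card) :
    (((univ.filter (fun ζ : Fin N → Z => ∀ i, ζ i ∉ H)).card : ℕ) : ℝ) ≤
      (Fintype.card Z : ℝ) ^ N * Real.exp (-(2 ^ j * (8 * s ^ 2 * n + 4 * J))) := by
  have hm0 : (0 : ℝ) < Fintype.card Z := by exact_mod_cast Fintype.card_pos
  have hJ0 : (0 : ℝ) < J := by exact_mod_cast hJ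
  have hc : (univ.filter (fun ζ : Fin N → Z => ∀ i, ζ i ∉ H)).card = Hᶜ.card ^ N := by
    have : (univ.filter (fun ζ : Fin N → Z => ∀ i, ζ i ∉ H)) =
        Fintype.piFinset (fun _ : Fin N => Hᶜ) := by
      ext ζ; simp [Fintype.mem_piFinset]
    rw [this, Fintype.card_piFinset, Finset.prod_const, Finset.card_univ, Fintype.card_fin]
  rw [hc]
  have hcc : ((Hᶜ.card : ℕ) : ℝ) = Fintype.card Z - H.card := by
    have := Finset.card_add_card_compl H
    rw [← this]; push_cast; ring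
  push_cast
  rw [hcc]
  have hle : ((Fintype.card Z : ℝ) - H.card) ≤
      Fintype.card Z * Real.exp (-(H.card / Fintype.card Z)) := by
    have h1 := Real.add_one_le_exp (-((H.card : ℝ) / Fintype.card Z))
    have h2 := mul_le_mul_of_nonneg_left h1 hm0.le
    have h3 : (Fintype.card Z : ℝ) * (-((H.card : ℝ) / Fintype.card Z) + 1) =
        Fintype.card Z - H.card := by
      field_simp; ring
    linarith
  have hnn : 0 ≤ ((Fintype.card Z : ℝ) - H.card) := by
    rw [← hcc]; positivity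
  calc ((Fintype.card Z : ℝ) - H.card) ^ N ≤
      (Fintype.card Z * Real.exp (-(H.card / Fintype.card Z))) ^ N :=
        pow_le_pow_left₀ hnn hle N
    _ = (Fintype.card Z : ℝ) ^ N * Real.exp (N * (-(H.card / Fintype.card Z))) := by
        rw [mul_pow, ← Real.exp_nat_mul]
    _ ≤ _ := by
        refine mul_le_mul_of_nonneg_left (Real.exp_le_exp.2 ?_) (by positivity)
        rw [mul_neg, neg_le_neg_iff, ← mul_div_assoc, le_div_iff₀ hm0]
        have h4 : (κ : ℝ) * 2 ^ j ≤ 4 * J * H.card := by exact_mod_cast hH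
        have h5 : 4 * (J : ℝ) * Fintype.card Z * (8 * s ^ 2 * n + 4 * J) ≤ N * κ := by
          exact_mod_cast hN
        have h6 : 4 * (J : ℝ) * ((2 : ℝ) ^ j * (8 * s ^ 2 * n + 4 * J) * Fintype.card Z) ≤
            4 * (J : ℝ) * (N * H.card) := by
          have h7 := mul_le_mul_of_nonneg_right h5 (by positivity : (0 : ℝ) ≤ 2 ^ j)
          have h8 := mul_le_mul_of_nonneg_left h4 (by positivity : (0 : ℝ) ≤ N)
          nlinarith
        exact le_of_mul_le_mul_left h6 (by positivity)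

theorem exists_noBad {Z U : Type*} [Fintype Z] [Nonempty Z] [Fintype U] (n s J κ N : ℕ)
    (X : Z → Finset U) (hU : Fintype.card U ≤ 2 ^ n) (hJ : 1 ≤ J) (hκ : 1 ≤ κ)
    (hN : 4 * J * Fintype.card Z * (8 * s ^ 2 * n + 4 * J) ≤ N * κ) :
    ∃ ζ : Fin N → Z, NoBad s J κ N X ζ ∧
      Fintype.card Z * ∑ i, (X (ζ i)).card ≤ 2 * N * ∑ z, (X z).card := by
  classical
  have hm0 : (0 : ℝ) < Fintype.card Z := by exact_mod_cast Fintype.card_pos
  have hJ0 : (0 : ℝ) < J := by exact_mod_cast hJ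
  obtain ⟨mN, hmN⟩ : ∃ mN : ℝ, mN = (Fintype.card Z : ℝ) ^ N := ⟨_, rfl⟩
  have hmN0 : 0 < mN := by rw [hmN]; positivity
  obtain ⟨S, hS⟩ : ∃ S, S = ∑ z, (X z).card := ⟨_, rfl⟩
  -- bad samples of level j
  let Bad : ℕ → Finset (Fin N → Z) := fun j => univ.filter (fun ζ =>
    ∃ t : Fin s → Fin (8 * s * 2 ^ j) → U,
      κ * 2 ^ j ≤ 4 * J * (univ.filter (fun z => Hit s (8 * s * 2 ^ j) X t z)).card ∧
        ∀ i, ¬ Hit s (8 * s * 2 ^ j) X t (ζ i))
  have hBad : ∀ j, ((Bad j).card : ℝ) ≤ mN * Real.exp (-(4 * J)) := by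
    intro j
    have hsub : Bad j ⊆ (univ.filter (fun t : Fin s → Fin (8 * s * 2 ^ j) → U =>
        κ * 2 ^ j ≤ 4 * J * (univ.filter (fun z => Hit s (8 * s * 2 ^ j) X t z)).card)).biUnion
        (fun t => univ.filter (fun ζ : Fin N → Z => ∀ i, ζ i ∉
          (univ.filter (fun z => Hit s (8 * s * 2 ^ j) X t z)))) := by
      intro ζ hζ
      simp only [Bad, Finset.mem_filter, Finset.mem_univ, true_and] at hζ
      obtain ⟨t, h1, h2⟩ := hζ
      simp only [Finset.mem_biUnion, Finset.mem_filter, Finset.mem_univ, true_and]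
      exact ⟨t, h1, h2⟩
    have h1 := (Finset.card_le_card hsub).trans Finset.card_biUnion_le
    have h2 : ((Bad j).card : ℝ) ≤ ∑ t ∈ (univ.filter (fun t : Fin s → Fin (8 * s * 2 ^ j) → U =>
        κ * 2 ^ j ≤ 4 * J * (univ.filter (fun z => Hit s (8 * s * 2 ^ j) X t z)).card)),
        (((univ.filter (fun ζ : Fin N → Z => ∀ i, ζ i ∉
          (univ.filter (fun z => Hit s (8 * s * 2 ^ j) X t z)))).card : ℕ) : ℝ) := by
      exact_mod_cast h1
    refine h2.trans ?_
    have h3 : ∑ t ∈ (univ.filter (fun t : Fin s → Fin (8 * s * 2 ^ j) → U =>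
        κ * 2 ^ j ≤ 4 * J * (univ.filter (fun z => Hit s (8 * s * 2 ^ j) X t z)).card)),
        (((univ.filter (fun ζ : Fin N → Z => ∀ i, ζ i ∉
          (univ.filter (fun z => Hit s (8 * s * 2 ^ j) X t z)))).card : ℕ) : ℝ) ≤
        ∑ t ∈ (univ.filter (fun t : Fin s → Fin (8 * s * 2 ^ j) → U =>
        κ * 2 ^ j ≤ 4 * J * (univ.filter (fun z => Hit s (8 * s * 2 ^ j) X t z)).card)),
        (mN * Real.exp (-(2 ^ j * (8 * s ^ 2 * n + 4 * J)))) := by
      refine Finset.sum_le_sum fun t ht => ?_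
      rw [Finset.mem_filter] at ht
      rw [hmN]
      exact nb_one n s J κ N hJ hN j _ ht.2
    refine h3.trans ?_
    rw [Finset.sum_const, nsmul_eq_mul]
    have h4 : (((univ.filter (fun t : Fin s → Fin (8 * s * 2 ^ j) → U =>
        κ * 2 ^ j ≤ 4 * J * (univ.filter (fun z => Hit s (8 * s * 2 ^ j) X t z)).card)).card : ℕ)
        : ℝ) ≤ Real.exp (2 ^ j * (8 * s ^ 2 * n)) := by
      have h5 : (univ.filter (fun t : Fin s → Fin (8 * s * 2 ^ j) → U =>
          κ * 2 ^ j ≤ 4 * J * (univ.filter (fun z => Hit s (8 * s * 2 ^ j) X t z)).card)).card ≤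
          2 ^ (2 ^ j * (8 * s ^ 2 * n)) := by
        refine (Finset.card_filter_le _ _).trans ?_
        rw [Finset.card_univ, Fintype.card_fun, Fintype.card_fun, Fintype.card_fin,
          Fintype.card_fin]
        calc (Fintype.card U ^ (8 * s * 2 ^ j)) ^ s ≤ ((2 ^ n) ^ (8 * s * 2 ^ j)) ^ s :=
              Nat.pow_le_pow_left (Nat.pow_le_pow_left hU _) _
          _ = 2 ^ (2 ^ j * (8 * s ^ 2 * n)) := by
              rw [← pow_mul, ← pow_mul]; congr 1; ring
      have h6 : (((univ.filter (fun t : Fin s → Fin (8 * s * 2 ^ j) → U =>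
          κ * 2 ^ j ≤ 4 * J * (univ.filter (fun z => Hit s (8 * s * 2 ^ j) X t z)).card)).card : ℕ)
          : ℝ) ≤ (2 : ℝ) ^ (2 ^ j * (8 * s ^ 2 * n)) := by exact_mod_cast h5
      refine h6.trans ((nb_two_pow_le _).trans (le_of_eq ?_))
      push_cast; rfl
    calc _ ≤ Real.exp (2 ^ j * (8 * s ^ 2 * n)) *
        (mN * Real.exp (-(2 ^ j * (8 * s ^ 2 * n + 4 * J)))) :=
          mul_le_mul_of_nonneg_right h4 (by positivity)
      _ = mN * Real.exp (-(2 ^ j * (4 * J))) := by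
          rw [mul_left_comm, ← Real.exp_add]; congr 2; ring
      _ ≤ mN * Real.exp (-(4 * J)) := by
          refine mul_le_mul_of_nonneg_left (Real.exp_le_exp.2 ?_) hmN0.le
          have : (1 : ℝ) ≤ 2 ^ j := one_le_pow₀ (by norm_num)
          nlinarith
  obtain ⟨G, hG⟩ : ∃ G : Finset (Fin N → Z), G = univ.filter (fun ζ => NoBad s J κ N X ζ) :=
    ⟨_, rfl⟩
  have hGc : ((Gᶜ.card : ℕ) : ℝ) ≤ mN / 4 := by
    have hsub : Gᶜ ⊆ (Finset.range J).biUnion Bad := by
      intro ζ hζ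
      rw [Finset.mem_compl, hG, Finset.mem_filter] at hζ
      simp only [Finset.mem_univ, true_and, NoBad, not_forall] at hζ
      obtain ⟨j, hj, t, h1, h2⟩ := hζ
      push Not at h2
      rw [Finset.mem_biUnion]
      refine ⟨j, Finset.mem_range.2 hj, ?_⟩
      simp only [Bad, Finset.mem_filter, Finset.mem_univ, true_and]
      exact ⟨t, h1, h2⟩
    have h1 := (Finset.card_le_card hsub).trans Finset.card_biUnion_le
    have h2 : ((Gᶜ.card : ℕ) : ℝ) ≤ ∑ j ∈ Finset.range J, ((Bad j).card : ℝ) := by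
      exact_mod_cast h1
    have h3 : ∑ j ∈ Finset.range J, ((Bad j).card : ℝ) ≤
        ∑ j ∈ Finset.range J, mN * Real.exp (-(4 * J)) := Finset.sum_le_sum fun j _ => hBad j
    rw [Finset.sum_const, Finset.card_range, nsmul_eq_mul] at h3
    have h4 : (J : ℝ) * Real.exp (-(4 * J)) ≤ 1 / 4 := by
      have h5 := Real.add_one_le_exp (4 * (J : ℝ))
      have h6 : Real.exp (4 * (J : ℝ)) * Real.exp (-(4 * J)) = 1 := by
        rw [← Real.exp_add]; simp
      have h7 := Real.exp_pos (-(4 * (J : ℝ)))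
      nlinarith
    calc ((Gᶜ.card : ℕ) : ℝ) ≤ (J : ℝ) * (mN * Real.exp (-(4 * J))) := h2.trans h3
      _ = mN * ((J : ℝ) * Real.exp (-(4 * J))) := by ring
      _ ≤ mN * (1 / 4) := mul_le_mul_of_nonneg_left h4 hmN0.le
      _ = mN / 4 := by ring
  have hGcard : 3 / 4 * mN ≤ (G.card : ℝ) := by
    have h1 := Finset.card_add_card_compl G
    have h2 : (G.card : ℝ) + Gᶜ.card = mN := by
      rw [hmN]
      have : Fintype.card (Fin N → Z) = Fintype.card Z ^ N := by simp
      rw [this] at h1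
      exact_mod_cast h1
    linarith
  by_contra hcon
  push Not at hcon
  have hcost : ∀ ζ ∈ G, (2 * N * S + 1 : ℝ) ≤
      (Fintype.card Z : ℝ) * ∑ i, ((X (ζ i)).card : ℝ) := by
    intro ζ hζ
    rw [hG, Finset.mem_filter] at hζ
    have := hcon ζ hζ.2
    rw [← hS] at this
    have h1 : 2 * N * S + 1 ≤ Fintype.card Z * ∑ i, (X (ζ i)).card := this
    exact_mod_cast h1
  have htot : ∑ ζ : Fin N → Z, (Fintype.card Z : ℝ) * ∑ i, ((X (ζ i)).card : ℝ) =
      N * (mN * S) := by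
    rw [← Finset.mul_sum, Finset.sum_comm, Finset.mul_sum]
    have : ∀ i : Fin N, (Fintype.card Z : ℝ) * ∑ ζ : Fin N → Z, ((X (ζ i)).card : ℝ) =
        mN * S := by
      intro i
      rw [nb_sum_coord i (fun z => ((X z).card : ℝ)), hmN, hS]
      push_cast; rfl
    rw [Finset.sum_congr rfl (fun i _ => this i), Finset.sum_const, Finset.card_univ,
      Fintype.card_fin, nsmul_eq_mul]
  have hge : (G.card : ℝ) * (2 * N * S + 1) ≤ N * (mN * S) := by
    rw [← htot, ← nsmul_eq_mul, ← Finset.sum_const]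
    refine (Finset.sum_le_sum hcost).trans ?_
    exact Finset.sum_le_sum_of_subset_of_nonneg (Finset.subset_univ _)
      (fun ζ _ _ => by positivity)
  have h9 : 3 / 4 * mN * (2 * N * S + 1) ≤ (G.card : ℝ) * (2 * N * S + 1) :=
    mul_le_mul_of_nonneg_right hGcard (by positivity)
  have h10 : (0 : ℝ) ≤ N * (mN * S) := by positivity
  nlinarith

end Pool.Agent.Helper760.Cov.J1108
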