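import Mathlib
import Pool.Agent.Helper760.Cov.DefsC

set_option autoImplicit false

namespace Pool.Agent.Helper760.Cov.J1109

open Finset
open scoped Classical

/-! ### counting lemmas -/

/-- union bound over the coordinates of a tuple -/
theorem aux_union {Y : Type*} [Fintype Y] (n : ℕ) (q : Y → Prop) :
    (univ.filter (fun t : Fin n → Y => ∃ k, q (t k))).card * Fintype.card Y ≤
      n * (univ.filter q).card * Fintype.card Y ^ n := by
  have h1 : (univ.filter (fun t : Fin n → Y => ∃ k, q (t k))) ⊆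
      univ.biUnion (fun k : Fin n => univ.filter (fun t : Fin n → Y => q (t k))) := by
    intro t ht
    simp only [mem_filter, mem_univ, true_and, mem_biUnion] at ht ⊢
    exact ht
  have h2 : ∀ k : Fin n, (univ.filter (fun t : Fin n → Y => q (t k))).card * Fintype.card Y =
      (univ.filter q).card * Fintype.card Y ^ n := by
    intro k
    have e1 : (univ.filter (fun t : Fin n → Y => q (t k))) =
        Fintype.piFinset (fun k' : Fin n => if k' = k then univ.filter q else (univ : Finset Y)) := by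
      ext t
      simp only [mem_filter, mem_univ, true_and, Fintype.mem_piFinset]
      constructor
      · intro h k'
        by_cases hk : k' = k
        · subst hk; simpa using h
        · simp [hk]
      · intro h
        have := h k
        simpa using this
    rw [e1, Fintype.card_piFinset]
    have e2 : ∀ k' : Fin n, (if k' = k then univ.filter q else (univ : Finset Y)).card =
        if k' = k then (univ.filter q).card else Fintype.card Y := by
      intro k'
      split_ifs <;> simp [Finset.card_univ]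
    rw [Finset.prod_congr rfl (fun k' _ => e2 k')]
    have e3 : ∏ k' : Fin n, (if k' = k then Fintype.card Y else 1) = Fintype.card Y := by
      rw [Finset.prod_ite_eq' univ k (fun _ => Fintype.card Y)]; simp
    have e4 : ∏ k' : Fin n, (if k' = k then (univ.filter q).card else 1) = (univ.filter q).card := by
      rw [Finset.prod_ite_eq' univ k (fun _ => (univ.filter q).card)]; simp
    have e5 : Fintype.card Y ^ n = ∏ _k' : Fin n, Fintype.card Y := by simp
    calc (∏ k' : Fin n, if k' = k then (univ.filter q).card else Fintype.card Y) * Fintype.card Y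
        = (∏ k' : Fin n, if k' = k then (univ.filter q).card else Fintype.card Y) *
          ∏ k' : Fin n, (if k' = k then Fintype.card Y else 1) := by rw [e3]
      _ = (∏ k' : Fin n, (if k' = k then (univ.filter q).card else 1)) *
          ∏ _k' : Fin n, Fintype.card Y := by
        rw [← Finset.prod_mul_distrib, ← Finset.prod_mul_distrib]
        refine Finset.prod_congr rfl fun k' _ => ?_
        split_ifs
        · rfl
        · ring
      _ = _ := by rw [e4, ← e5]
  calc _ ≤ (univ.biUnion (fun k : Fin n => univ.filter (fun t : Fin n → Y => q (t k)))).card *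
        Fintype.card Y := Nat.mul_le_mul_right _ (Finset.card_le_card h1)
    _ ≤ (∑ k : Fin n, (univ.filter (fun t : Fin n → Y => q (t k))).card) * Fintype.card Y :=
        Nat.mul_le_mul_right _ Finset.card_biUnion_le
    _ = _ := by
      rw [Finset.sum_mul, Finset.sum_congr rfl (fun k _ => h2 k)]
      simp
      ring

theorem aux_all {Y : Type*} [Fintype Y] (n : ℕ) (q : Y → Prop) :
    (univ.filter (fun t : Fin n → Y => ∀ k, q (t k))).card = (univ.filter q).card ^ n := by
  have e1 : (univ.filter (fun t : Fin n → Y => ∀ k, q (t k))) =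
      Fintype.piFinset (fun _ : Fin n => univ.filter q) := by
    ext t
    simp [Fintype.mem_piFinset]
  rw [e1, Fintype.card_piFinset]
  simp

/-- tuples missing a large set are rare -/
theorem aux_miss {T' : Type*} [Fintype T'] (s j : ℕ) (hs : 1 ≤ s) (p : T' → Prop)
    (hT : 0 < Fintype.card T')
    (hc : Fintype.card T' ≤ (univ.filter p).card * 2 ^ (j + 1)) :
    8 * (univ.filter (fun t : Fin s → Fin (8 * s * 2 ^ j) → T' => ¬ ∀ k, ∃ r, p (t k r))).card ≤
      Fintype.card (Fin s → Fin (8 * s * 2 ^ j) → T') := by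
  set M := 8 * s * 2 ^ j with hM
  set τ := Fintype.card T' with hτ
  set c := (univ.filter p).card with hcdef
  set b := (univ.filter (fun y : Fin M → T' => ∀ r, ¬ p (y r))).card with hb
  have hbv : b = (univ.filter (fun x : T' => ¬ p x)).card ^ M := by
    rw [hb]
    convert aux_all M (fun x => ¬ p x)
  have hcm : (univ.filter (fun x : T' => ¬ p x)).card + c = τ := by
    have := Finset.card_filter_add_card_filter_not (s := (univ : Finset T')) (p := p)
    rw [Finset.card_univ] at this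
    omega
  have hY : Fintype.card (Fin M → T') = τ ^ M := by simp [hτ]
  have hkey : 8 * s * b ≤ τ ^ M := by
    have hr : (8 * s * b : ℝ) ≤ (τ : ℝ) ^ M := by
      have hτ0 : (0 : ℝ) < τ := by exact_mod_cast hT
      have h1 : ((univ.filter (fun x : T' => ¬ p x)).card : ℝ) = τ * (1 - c / τ) := by
        have : ((univ.filter (fun x : T' => ¬ p x)).card : ℝ) + c = τ := by exact_mod_cast hcm
        field_simp
        linarith
      have h2 : (0 : ℝ) ≤ 1 - c / τ := by
        have : (c : ℝ) ≤ τ := by exact_mod_cast (by omega : c ≤ τ)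
        rw [sub_nonneg, div_le_one hτ0]; exact this
      have h3 : (1 - (c : ℝ) / τ) ≤ Real.exp (-(c / τ)) := by
        have := Real.add_one_le_exp (-((c : ℝ) / τ)); linarith
      have h4 : (1 - (c : ℝ) / τ) ^ M ≤ Real.exp (-(4 * s)) := by
        calc (1 - (c : ℝ) / τ) ^ M ≤ Real.exp (-(c / τ)) ^ M := pow_le_pow_left₀ h2 h3 M
          _ = Real.exp (M * (-(c / τ))) := by rw [← Real.exp_nat_mul]
          _ ≤ Real.exp (-(4 * s)) := by
            apply Real.exp_le_exp.2
            have h5 : (τ : ℝ) ≤ c * 2 ^ (j + 1) := by exact_mod_cast hc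
            have h6 : (M : ℝ) = 8 * s * 2 ^ j := by rw [hM]; push_cast; ring
            have h7 : (4 * s : ℝ) ≤ M * (c / τ) := by
              rw [h6, ← mul_div_assoc, le_div_iff₀ hτ0]
              have : (0 : ℝ) ≤ s := by positivity
              calc (4 * s : ℝ) * τ ≤ 4 * s * (c * 2 ^ (j + 1)) := by
                    apply mul_le_mul_of_nonneg_left h5; positivity
                _ = 8 * s * 2 ^ j * c := by ring
            linarith
      have h8 : (8 * s : ℝ) ≤ Real.exp (4 * s) := by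
        have h9 : (s : ℝ) + 1 ≤ Real.exp s := Real.add_one_le_exp _
        have h10 : Real.exp (4 * s) = Real.exp s ^ 4 := by
          rw [← Real.exp_nat_mul]; norm_num
        have hs' : (1 : ℝ) ≤ s := by exact_mod_cast hs
        have h11 : ((s : ℝ) + 1) ^ 4 ≤ Real.exp s ^ 4 := pow_le_pow_left₀ (by linarith) h9 4
        rw [h10]
        refine le_trans ?_ h11
        nlinarith [sq_nonneg ((s : ℝ) - 1), sq_nonneg ((s : ℝ) + 1), mul_self_nonneg ((s : ℝ) ^ 2)]
      rw [hbv]
      push_cast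
      rw [h1, mul_pow]
      calc 8 * (s : ℝ) * ((τ : ℝ) ^ M * (1 - c / τ) ^ M)
          ≤ Real.exp (4 * s) * ((τ : ℝ) ^ M * Real.exp (-(4 * s))) := by
            apply mul_le_mul h8 _ (by positivity) (by positivity)
            apply mul_le_mul_of_nonneg_left h4; positivity
        _ = (τ : ℝ) ^ M * (Real.exp (4 * s) * Real.exp (-(4 * s))) := by ring
        _ = (τ : ℝ) ^ M := by rw [← Real.exp_add]; simp
    exact_mod_cast hr
  have hU : (univ.filter (fun t : Fin s → Fin M → T' => ∃ k, ∀ r, ¬ p (t k r))).card *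
      Fintype.card (Fin M → T') ≤ s * b * Fintype.card (Fin M → T') ^ s := by
    rw [hb]
    convert aux_union (Y := Fin M → T') s (fun y => ∀ r, ¬ p (y r))
  have hset : (univ.filter (fun t : Fin s → Fin M → T' => ¬ ∀ k, ∃ r, p (t k r))) =
      (univ.filter (fun t : Fin s → Fin M → T' => ∃ k, ∀ r, ¬ p (t k r))) := by
    ext t; simp
  rw [hset]
  rw [hY] at hU
  have hcard : Fintype.card (Fin s → Fin M → T') = (τ ^ M) ^ s := by simp [hτ]
  rw [hcard]
  have hpos : 0 < τ ^ M := pow_pos hT M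
  have : 8 * (univ.filter (fun t : Fin s → Fin M → T' => ∃ k, ∀ r, ¬ p (t k r))).card * τ ^ M ≤
      (τ ^ M) ^ s * τ ^ M := by
    calc _ = 8 * ((univ.filter (fun t : Fin s → Fin M → T' => ∃ k, ∀ r, ¬ p (t k r))).card * τ ^ M) := by ring
      _ ≤ 8 * (s * b * (τ ^ M) ^ s) := Nat.mul_le_mul_left _ hU
      _ = (8 * s * b) * (τ ^ M) ^ s := by ring
      _ ≤ τ ^ M * (τ ^ M) ^ s := Nat.mul_le_mul_right _ hkey
      _ = _ := by ring
  exact Nat.le_of_mul_le_mul_right this hpos

/-- tuples hitting a small set in every block are rare -/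
theorem aux_hit {T' : Type*} [Fintype T'] (s M : ℕ) (p : T' → Prop)
    (hT : 0 < Fintype.card T') (hc : 4 * M * (univ.filter p).card ≤ Fintype.card T') :
    4 ^ s * (univ.filter (fun t : Fin s → Fin M → T' => ∀ k, ∃ r, p (t k r))).card ≤
      Fintype.card (Fin s → Fin M → T') := by
  set τ := Fintype.card T' with hτ
  set c := (univ.filter p).card with hcdef
  set b := (univ.filter (fun y : Fin M → T' => ∃ r, p (y r))).card with hb
  have hb' : (univ.filter (fun t : Fin s → Fin M → T' => ∀ k, ∃ r, p (t k r))).card = b ^ s := by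
    rw [hb]
    convert aux_all s (fun y : Fin M → T' => ∃ r, p (y r))
  rw [hb']
  have hU : b * τ ≤ M * c * τ ^ M := by
    rw [hb, hcdef, hτ]
    convert aux_union (Y := T') M p
  have h4 : 4 * b ≤ τ ^ M := by
    have : 4 * b * τ ≤ τ ^ M * τ := by
      calc 4 * b * τ = 4 * (b * τ) := by ring
        _ ≤ 4 * (M * c * τ ^ M) := Nat.mul_le_mul_left _ hU
        _ = (4 * M * c) * τ ^ M := by ring
        _ ≤ τ * τ ^ M := Nat.mul_le_mul_right _ hc
        _ = _ := by ring
    exact Nat.le_of_mul_le_mul_right this hT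
  have hcard : Fintype.card (Fin s → Fin M → T') = (τ ^ M) ^ s := by simp [hτ]
  rw [hcard, ← mul_pow]
  exact Nat.pow_le_pow_left h4 s

/-- dyadic decomposition of a number in `[0, τ]` -/
theorem aux_dyadic (τ c : ℝ) (h0 : 0 ≤ τ) (hc : c ≤ τ) (n : ℕ) :
    c ≤ τ / 2 ^ n + ∑ j ∈ range n, if τ ≤ c * 2 ^ (j + 1) then τ / 2 ^ j else 0 := by
  induction n with
  | zero => simpa using hc
  | succ n ih =>
    rw [Finset.sum_range_succ]
    by_cases h : τ ≤ c * 2 ^ (n + 1)
    · rw [if_pos h]
      have : 0 ≤ τ / 2 ^ (n + 1) := by positivity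
      linarith
    · rw [if_neg h, add_zero]
      have h1 : c ≤ τ / 2 ^ (n + 1) := by
        rw [le_div_iff₀ (by positivity)]
        exact (not_le.1 h).le
      have h2 : 0 ≤ ∑ j ∈ range n, (if τ ≤ c * 2 ^ (j + 1) then τ / 2 ^ j else 0) := by
        apply Finset.sum_nonneg
        intro j _
        split_ifs
        · positivity
        · exact le_refl _
      linarith

/-- choice of the level -/
theorem aux_level {Z : Type*} [Fintype Z] (J κ τ : ℕ) (c : Z → ℕ) (hκ : 1 ≤ κ)
    (hτ : 1 ≤ τ) (hJ : 2 * Fintype.card Z ≤ κ * 2 ^ J) (D : Finset Z) (hD : κ ≤ D.card)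
    (hc : ∀ z, c z ≤ τ) (hsum : κ * τ ≤ ∑ z ∈ D, c z) :
    ∃ j < J, κ * 2 ^ j < 2 * D.card ∧
      κ * 2 ^ j ≤ 2 * J * (D.filter (fun z => τ ≤ c z * 2 ^ (j + 1))).card := by
  have hex : ∃ n, 2 * D.card ≤ κ * 2 ^ n :=
    ⟨J, (Nat.mul_le_mul_left 2 (Finset.card_le_univ D)).trans hJ⟩
  set J' := Nat.find hex with hJ'
  have hJ'1 : 2 * D.card ≤ κ * 2 ^ J' := Nat.find_spec hex
  have hJ'J : J' ≤ J := Nat.find_min' hex ((Nat.mul_le_mul_left 2 (Finset.card_le_univ D)).trans hJ)
  have hJ'0 : J' ≠ 0 := by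
    intro h0
    rw [h0] at hJ'1
    simp at hJ'1
    omega
  have hlt : ∀ j < J', κ * 2 ^ j < 2 * D.card := fun j hj => not_le.1 (Nat.find_min hex hj)
  by_contra hcon
  push Not at hcon
  have hall : ∀ j < J', 2 * J * (D.filter (fun z => τ ≤ c z * 2 ^ (j + 1))).card < κ * 2 ^ j :=
    fun j hj => hcon j (lt_of_lt_of_le hj hJ'J) (hlt j hj)
  have hJpos : 0 < J := lt_of_lt_of_le (Nat.pos_of_ne_zero hJ'0) hJ'J
  have h1 : (∑ z ∈ D, (c z : ℝ)) ≤ ∑ z ∈ D, ((τ : ℝ) / 2 ^ J' +
      ∑ j ∈ range J', if (τ : ℝ) ≤ c z * 2 ^ (j + 1) then (τ : ℝ) / 2 ^ j else 0) :=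
    Finset.sum_le_sum fun z _ => aux_dyadic τ (c z) (by positivity) (by exact_mod_cast hc z) J'
  rw [Finset.sum_add_distrib, Finset.sum_const, nsmul_eq_mul, Finset.sum_comm] at h1
  have h2 : ∀ j ∈ range J', (∑ z ∈ D, if (τ : ℝ) ≤ c z * 2 ^ (j + 1) then (τ : ℝ) / 2 ^ j else 0) <
      κ * τ / (2 * J) := by
    intro j hj
    rw [← Finset.sum_filter, Finset.sum_const, nsmul_eq_mul]
    have e : (D.filter (fun z => (τ : ℝ) ≤ c z * 2 ^ (j + 1))) =
        (D.filter (fun z => τ ≤ c z * 2 ^ (j + 1))) := by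
      apply Finset.filter_congr
      intro z _
      constructor <;> intro h <;> exact_mod_cast h
    rw [e]
    have h3 : (2 * J * (D.filter (fun z => τ ≤ c z * 2 ^ (j + 1))).card : ℝ) < κ * 2 ^ j := by
      exact_mod_cast hall j (mem_range.1 hj)
    have hJr : (0 : ℝ) < J := by exact_mod_cast hJpos
    have hτr : (0 : ℝ) < τ := by exact_mod_cast hτ
    rw [lt_div_iff₀ (by positivity)]
    have h2j : (0 : ℝ) < 2 ^ j := by positivity
    calc ((D.filter (fun z => τ ≤ c z * 2 ^ (j + 1))).card : ℝ) * (τ / 2 ^ j) * (2 * J)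
        = (2 * J * (D.filter (fun z => τ ≤ c z * 2 ^ (j + 1))).card) * (τ / 2 ^ j) := by ring
      _ < (κ * 2 ^ j) * (τ / 2 ^ j) := by
        apply mul_lt_mul_of_pos_right h3; positivity
      _ = κ * τ := by field_simp
  have h4 : (∑ j ∈ range J', ∑ z ∈ D, if (τ : ℝ) ≤ c z * 2 ^ (j + 1) then (τ : ℝ) / 2 ^ j else 0) <
      κ * τ / 2 := by
    have hne : (range J').Nonempty := ⟨0, mem_range.2 (Nat.pos_of_ne_zero hJ'0)⟩
    calc _ < ∑ j ∈ range J', (κ * τ / (2 * J) : ℝ) := Finset.sum_lt_sum_of_nonempty hne h2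
      _ = J' * (κ * τ / (2 * J)) := by rw [Finset.sum_const, card_range, nsmul_eq_mul]
      _ ≤ J * (κ * τ / (2 * J)) := by
        apply mul_le_mul_of_nonneg_right (by exact_mod_cast hJ'J); positivity
      _ = κ * τ / 2 := by
        have hJr : (J : ℝ) ≠ 0 := by exact_mod_cast hJpos.ne'
        field_simp
  have h5 : (D.card : ℝ) * (τ / 2 ^ J') ≤ κ * τ / 2 := by
    have h6 : (2 * D.card : ℝ) ≤ κ * 2 ^ J' := by exact_mod_cast hJ'1
    have : (D.card : ℝ) * (τ / 2 ^ J') = (2 * D.card) * (τ / 2 ^ J') / 2 := by ring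
    rw [this]
    have h7 : (2 * D.card : ℝ) * (τ / 2 ^ J') ≤ κ * 2 ^ J' * (τ / 2 ^ J') := by
      apply mul_le_mul_of_nonneg_right h6; positivity
    have h8 : (κ : ℝ) * 2 ^ J' * (τ / 2 ^ J') = κ * τ := by field_simp
    linarith
  have h9 : (κ * τ : ℝ) ≤ ∑ z ∈ D, (c z : ℝ) := by exact_mod_cast hsum
  linarith

theorem cov_of_noBad {Z U : Type*} [Fintype Z] [Nonempty Z] [Fintype U] (s J κ N : ℕ)
    (X : Z → Finset U) (ζ : Fin N → Z) (hs : 1 ≤ s) (hκ : 1 ≤ κ)
    (hJ : 2 * Fintype.card Z ≤ κ * 2 ^ J) (hNs : 2 * N < 4 ^ s) (h : NoBad s J κ N X ζ)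
    (T : Finset U) (hT : T.Nonempty) (D : Finset Z)
    (hTD : ∀ x ∈ T, κ ≤ (D.filter (fun z => x ∈ X z)).card) :
    ∃ i, T.card * κ ≤ 64 * s * D.card * (X (ζ i) ∩ T).card := by
  have hτ : 1 ≤ T.card := hT.card_pos
  have hcard' : ∀ z, (univ.filter (fun x : {x // x ∈ T} => (x : U) ∈ X z)).card = (X z ∩ T).card := by
    intro z
    rw [← Finset.card_image_of_injective _ (Subtype.val_injective (p := fun x => x ∈ T))]
    congr 1
    ext x
    simp only [mem_image, mem_filter, mem_univ, true_and, mem_inter, Subtype.exists,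
      exists_and_left, exists_prop, exists_eq_right_right]
  obtain ⟨x0, hx0⟩ := hT
  have hD : κ ≤ D.card := (hTD x0 hx0).trans (Finset.card_filter_le _ _)
  have hdc : κ * T.card ≤ ∑ z ∈ D, (X z ∩ T).card := by
    have h1 : ∑ z ∈ D, (X z ∩ T).card = ∑ x ∈ T, (D.filter (fun z => x ∈ X z)).card := by
      have e1 : ∀ z ∈ D, (X z ∩ T).card = ∑ x ∈ T, if x ∈ X z then 1 else 0 := by
        intro z _
        rw [← Finset.card_filter, Finset.inter_comm, ← Finset.filter_mem_eq_inter]
      have e2 : ∀ x ∈ T, (D.filter (fun z => x ∈ X z)).card = ∑ z ∈ D, if x ∈ X z then 1 else 0 := by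
        intro x _
        rw [← Finset.card_filter]
      rw [Finset.sum_congr rfl e1, Finset.sum_congr rfl e2, Finset.sum_comm]
    rw [h1, mul_comm]
    calc T.card * κ = ∑ _x ∈ T, κ := by simp
      _ ≤ _ := Finset.sum_le_sum hTD
  obtain ⟨j, hjJ, hjD, hjZ⟩ := aux_level J κ T.card (fun z => (X z ∩ T).card) hκ hτ hJ D hD
    (fun z => Finset.card_le_card Finset.inter_subset_right) hdc
  set M := 8 * s * 2 ^ j with hM
  set Zj := D.filter (fun z => T.card ≤ (X z ∩ T).card * 2 ^ (j + 1)) with hZj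
  have hZpos : 0 < Zj.card := by
    by_contra h0
    have h0' : Zj.card = 0 := by omega
    rw [h0'] at hjZ
    have : 0 < κ * 2 ^ j := by positivity
    omega
  have hTc : Fintype.card {x // x ∈ T} = T.card := Fintype.card_coe T
  set Ω := (Fin s → Fin M → {x // x ∈ T}) with hΩ
  -- missed
  have hmiss : ∀ z ∈ Zj, 8 * (univ.filter (fun t : Ω => ¬ ∀ k, ∃ r, (t k r : U) ∈ X z)).card ≤
      Fintype.card Ω := by
    intro z hz
    have hz' := (mem_filter.1 hz).2
    have := aux_miss s j hs (fun x : {x // x ∈ T} => (x : U) ∈ X z) (by rw [hTc]; exact hτ)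
      (by rw [hTc]; convert hz'; convert hcard' z)
    convert this
  -- number of tuples missing more than half of Zj
  set bad1 := (univ.filter (fun t : Ω => Zj.card <
    2 * (Zj.filter (fun z => ¬ ∀ k, ∃ r, (t k r : U) ∈ X z)).card)) with hbad1
  have hb1 : 4 * bad1.card ≤ Fintype.card Ω := by
    have h1 : ∑ t ∈ bad1, Zj.card ≤ ∑ t ∈ bad1,
        2 * (Zj.filter (fun z => ¬ ∀ k, ∃ r, (t k r : U) ∈ X z)).card :=
      Finset.sum_le_sum fun t ht => ((mem_filter.1 ht).2).le
    have h2 : ∑ t ∈ bad1, 2 * (Zj.filter (fun z => ¬ ∀ k, ∃ r, (t k r : U) ∈ X z)).card ≤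
        ∑ t : Ω, 2 * (Zj.filter (fun z => ¬ ∀ k, ∃ r, (t k r : U) ∈ X z)).card :=
      Finset.sum_le_univ_sum_of_nonneg (fun _ => Nat.zero_le _)
    have h3 : ∑ t : Ω, (Zj.filter (fun z => ¬ ∀ k, ∃ r, (t k r : U) ∈ X z)).card =
        ∑ z ∈ Zj, (univ.filter (fun t : Ω => ¬ ∀ k, ∃ r, (t k r : U) ∈ X z)).card := by
      simp only [Finset.card_filter]
      rw [Finset.sum_comm]
    have h4 : 8 * ∑ z ∈ Zj, (univ.filter (fun t : Ω => ¬ ∀ k, ∃ r, (t k r : U) ∈ X z)).card ≤
        Zj.card * Fintype.card Ω := by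
      rw [Finset.mul_sum]
      calc _ ≤ ∑ z ∈ Zj, Fintype.card Ω := Finset.sum_le_sum hmiss
        _ = _ := by simp
    rw [Finset.sum_const, smul_eq_mul] at h1
    rw [← Finset.mul_sum, ← Finset.mul_sum] at h2
    rw [← Finset.mul_sum] at h1
    rw [h3] at h2
    have h5 : 4 * bad1.card * Zj.card ≤ Fintype.card Ω * Zj.card := by
      nlinarith [h1, h2, h4]
    exact Nat.le_of_mul_le_mul_right h5 hZpos
  -- tuples hitting a rare sample point
  set I0 := (univ.filter (fun i : Fin N => 4 * M * (X (ζ i) ∩ T).card ≤ T.card)) with hI0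
  set bad2 := I0.biUnion (fun i => univ.filter (fun t : Ω => ∀ k, ∃ r, (t k r : U) ∈ X (ζ i))) with hbad2
  have hΩpos : 0 < Fintype.card Ω := by
    exact Fintype.card_pos_iff.2 ⟨fun _ _ => ⟨x0, hx0⟩⟩
  have hb2 : 2 * bad2.card < Fintype.card Ω := by
    have h1 : ∀ i ∈ I0, 4 ^ s * (univ.filter (fun t : Ω => ∀ k, ∃ r, (t k r : U) ∈ X (ζ i))).card ≤
        Fintype.card Ω := by
      intro i hi
      have := aux_hit s M (fun x : {x // x ∈ T} => (x : U) ∈ X (ζ i)) (by rw [hTc]; exact hτ)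
        (by rw [hTc]; convert (mem_filter.1 hi).2; convert hcard' (ζ i))
      convert this
    have h2 : 4 ^ s * bad2.card ≤ N * Fintype.card Ω := by
      calc 4 ^ s * bad2.card ≤ 4 ^ s * ∑ i ∈ I0, (univ.filter (fun t : Ω => ∀ k, ∃ r, (t k r : U) ∈ X (ζ i))).card :=
            Nat.mul_le_mul_left _ Finset.card_biUnion_le
        _ = ∑ i ∈ I0, 4 ^ s * (univ.filter (fun t : Ω => ∀ k, ∃ r, (t k r : U) ∈ X (ζ i))).card := by
            rw [Finset.mul_sum]
        _ ≤ ∑ i ∈ I0, Fintype.card Ω := Finset.sum_le_sum h1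
        _ = I0.card * Fintype.card Ω := by simp
        _ ≤ N * Fintype.card Ω := by
            apply Nat.mul_le_mul_right
            calc I0.card ≤ (univ : Finset (Fin N)).card := Finset.card_filter_le _ _
              _ = N := by simp
    have h3 : 4 ^ s * (2 * bad2.card) < 4 ^ s * Fintype.card Ω := by
      calc 4 ^ s * (2 * bad2.card) = 2 * (4 ^ s * bad2.card) := by ring
        _ ≤ 2 * (N * Fintype.card Ω) := Nat.mul_le_mul_left _ h2
        _ = (2 * N) * Fintype.card Ω := by ring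
        _ < 4 ^ s * Fintype.card Ω := Nat.mul_lt_mul_of_pos_right hNs hΩpos
    exact Nat.lt_of_mul_lt_mul_left h3
  have hex : ∃ t : Ω, t ∉ bad1 ∪ bad2 := by
    by_contra hno
    push Not at hno
    have h1 : (univ : Finset Ω) ⊆ bad1 ∪ bad2 := fun t _ => hno t
    have h2 := Finset.card_le_card h1
    rw [Finset.card_univ] at h2
    have h3 := Finset.card_union_le bad1 bad2
    omega
  obtain ⟨t, ht⟩ := hex
  rw [Finset.mem_union, not_or] at ht
  have ht1 : 2 * (Zj.filter (fun z => ¬ ∀ k, ∃ r, (t k r : U) ∈ X z)).card ≤ Zj.card := by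
    by_contra hh
    exact ht.1 (mem_filter.2 ⟨mem_univ _, not_le.1 hh⟩)
  have hhit : κ * 2 ^ j ≤ 4 * J *
      (univ.filter (fun z => Hit s M X (fun k r => (t k r : U)) z)).card := by
    have h1 : (Zj.filter (fun z => ∀ k, ∃ r, (t k r : U) ∈ X z)).card +
        (Zj.filter (fun z => ¬ ∀ k, ∃ r, (t k r : U) ∈ X z)).card = Zj.card :=
      Finset.card_filter_add_card_filter_not _
    have h2 : Zj.card ≤ 2 * (Zj.filter (fun z => ∀ k, ∃ r, (t k r : U) ∈ X z)).card := by omega
    have h3 : (Zj.filter (fun z => ∀ k, ∃ r, (t k r : U) ∈ X z)).card ≤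
        (univ.filter (fun z => Hit s M X (fun k r => (t k r : U)) z)).card := by
      apply Finset.card_le_card
      intro z hz
      exact mem_filter.2 ⟨mem_univ _, (mem_filter.1 hz).2⟩
    calc κ * 2 ^ j ≤ 2 * J * Zj.card := hjZ
      _ ≤ 2 * J * (2 * (univ.filter (fun z => Hit s M X (fun k r => (t k r : U)) z)).card) :=
        Nat.mul_le_mul_left _ (h2.trans (Nat.mul_le_mul_left 2 h3))
      _ = _ := by ring
  obtain ⟨i, hi⟩ := h j hjJ (fun k r => (t k r : U)) hhit
  refine ⟨i, ?_⟩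
  have hi2 : T.card < 4 * M * (X (ζ i) ∩ T).card := by
    by_contra hh
    apply ht.2
    rw [hbad2, mem_biUnion]
    exact ⟨i, mem_filter.2 ⟨mem_univ _, not_lt.1 hh⟩, mem_filter.2 ⟨mem_univ _, hi⟩⟩
  calc T.card * κ ≤ (4 * M * (X (ζ i) ∩ T).card) * κ := Nat.mul_le_mul_right _ hi2.le
    _ = 32 * s * (X (ζ i) ∩ T).card * (κ * 2 ^ j) := by rw [hM]; ring
    _ ≤ 32 * s * (X (ζ i) ∩ T).card * (2 * D.card) := Nat.mul_le_mul_left _ hjD.le
    _ = _ := by ring

end Pool.Agent.Helper760.Cov.J1109
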