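import Mathlib
import Pool.Agent.Helper760.Cov.DefsC

set_option autoImplicit false

namespace Pool.Agent.Helper760.Cov.J1110

open Finset
open scoped Classical

theorem greedy {Z U : Type*} [Fintype U] (n s κ N : ℕ)
    (X : Z → Finset U) (ζ : Fin N → Z) (hU : Fintype.card U ≤ 2 ^ n) (hκ : 1 ≤ κ) (D : Finset Z)
    (h : ∀ T : Finset U, T.Nonempty → (∀ x ∈ T, κ ≤ (D.filter (fun z => x ∈ X z)).card) →
      ∃ i, T.card * κ ≤ 64 * s * D.card * (X (ζ i) ∩ T).card) :
    ∃ C : Finset (Fin N), C.card * κ ≤ (64 * s * n + 1) * D.card ∧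
      ∀ x, κ ≤ (D.filter (fun z => x ∈ X z)).card → ∃ i ∈ C, x ∈ X (ζ i) := by
  set T0 : Finset U := univ.filter (fun x => κ ≤ (D.filter (fun z => x ∈ X z)).card) with hT0
  have memT0 : ∀ x, x ∈ T0 ↔ κ ≤ (D.filter (fun z => x ∈ X z)).card := by
    intro x; simp [hT0]
  rcases T0.eq_empty_or_nonempty with he | hne
  · refine ⟨∅, by simp, fun x hx => ?_⟩
    have : x ∈ T0 := (memT0 x).2 hx
    rw [he] at this
    simp at this
  · obtain ⟨x0, hx0⟩ := hne
    have hD : κ ≤ D.card := ((memT0 x0).1 hx0).trans (card_filter_le _ _)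
    have hs : 1 ≤ s := by
      obtain ⟨i, hi⟩ := h T0 ⟨x0, hx0⟩ (fun x hx => (memT0 x).1 hx)
      by_contra hs
      have : s = 0 := by omega
      subst this
      have h1 : 0 < T0.card := card_pos.2 ⟨x0, hx0⟩
      have h2 : 0 < T0.card * κ := Nat.mul_pos h1 hκ
      rw [Nat.mul_zero, Nat.zero_mul, Nat.zero_mul] at hi
      omega
    have hκr : (1 : ℝ) ≤ κ := by exact_mod_cast hκ
    have hDr : (κ : ℝ) ≤ D.card := by exact_mod_cast hD
    have hsr : (1 : ℝ) ≤ s := by exact_mod_cast hs
    set Q : ℝ := 64 * s * D.card with hQ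
    have hQ1 : (κ : ℝ) ≤ Q := by
      have : (1 : ℝ) ≤ 64 * s := by linarith
      calc (κ : ℝ) ≤ D.card := hDr
        _ = 1 * D.card := by ring
        _ ≤ 64 * s * D.card := by
          apply mul_le_mul_of_nonneg_right this
          positivity
    have hQ0 : 0 < Q := by linarith
    set φ : ℝ := κ / Q with hφ
    have hφ0 : 0 < φ := by positivity
    have hφ1 : φ ≤ 1 := by rw [hφ, div_le_one hQ0]; exact hQ1
    let R : Finset (Fin N) → Finset U := fun C => T0.filter (fun x => ∀ i ∈ C, x ∉ X (ζ i))
    have key : ∀ k : ℕ, ∃ C : Finset (Fin N), C.card ≤ k ∧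
        ((R C).card : ℝ) ≤ (1 - φ) ^ k * T0.card := by
      intro k
      induction k with
      | zero =>
        refine ⟨∅, by simp, ?_⟩
        simp only [pow_zero, one_mul]
        exact_mod_cast card_filter_le _ _
      | succ k ih =>
        obtain ⟨C, hC, hR⟩ := ih
        rcases (R C).eq_empty_or_nonempty with hRe | hRn
        · refine ⟨C, by omega, ?_⟩
          rw [hRe]
          have : 0 ≤ 1 - φ := by linarith
          simp only [card_empty, Nat.cast_zero]
          positivity
        · obtain ⟨i, hi⟩ := h (R C) hRn (fun x hx => (memT0 x).1 (mem_of_mem_filter x hx))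
          refine ⟨insert i C, (card_insert_le _ _).trans (by omega), ?_⟩
          have hRi : R (insert i C) = R C \ (X (ζ i) ∩ R C) := by
            ext x
            simp only [R, mem_filter, mem_insert, forall_eq_or_imp, mem_sdiff, mem_inter]
            tauto
          have hcard : (R (insert i C)).card + (X (ζ i) ∩ R C).card = (R C).card := by
            rw [hRi]
            exact card_sdiff_add_card_eq_card inter_subset_right
          have hcr : ((R (insert i C)).card : ℝ) + (X (ζ i) ∩ R C).card = (R C).card := by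
            exact_mod_cast hcard
          have hir : ((R C).card : ℝ) * κ ≤ Q * (X (ζ i) ∩ R C).card := by
            rw [hQ]; exact_mod_cast hi
          have h3 : φ * (R C).card ≤ (X (ζ i) ∩ R C).card := by
            rw [hφ, div_mul_eq_mul_div, div_le_iff₀ hQ0]
            linarith
          calc ((R (insert i C)).card : ℝ) = (R C).card - (X (ζ i) ∩ R C).card := by linarith
            _ ≤ (1 - φ) * (R C).card := by linarith
            _ ≤ (1 - φ) * ((1 - φ) ^ k * T0.card) := by
              apply mul_le_mul_of_nonneg_left hR; linarith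
            _ = (1 - φ) ^ (k + 1) * T0.card := by ring
    set K : ℕ := 64 * s * n * D.card / κ + 1 with hK
    have hK1 : 64 * s * n * D.card < K * κ := by
      rw [hK]
      have h1 := Nat.div_add_mod (64 * s * n * D.card) κ
      have h2 := Nat.mod_lt (64 * s * n * D.card) (show 0 < κ by omega)
      calc 64 * s * n * D.card = κ * (64 * s * n * D.card / κ) + (64 * s * n * D.card) % κ := h1.symm
        _ < κ * (64 * s * n * D.card / κ) + κ := by omega
        _ = (64 * s * n * D.card / κ + 1) * κ := by ring
    have hK2 : K * κ ≤ (64 * s * n + 1) * D.card := by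
      rw [hK]
      have h1 : 64 * s * n * D.card / κ * κ ≤ 64 * s * n * D.card := Nat.div_mul_le_self _ _
      calc (64 * s * n * D.card / κ + 1) * κ = 64 * s * n * D.card / κ * κ + κ := by ring
        _ ≤ 64 * s * n * D.card + D.card := by omega
        _ = _ := by ring
    obtain ⟨C, hC, hR⟩ := key K
    have hRe : R C = ∅ := by
      rw [← card_eq_zero]
      have h1 : (n : ℝ) < φ * K := by
        have : (64 * s * n * D.card : ℝ) < K * κ := by exact_mod_cast hK1
        rw [hφ, div_mul_eq_mul_div, lt_div_iff₀ hQ0, hQ]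
        linarith
      have h2 : (1 - φ) ^ K < Real.exp (-n) := by
        calc (1 - φ) ^ K ≤ (Real.exp (-φ)) ^ K := by
              apply pow_le_pow_left₀ (by linarith)
              have := Real.add_one_le_exp (-φ)
              linarith
          _ = Real.exp (-(φ * K)) := by rw [← Real.exp_nat_mul]; congr 1; ring
          _ < Real.exp (-n) := by
              apply Real.exp_lt_exp.2; linarith
      have h3 : (T0.card : ℝ) ≤ 2 ^ n := by
        have : T0.card ≤ 2 ^ n := (card_le_univ _).trans hU
        exact_mod_cast this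
      have h4 : (2 : ℝ) ^ n ≤ Real.exp n := by
        have : (2 : ℝ) ≤ Real.exp 1 := by
          have := Real.add_one_le_exp (1 : ℝ); linarith
        calc (2 : ℝ) ^ n ≤ (Real.exp 1) ^ n := pow_le_pow_left₀ (by norm_num) this n
          _ = Real.exp n := by rw [← Real.exp_nat_mul]; congr 1; ring
      have h5 : (0 : ℝ) < T0.card := by
        have : 0 < T0.card := card_pos.2 ⟨x0, hx0⟩
        exact_mod_cast this
      have h6 : ((R C).card : ℝ) < 1 := by
        calc ((R C).card : ℝ) ≤ (1 - φ) ^ K * T0.card := hR
          _ < Real.exp (-n) * T0.card := mul_lt_mul_of_pos_right h2 h5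
          _ ≤ Real.exp (-n) * Real.exp n :=
              mul_le_mul_of_nonneg_left (h3.trans h4) (Real.exp_pos _).le
          _ = 1 := by rw [← Real.exp_add]; simp
      have h7 : (R C).card < 1 := by exact_mod_cast h6
      omega
    refine ⟨C, ?_, fun x hx => ?_⟩
    · exact (Nat.mul_le_mul_right κ hC).trans hK2
    · by_contra hcon
      have : x ∈ R C := by
        simp only [R, mem_filter]
        refine ⟨(memT0 x).2 hx, fun i hi hxi => hcon ⟨i, hi, hxi⟩⟩
      rw [hRe] at this
      simp at this

end Pool.Agent.Helper760.Cov.J1110
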