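import Mathlib
import Pool.Agent.Helper760.Cov.DefsC

set_option autoImplicit false

namespace Pool.Agent.Helper760.Cov.J1111

open Finset
open scoped Classical

section sampler

variable {Z P : Type*} [Fintype Z] [Fintype P]

/-- accumulated hitting probability -/
noncomputable def sS (r : List (((Z → Finset P) × (Z → ℝ)) × Z)) (p : P) : ℝ :=
  (r.map (fun q => ((univ.filter (fun z => p ∈ q.1.1 z)).card : ℝ) / (Fintype.card Z : ℝ))).sum

/-- cost paid -/
noncomputable def sC (r : List (((Z → Finset P) × (Z → ℝ)) × Z)) : ℝ :=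
  (r.map (fun q => q.1.2 q.2)).sum

/-- average cost -/
noncomputable def sA (r : List (((Z → Finset P) × (Z → ℝ)) × Z)) : ℝ :=
  (r.map (fun q => (∑ z, q.1.2 z) / (Fintype.card Z : ℝ))).sum

/-- the point has not been hit -/
def sU (r : List (((Z → Finset P) × (Z → ℝ)) × Z)) (p : P) : Prop :=
  ¬ ∃ q ∈ r, p ∈ q.1.1 q.2

/-- the potential -/
noncomputable def sPsi (E : ℝ) (r : List (((Z → Finset P) × (Z → ℝ)) × Z)) : ℝ :=
  1 / (Fintype.card P : ℝ) * (∑ p ∈ univ.filter (fun p => sU r p), Real.exp (sS r p)) +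
    (sC r - sA r) / E

theorem sU_cons (F : (Z → Finset P) × (Z → ℝ)) (z : Z)
    (r : List (((Z → Finset P) × (Z → ℝ)) × Z)) (p : P) :
    sU ((F, z) :: r) p ↔ sU r p ∧ p ∉ F.1 z := by
  unfold sU
  simp only [List.mem_cons, exists_eq_or_imp, not_or]
  tauto

theorem psi_step [Nonempty Z] (E : ℝ) (hE : 0 < E)
    (r : List (((Z → Finset P) × (Z → ℝ)) × Z)) (F : (Z → Finset P) × (Z → ℝ)) :
    ∃ z, sPsi E ((F, z) :: r) ≤ sPsi E r := by
  have hm : (0 : ℝ) < Fintype.card Z := by exact_mod_cast Fintype.card_pos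
  have hsum : ∑ z : Z, sPsi E ((F, z) :: r) ≤ ∑ _z : Z, sPsi E r := by
    have hA : ∀ z : Z, sPsi E ((F, z) :: r) =
        1 / (Fintype.card P : ℝ) * (∑ p ∈ univ.filter (fun p => sU r p),
          (if p ∉ F.1 z then Real.exp (sS r p + ((univ.filter (fun z' => p ∈ F.1 z')).card : ℝ) /
            (Fintype.card Z : ℝ)) else 0)) +
        ((sC r - sA r) / E + (F.2 z - (∑ z', F.2 z') / (Fintype.card Z : ℝ)) / E) := by
      intro z
      unfold sPsi
      congr 1
      · congr 1
        rw [← Finset.sum_filter, Finset.filter_filter]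
        apply Finset.sum_congr
        · ext p
          rw [Finset.mem_filter, Finset.mem_filter, sU_cons]
        · intro p _
          congr 1
          unfold sS
          rw [List.map_cons, List.sum_cons, add_comm]
      · unfold sC sA
        rw [List.map_cons, List.sum_cons, List.map_cons, List.sum_cons]
        ring
    rw [Finset.sum_congr rfl (fun z _ => hA z), Finset.sum_add_distrib, ← Finset.mul_sum,
      Finset.sum_add_distrib, Finset.sum_const, Finset.sum_const, Finset.card_univ, nsmul_eq_mul,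
      nsmul_eq_mul]
    have h2 : ∑ z : Z, (F.2 z - (∑ z', F.2 z') / (Fintype.card Z : ℝ)) / E = 0 := by
      rw [← Finset.sum_div, Finset.sum_sub_distrib, Finset.sum_const, Finset.card_univ,
        nsmul_eq_mul, mul_div_cancel₀ _ hm.ne', sub_self, zero_div]
    rw [h2, add_zero]
    have h1 : ∑ z : Z, ∑ p ∈ univ.filter (fun p => sU r p),
          (if p ∉ F.1 z then Real.exp (sS r p + ((univ.filter (fun z' => p ∈ F.1 z')).card : ℝ) /
            (Fintype.card Z : ℝ)) else 0) ≤
        (Fintype.card Z : ℝ) * ∑ p ∈ univ.filter (fun p => sU r p), Real.exp (sS r p) := by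
      rw [Finset.sum_comm, Finset.mul_sum]
      apply Finset.sum_le_sum
      intro p _
      rw [← Finset.sum_filter, Finset.sum_const, nsmul_eq_mul]
      set a : ℝ := ((univ.filter (fun z' => p ∈ F.1 z')).card : ℝ) / (Fintype.card Z : ℝ) with ha
      have hcard : ((univ.filter (fun z' => p ∉ F.1 z')).card : ℝ) =
          (Fintype.card Z : ℝ) * (1 - a) := by
        have h3 := Finset.card_filter_add_card_filter_not (s := (univ : Finset Z))
          (fun z' => p ∈ F.1 z')
        rw [Finset.card_univ] at h3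
        have h4 : ((univ.filter (fun z' => p ∈ F.1 z')).card : ℝ) +
            ((univ.filter (fun z' => p ∉ F.1 z')).card : ℝ) = (Fintype.card Z : ℝ) := by
          exact_mod_cast h3
        rw [ha, mul_sub, mul_one, mul_div_cancel₀ _ hm.ne']
        linarith
      rw [hcard, Real.exp_add]
      have h5 : 1 - a ≤ Real.exp (-a) := by
        have := Real.add_one_le_exp (-a)
        linarith
      have h6 : (1 - a) * Real.exp a ≤ 1 := by
        calc (1 - a) * Real.exp a ≤ Real.exp (-a) * Real.exp a :=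
              mul_le_mul_of_nonneg_right h5 (Real.exp_pos a).le
          _ = 1 := by rw [← Real.exp_add]; simp
      calc (Fintype.card Z : ℝ) * (1 - a) * (Real.exp (sS r p) * Real.exp a)
          = (Fintype.card Z : ℝ) * Real.exp (sS r p) * ((1 - a) * Real.exp a) := by ring
        _ ≤ (Fintype.card Z : ℝ) * Real.exp (sS r p) * 1 :=
            mul_le_mul_of_nonneg_left h6 (mul_nonneg hm.le (Real.exp_pos _).le)
        _ = (Fintype.card Z : ℝ) * Real.exp (sS r p) := mul_one _
    unfold sPsi
    rw [mul_add]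
    apply add_le_add _ le_rfl
    calc 1 / (Fintype.card P : ℝ) * _ ≤ 1 / (Fintype.card P : ℝ) *
          ((Fintype.card Z : ℝ) * ∑ p ∈ univ.filter (fun p => sU r p), Real.exp (sS r p)) :=
          mul_le_mul_of_nonneg_left h1 (by positivity)
      _ = _ := by ring
  obtain ⟨z, _, hz⟩ := Finset.exists_le_of_sum_le (Finset.univ_nonempty) hsum
  exact ⟨z, hz⟩

/-- the run produced by a choice function -/
noncomputable def runAux
    (ch : List (((Z → Finset P) × (Z → ℝ)) × Z) → ((Z → Finset P) × (Z → ℝ)) → Z) :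
    List ((Z → Finset P) × (Z → ℝ)) → List Z
  | [] => []
  | F :: Fs => ch (Fs.zip (runAux ch Fs)) F :: runAux ch Fs

end sampler

theorem sampler {Z P : Type*} [Fintype Z] [Nonempty Z] [Fintype P] (E : ℝ) (hE : 0 < E) :
    ∃ run : List ((Z → Finset P) × (Z → ℝ)) → List Z, run [] = [] ∧
      (∀ F Fs, ∃ z, run (F :: Fs) = z :: run Fs) ∧
      ∀ Fs : List ((Z → Finset P) × (Z → ℝ)), (∀ F ∈ Fs, ∀ z, 0 ≤ F.2 z) →
        (Fs.map (fun F => (∑ z, F.2 z) / (Fintype.card Z : ℝ))).sum ≤ E →
        (List.zipWith (fun F z => F.2 z) Fs (run Fs)).sum ≤ 2 * E ∧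
        ∀ p : P, (∃ q ∈ Fs.zip (run Fs), p ∈ q.1.1 q.2) ∨
          (Fs.map (fun F => ((univ.filter (fun z => p ∈ F.1 z)).card : ℝ) / (Fintype.card Z : ℝ))).sum
            ≤ Real.log (2 * Fintype.card P) := by
  choose ch hch using fun (r : List (((Z → Finset P) × (Z → ℝ)) × Z))
    (F : (Z → Finset P) × (Z → ℝ)) => psi_step E hE r F
  refine ⟨runAux ch, rfl, fun F Fs => ⟨_, rfl⟩, ?_⟩
  have hpsi : ∀ Fs : List ((Z → Finset P) × (Z → ℝ)), sPsi E (Fs.zip (runAux ch Fs)) ≤ 1 := by
    intro Fs
    induction Fs with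
    | nil =>
      simp only [List.zip_nil_left, sPsi, sS, sC, sA, List.map_nil, List.sum_nil, Real.exp_zero,
        sub_self, zero_div, add_zero, Finset.sum_const, nsmul_eq_mul, mul_one]
      have h1 : (univ.filter (fun p : P => sU (Z := Z) [] p)).card ≤ Fintype.card P :=
        Finset.card_le_univ _
      have h2 : ((univ.filter (fun p : P => sU (Z := Z) [] p)).card : ℝ) ≤ Fintype.card P := by
        exact_mod_cast h1
      rcases Nat.eq_zero_or_pos (Fintype.card P) with h0 | h0
      · rw [h0]; simp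
      · have h3 : (0 : ℝ) < Fintype.card P := by exact_mod_cast h0
        rw [one_div, ← div_eq_inv_mul, div_le_one h3]
        exact h2
    | cons F Fs ih =>
      exact (hch (Fs.zip (runAux ch Fs)) F).trans ih
  have hCeq : ∀ Fs : List ((Z → Finset P) × (Z → ℝ)), sC (Fs.zip (runAux ch Fs)) =
      (List.zipWith (fun F z => F.2 z) Fs (runAux ch Fs)).sum := by
    intro Fs
    induction Fs with
    | nil => rfl
    | cons F Fs ih =>
      simp only [runAux, List.zip_cons_cons, sC, List.map_cons, List.sum_cons,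
        List.zipWith_cons_cons] at ih ⊢
      rw [ih]
  have hAeq : ∀ Fs : List ((Z → Finset P) × (Z → ℝ)), sA (Fs.zip (runAux ch Fs)) =
      (Fs.map (fun F => (∑ z, F.2 z) / (Fintype.card Z : ℝ))).sum := by
    intro Fs
    induction Fs with
    | nil => rfl
    | cons F Fs ih =>
      simp only [runAux, List.zip_cons_cons, sA, List.map_cons, List.sum_cons] at ih ⊢
      rw [ih]
  have hSeq : ∀ (Fs : List ((Z → Finset P) × (Z → ℝ))) (p : P), sS (Fs.zip (runAux ch Fs)) p =
      (Fs.map (fun F => ((univ.filter (fun z => p ∈ F.1 z)).card : ℝ) /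
        (Fintype.card Z : ℝ))).sum := by
    intro Fs p
    induction Fs with
    | nil => rfl
    | cons F Fs ih =>
      simp only [runAux, List.zip_cons_cons, sS, List.map_cons, List.sum_cons] at ih ⊢
      rw [ih]
  have hCnn : ∀ Fs : List ((Z → Finset P) × (Z → ℝ)), (∀ F ∈ Fs, ∀ z, 0 ≤ F.2 z) →
      0 ≤ sC (Fs.zip (runAux ch Fs)) := by
    intro Fs
    induction Fs with
    | nil => intro _; exact le_of_eq rfl
    | cons F Fs ih =>
      intro h
      have h1 := ih (fun F' hF' => h F' (List.mem_cons_of_mem _ hF'))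
      have h2 := h F List.mem_cons_self (ch (Fs.zip (runAux ch Fs)) F)
      simp only [runAux, List.zip_cons_cons, sC, List.map_cons, List.sum_cons] at h1 ⊢
      exact add_nonneg h2 h1
  intro Fs hnn hE'
  have k1 := hpsi Fs
  have k2 := hCnn Fs hnn
  rw [← hAeq] at hE'
  unfold sPsi at k1
  set Sg := ∑ p ∈ univ.filter (fun p => sU (Fs.zip (runAux ch Fs)) p),
    Real.exp (sS (Fs.zip (runAux ch Fs)) p) with hSg
  have hSg0 : 0 ≤ 1 / (Fintype.card P : ℝ) * Sg :=
    mul_nonneg (by positivity) (Finset.sum_nonneg fun p _ => (Real.exp_pos _).le)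
  refine ⟨?_, ?_⟩
  · rw [← hCeq]
    have h1 : (sC (Fs.zip (runAux ch Fs)) - sA (Fs.zip (runAux ch Fs))) / E ≤ 1 := by linarith
    rw [div_le_one hE] at h1
    linarith
  · intro p
    by_cases hp : sU (Fs.zip (runAux ch Fs)) p
    · right
      rw [← hSeq]
      have hP0 : 0 < Fintype.card P := Fintype.card_pos_iff.mpr ⟨p⟩
      have hP : (0 : ℝ) < Fintype.card P := by exact_mod_cast hP0
      have h1 : Real.exp (sS (Fs.zip (runAux ch Fs)) p) ≤ Sg := by
        apply Finset.single_le_sum (f := fun p => Real.exp (sS (Fs.zip (runAux ch Fs)) p))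
          (fun p _ => (Real.exp_pos _).le)
        rw [Finset.mem_filter]
        exact ⟨Finset.mem_univ _, hp⟩
      have h2 : -1 ≤ (sC (Fs.zip (runAux ch Fs)) - sA (Fs.zip (runAux ch Fs))) / E := by
        rw [le_div_iff₀ hE]
        linarith
      have h3 : 1 / (Fintype.card P : ℝ) * Sg ≤ 2 := by linarith
      rw [one_div, ← div_eq_inv_mul, div_le_iff₀ hP] at h3
      rw [Real.le_log_iff_exp_le (by positivity)]
      exact h1.trans h3
    · left
      unfold sU at hp
      exact not_not.mp hp

end Pool.Agent.Helper760.Cov.J1111
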