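import Mathlib
import Pool.Agent.Helper760.Cov.DefsC

set_option autoImplicit false

namespace Pool.Agent.Helper760.Cov.J1112

open Finset
open scoped Classical

section pack
variable {M U V : Type*}

/-- the small cluster number `k` (from the old end) -/
noncomputable def Xk (SC : List M → List (Finset U)) (w : List M) (k : ℕ) : Finset U :=
  ((SC w).reverse[k]?).getD ∅

/-- total size of the first `k` small clusters -/
noncomputable def pre (SC : List M → List (Finset U)) (w : List M) (k : ℕ) : ℕ :=
  ∑ j ∈ range k, (Xk SC w j).card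

theorem Xk_stable (SC : List M → List (Finset U)) (hSC : ∀ q w, SC w <:+ SC (q :: w)) (q : M)
    (w : List M) (k : ℕ) (hk : k < (SC w).length) : Xk SC (q :: w) k = Xk SC w k := by
  obtain ⟨t, ht⟩ := hSC q w
  unfold Xk
  rw [← ht, List.reverse_append, List.getElem?_append_left (by simpa using hk)]

theorem pre_stable (SC : List M → List (Finset U)) (hSC : ∀ q w, SC w <:+ SC (q :: w)) (q : M)
    (w : List M) (k : ℕ) (hk : k ≤ (SC w).length) : pre SC (q :: w) k = pre SC w k := by
  unfold pre
  apply Finset.sum_congr rfl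
  intro j hj
  rw [Xk_stable SC hSC q w j (lt_of_lt_of_le (Finset.mem_range.1 hj) hk)]

theorem sum_getD (l : List (Finset U)) :
    ∑ j ∈ range l.length, ((l[j]?).getD ∅).card = (l.map Finset.card).sum := by
  induction l with
  | nil => simp
  | cons a l ih =>
    rw [List.length_cons, Finset.sum_range_succ', List.map_cons, List.sum_cons, ← ih]
    simp [add_comm]

theorem pre_le (SC : List M → List (Finset U)) (w : List M) (k : ℕ) (hk : k ≤ (SC w).length) :
    pre SC w k ≤ ((SC w).map Finset.card).sum := by
  have h := sum_getD (SC w).reverse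
  rw [List.map_reverse, List.sum_reverse, List.length_reverse] at h
  rw [← h]
  exact Finset.sum_le_sum_of_subset (Finset.range_subset_range.2 hk)

/-- the Y-part of the bin `β` -/
noncomputable def YB (A : ℕ) (SC : List M → List (Finset U)) (Yc : List M → ℕ → Finset V)
    (w : List M) (β : ℕ) : Finset V :=
  ((range (SC w).length).filter (fun k => pre SC w k / A = β)).biUnion (fun k => Yc w k)

theorem YB_mono (A : ℕ) (SC : List M → List (Finset U)) (Yc : List M → ℕ → Finset V)
    (hSC : ∀ q w, SC w <:+ SC (q :: w)) (hY : ∀ q w k, Yc w k ⊆ Yc (q :: w) k)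
    (q : M) (w : List M) (β : ℕ) : YB A SC Yc w β ⊆ YB A SC Yc (q :: w) β := by
  intro y hy
  unfold YB at hy ⊢
  rw [Finset.mem_biUnion] at hy ⊢
  obtain ⟨k, hk, hyk⟩ := hy
  rw [Finset.mem_filter, Finset.mem_range] at hk
  refine ⟨k, ?_, hY q w k hyk⟩
  rw [Finset.mem_filter, Finset.mem_range, pre_stable SC hSC q w k hk.1.le]
  exact ⟨lt_of_lt_of_le hk.1 (hSC q w).length_le, hk.2⟩

/-- the Y-part of the bin, in order of appearance (latest first) -/
noncomputable def gl (A : ℕ) (SC : List M → List (Finset U)) (Yc : List M → ℕ → Finset V) (β : ℕ) :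
    List M → List V
  | [] => (YB A SC Yc [] β).toList
  | q :: w => ((YB A SC Yc (q :: w) β) \ (gl A SC Yc β w).toFinset).toList ++ gl A SC Yc β w

theorem gl_mem (A : ℕ) (SC : List M → List (Finset U)) (Yc : List M → ℕ → Finset V)
    (hSC : ∀ q w, SC w <:+ SC (q :: w)) (hY : ∀ q w k, Yc w k ⊆ Yc (q :: w) k)
    (β : ℕ) (w : List M) (y : V) : y ∈ gl A SC Yc β w ↔ y ∈ YB A SC Yc w β := by
  induction w with
  | nil => simp [gl]
  | cons q w ih =>
    simp only [gl, List.mem_append, Finset.mem_toList, Finset.mem_sdiff, List.mem_toFinset, ih]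
    have := @YB_mono M U V A SC Yc hSC hY q w β y
    tauto

theorem gl_nodup (A : ℕ) (SC : List M → List (Finset U)) (Yc : List M → ℕ → Finset V)
    (β : ℕ) (w : List M) : (gl A SC Yc β w).Nodup := by
  induction w with
  | nil => exact Finset.nodup_toList _
  | cons q w ih =>
    rw [gl, List.nodup_append]
    refine ⟨Finset.nodup_toList _, ih, ?_⟩
    intro a ha b hb hab
    subst hab
    rw [Finset.mem_toList, Finset.mem_sdiff, List.mem_toFinset] at ha
    exact ha.2 hb

theorem gl_length (A : ℕ) (SC : List M → List (Finset U)) (Yc : List M → ℕ → Finset V)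
    (hSC : ∀ q w, SC w <:+ SC (q :: w)) (hY : ∀ q w k, Yc w k ⊆ Yc (q :: w) k)
    (β : ℕ) (w : List M) : (gl A SC Yc β w).length = (YB A SC Yc w β).card := by
  rw [← List.toFinset_card_of_nodup (gl_nodup A SC Yc β w)]
  congr 1
  ext y
  rw [List.mem_toFinset, gl_mem A SC Yc hSC hY]

/-- rank of `y` from the old end -/
noncomputable def rk (A : ℕ) (SC : List M → List (Finset U)) (Yc : List M → ℕ → Finset V)
    (β : ℕ) (w : List M) (y : V) : ℕ := (gl A SC Yc β w).reverse.idxOf y

theorem rk_stable (A : ℕ) (SC : List M → List (Finset U)) (Yc : List M → ℕ → Finset V)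
    (hSC : ∀ q w, SC w <:+ SC (q :: w)) (hY : ∀ q w k, Yc w k ⊆ Yc (q :: w) k)
    (β : ℕ) (q : M) (w : List M) (y : V) (hy : y ∈ YB A SC Yc w β) :
    rk A SC Yc β (q :: w) y = rk A SC Yc β w y := by
  unfold rk
  rw [gl, List.reverse_append, List.idxOf_append_of_mem]
  rw [List.mem_reverse, gl_mem A SC Yc hSC hY]
  exact hy

theorem rk_lt (A : ℕ) (SC : List M → List (Finset U)) (Yc : List M → ℕ → Finset V)
    (hSC : ∀ q w, SC w <:+ SC (q :: w)) (hY : ∀ q w k, Yc w k ⊆ Yc (q :: w) k)
    (β : ℕ) (w : List M) (y : V) (hy : y ∈ YB A SC Yc w β) :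
    rk A SC Yc β w y < (YB A SC Yc w β).card := by
  unfold rk
  rw [← gl_length A SC Yc hSC hY, ← List.length_reverse, List.idxOf_lt_length_iff, List.mem_reverse,
    gl_mem A SC Yc hSC hY]
  exact hy

theorem rk_inj (A : ℕ) (SC : List M → List (Finset U)) (Yc : List M → ℕ → Finset V)
    (hSC : ∀ q w, SC w <:+ SC (q :: w)) (hY : ∀ q w k, Yc w k ⊆ Yc (q :: w) k)
    (β : ℕ) (w : List M) (y z : V) (hy : y ∈ YB A SC Yc w β)
    (h : rk A SC Yc β w y = rk A SC Yc β w z) : y = z := by
  unfold rk at h
  have hy' : y ∈ (gl A SC Yc β w).reverse := by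
    rw [List.mem_reverse, gl_mem A SC Yc hSC hY]; exact hy
  exact (List.idxOf_inj hy').1 h

/-- the big clusters -/
noncomputable def CL (A B : ℕ) (SC : List M → List (Finset U)) (Yc : List M → ℕ → Finset V)
    (w : List M) : Finset (ℕ × (U ⊕ V)) :=
  (range (SC w).length).biUnion (fun k =>
    ((range ((YB A SC Yc w (pre SC w k / A)).card / B + 1)) ×ˢ Xk SC w k).image
      (fun p => (Nat.pair (pre SC w k / A) p.1, Sum.inl p.2)) ∪
    (YB A SC Yc w (pre SC w k / A)).image
      (fun y => (Nat.pair (pre SC w k / A) (rk A SC Yc (pre SC w k / A) w y / B), Sum.inr y)))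

theorem mem_CL_inl (A B : ℕ) (SC : List M → List (Finset U)) (Yc : List M → ℕ → Finset V)
    (w : List M) (i : ℕ) (x : U) : (i, Sum.inl x) ∈ CL A B SC Yc w ↔
      ∃ k < (SC w).length, ∃ o ≤ (YB A SC Yc w (pre SC w k / A)).card / B, x ∈ Xk SC w k ∧
        Nat.pair (pre SC w k / A) o = i := by
  unfold CL
  simp only [Finset.mem_biUnion, Finset.mem_union, Finset.mem_image, Finset.mem_product,
    Finset.mem_range, Prod.exists, Prod.mk.injEq, Sum.inl.injEq, reduceCtorEq, and_false,
    exists_false, or_false, Nat.lt_succ_iff]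
  constructor
  · rintro ⟨k, hk, o, x', ⟨ho, hx'⟩, h1, h2⟩
    subst h2
    exact ⟨k, hk, o, ho, hx', h1⟩
  · rintro ⟨k, hk, o, ho, hx, h1⟩
    exact ⟨k, hk, o, x, ⟨ho, hx⟩, h1, rfl⟩

theorem mem_CL_inr (A B : ℕ) (SC : List M → List (Finset U)) (Yc : List M → ℕ → Finset V)
    (w : List M) (i : ℕ) (y : V) : (i, Sum.inr y) ∈ CL A B SC Yc w ↔
      ∃ k < (SC w).length, y ∈ YB A SC Yc w (pre SC w k / A) ∧
        Nat.pair (pre SC w k / A) (rk A SC Yc (pre SC w k / A) w y / B) = i := by
  unfold CL
  simp only [Finset.mem_biUnion, Finset.mem_union, Finset.mem_image, Finset.mem_product,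
    Finset.mem_range, Prod.exists, Prod.mk.injEq, Sum.inr.injEq, reduceCtorEq, and_false,
    exists_false, false_or]
  constructor
  · rintro ⟨k, hk, y', hy', h1, h2⟩
    subst h2
    exact ⟨k, hk, hy', h1⟩
  · rintro ⟨k, hk, hy, h1⟩
    exact ⟨k, hk, y, hy, h1, rfl⟩

/-- sizes of the X-parts of the bins -/
theorem bin_size (A : ℕ) (hA : 0 < A) (SC : List M → List (Finset U)) (w : List M)
    (h : ∀ X ∈ SC w, X.card ≤ A) (β n : ℕ) (hn : n ≤ (SC w).length) :
    ∑ k ∈ (range n).filter (fun k => pre SC w k / A = β), (Xk SC w k).card + β * A ≤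
      max (pre SC w n) (β * A) ∧
    ∑ k ∈ (range n).filter (fun k => pre SC w k / A = β), (Xk SC w k).card ≤ 2 * A := by
  induction n with
  | zero => simp
  | succ n ih =>
    obtain ⟨h1, h2⟩ := ih (by omega)
    have hX : (Xk SC w n).card ≤ A := by
      apply h
      have hn' : n < (SC w).reverse.length := by rw [List.length_reverse]; omega
      unfold Xk
      rw [List.getElem?_eq_getElem hn', Option.getD_some]
      exact List.mem_reverse.1 (List.getElem_mem hn')
    have hpre : pre SC w (n + 1) = pre SC w n + (Xk SC w n).card := by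
      unfold pre; rw [Finset.sum_range_succ]
    rw [Finset.range_add_one, Finset.filter_insert]
    split_ifs with hb
    · rw [Finset.sum_insert (by simp)]
      have h3 : β * A ≤ pre SC w n := by rw [← hb]; exact Nat.div_mul_le_self _ _
      have h4 : pre SC w n < (β + 1) * A := by rw [← hb]; exact (Nat.div_lt_iff_lt_mul hA).1 (Nat.lt_succ_self _)
      have h5 : (β + 1) * A = β * A + A := by ring
      rw [hpre]
      rw [max_eq_left h3] at h1
      have h6 : max (pre SC w n + (Xk SC w n).card) (β * A) = pre SC w n + (Xk SC w n).card :=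
        max_eq_left (by omega)
      rw [h6]
      constructor
      · omega
      · omega
    · refine ⟨h1.trans ?_, h2⟩
      rw [hpre]
      exact max_le_max (Nat.le_add_right _ _) le_rfl

end pack

theorem package {M U V : Type*} (A B : ℕ) (hA : 0 < A) (hB : 0 < B)
    (SC : List M → List (Finset U)) (Yc : List M → ℕ → Finset V)
    (hSC : ∀ q w, SC w <:+ SC (q :: w)) (hY : ∀ q w k, Yc w k ⊆ Yc (q :: w) k) :
    ∃ cl : List M → Finset (ℕ × (U ⊕ V)), (∀ q w, cl w ⊆ cl (q :: w)) ∧
      ∀ w, (∀ X ∈ SC w, X.card ≤ A) →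
        (∀ (k : ℕ) (X : Finset U), (SC w).reverse[k]? = some X →
          ∀ x ∈ X, ∀ y ∈ Yc w k, Co (cl w) x y) ∧
        (∀ i, lX (cl w) i ≤ 2 * A ∧ lY (cl w) i ≤ B) ∧
        (ids (cl w)).card ≤ ((SC w).map Finset.card).sum / A + 1 +
          (∑ k ∈ range (SC w).length, (Yc w k).card) / B := by
  refine ⟨CL A B SC Yc, ?_, ?_⟩
  · intro q w p hp
    obtain ⟨i, (x | y)⟩ := p
    · rw [mem_CL_inl] at hp ⊢
      obtain ⟨k, hk, o, ho, hx, hi⟩ := hp
      have hk' : k < (SC (q :: w)).length := lt_of_lt_of_le hk (hSC q w).length_le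
      refine ⟨k, hk', o, ?_, ?_, ?_⟩
      · rw [pre_stable SC hSC q w k hk.le]
        exact ho.trans (Nat.div_le_div_right (Finset.card_le_card (YB_mono A SC Yc hSC hY q w _)))
      · rw [Xk_stable SC hSC q w k hk]; exact hx
      · rw [pre_stable SC hSC q w k hk.le]; exact hi
    · rw [mem_CL_inr] at hp ⊢
      obtain ⟨k, hk, hy, hi⟩ := hp
      have hk' : k < (SC (q :: w)).length := lt_of_lt_of_le hk (hSC q w).length_le
      refine ⟨k, hk', ?_, ?_⟩
      · rw [pre_stable SC hSC q w k hk.le]
        exact YB_mono A SC Yc hSC hY q w _ hy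
      · rw [pre_stable SC hSC q w k hk.le, rk_stable A SC Yc hSC hY _ q w y hy]; exact hi
  · intro w hw
    refine ⟨?_, ?_, ?_⟩
    · intro k X hX x hx y hy
      have hk : k < (SC w).length := by
        have := (List.getElem?_eq_some_iff.1 hX).1
        rwa [List.length_reverse] at this
      have hXk : Xk SC w k = X := by unfold Xk; rw [hX, Option.getD_some]
      have hyB : y ∈ YB A SC Yc w (pre SC w k / A) := by
        unfold YB
        rw [Finset.mem_biUnion]
        exact ⟨k, by rw [Finset.mem_filter, Finset.mem_range]; exact ⟨hk, rfl⟩, hy⟩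
      refine ⟨Nat.pair (pre SC w k / A) (rk A SC Yc (pre SC w k / A) w y / B), ?_, ?_⟩
      · rw [mem_CL_inl]
        refine ⟨k, hk, _, ?_, by rw [hXk]; exact hx, rfl⟩
        exact Nat.div_le_div_right (rk_lt A SC Yc hSC hY _ w y hyB).le
      · rw [mem_CL_inr]
        exact ⟨k, hk, hyB, rfl⟩
    · intro i
      constructor
      · -- X-part
        have hsub : (CL A B SC Yc w).filter (fun q => q.1 = i ∧ q.2.isLeft) ⊆
            (((range (SC w).length).filter (fun k => pre SC w k / A = (Nat.unpair i).1)).biUnion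
              (fun k => Xk SC w k)).image (fun x => (i, Sum.inl x)) := by
          intro p hp
          rw [Finset.mem_filter] at hp
          obtain ⟨j, (x | y)⟩ := p
          · obtain ⟨hp1, hp2, -⟩ := hp
            simp only at hp2
            subst hp2
            rw [mem_CL_inl] at hp1
            obtain ⟨k, hk, o, ho, hx, hi⟩ := hp1
            rw [Finset.mem_image]
            refine ⟨x, ?_, rfl⟩
            rw [Finset.mem_biUnion]
            refine ⟨k, ?_, hx⟩
            rw [Finset.mem_filter, Finset.mem_range]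
            refine ⟨hk, ?_⟩
            rw [← hi, Nat.unpair_pair]
          · simp at hp
        unfold lX
        refine (Finset.card_le_card hsub).trans (Finset.card_image_le.trans ?_)
        refine Finset.card_biUnion_le.trans ?_
        exact (bin_size A hA SC w hw _ _ le_rfl).2
      · -- Y-part
        set β := (Nat.unpair i).1 with hβ
        set o := (Nat.unpair i).2 with ho
        have hmem : ∀ p ∈ (CL A B SC Yc w).filter (fun q => q.1 = i ∧ q.2.isRight),
            ∃ y, p = (i, Sum.inr y) ∧ y ∈ YB A SC Yc w β ∧ rk A SC Yc β w y / B = o := by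
          intro p hp
          rw [Finset.mem_filter] at hp
          obtain ⟨j, (x | y)⟩ := p
          · simp at hp
          · obtain ⟨hp1, hp2, -⟩ := hp
            simp only at hp2
            rw [mem_CL_inr] at hp1
            obtain ⟨k, hk, hy, hi⟩ := hp1
            rw [hp2] at hi
            have hb : pre SC w k / A = β := by rw [hβ, ← hi, Nat.unpair_pair]
            have hoo : rk A SC Yc (pre SC w k / A) w y / B = o := by rw [ho, ← hi, Nat.unpair_pair]
            rw [hb] at hy hoo
            exact ⟨y, by rw [hp2], hy, hoo⟩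
        unfold lY
        have hcard : ((CL A B SC Yc w).filter (fun q => q.1 = i ∧ q.2.isRight)).card ≤
            (Finset.Ico (o * B) (o * B + B)).card := by
          apply Finset.card_le_card_of_injOn
            (fun p => Sum.elim (fun _ => 0) (fun y => rk A SC Yc β w y) p.2)
          · intro p hp
            obtain ⟨y, rfl, hy, ho'⟩ := hmem p (Finset.mem_coe.1 hp)
            simp only [Sum.elim_inr, Finset.coe_Ico, Set.mem_Ico]
            rw [← ho']
            refine ⟨Nat.div_mul_le_self _ _, ?_⟩
            have := (Nat.div_lt_iff_lt_mul hB).1 (Nat.lt_succ_self (rk A SC Yc β w y / B))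
            linarith [this]
          · intro p hp p' hp' hpp
            obtain ⟨y, rfl, hy, -⟩ := hmem p (Finset.mem_coe.1 hp)
            obtain ⟨y', rfl, hy', -⟩ := hmem p' (Finset.mem_coe.1 hp')
            simp only [Sum.elim_inr] at hpp
            rw [rk_inj A SC Yc hSC hY β w y y' hy hpp]
        rw [Nat.card_Ico] at hcard
        omega
    · -- number of ids
      set used : Finset ℕ := (range (SC w).length).image (fun k => pre SC w k / A) with hused
      have hsub : ids (CL A B SC Yc w) ⊆ used.biUnion (fun β =>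
          (range ((YB A SC Yc w β).card / B + 1)).image (fun o => Nat.pair β o)) := by
        intro i hi
        unfold ids at hi
        rw [Finset.mem_image] at hi
        obtain ⟨⟨j, (x | y)⟩, hp, rfl⟩ := hi
        · rw [mem_CL_inl] at hp
          obtain ⟨k, hk, o, ho, hx, hi⟩ := hp
          rw [Finset.mem_biUnion]
          refine ⟨pre SC w k / A, Finset.mem_image.2 ⟨k, Finset.mem_range.2 hk, rfl⟩, ?_⟩
          rw [Finset.mem_image]
          exact ⟨o, by rw [Finset.mem_range]; omega, hi⟩
        · rw [mem_CL_inr] at hp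
          obtain ⟨k, hk, hy, hi⟩ := hp
          rw [Finset.mem_biUnion]
          refine ⟨pre SC w k / A, Finset.mem_image.2 ⟨k, Finset.mem_range.2 hk, rfl⟩, ?_⟩
          rw [Finset.mem_image]
          refine ⟨_, ?_, hi⟩
          rw [Finset.mem_range, Nat.lt_succ_iff]
          exact Nat.div_le_div_right (rk_lt A SC Yc hSC hY _ w y hy).le
      have h1 : (ids (CL A B SC Yc w)).card ≤ ∑ β ∈ used, ((YB A SC Yc w β).card / B + 1) := by
        refine (Finset.card_le_card hsub).trans (Finset.card_biUnion_le.trans ?_)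
        apply Finset.sum_le_sum
        intro β _
        exact Finset.card_image_le.trans (by rw [Finset.card_range])
      have h2 : ∑ β ∈ used, ((YB A SC Yc w β).card / B + 1) =
          ∑ β ∈ used, (YB A SC Yc w β).card / B + used.card := by
        rw [Finset.sum_add_distrib]; simp
      have h3 : used.card ≤ ((SC w).map Finset.card).sum / A + 1 := by
        have : used ⊆ range (((SC w).map Finset.card).sum / A + 1) := by
          intro β hβ
          rw [hused, Finset.mem_image] at hβ
          obtain ⟨k, hk, rfl⟩ := hβ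
          rw [Finset.mem_range, Nat.lt_succ_iff]
          exact Nat.div_le_div_right (pre_le SC w k (Finset.mem_range.1 hk).le)
        exact (Finset.card_le_card this).trans (by rw [Finset.card_range])
      have h4 : ∑ β ∈ used, (YB A SC Yc w β).card ≤
          ∑ k ∈ range (SC w).length, (Yc w k).card := by
        calc ∑ β ∈ used, (YB A SC Yc w β).card ≤
            ∑ β ∈ used, ∑ k ∈ (range (SC w).length).filter (fun k => pre SC w k / A = β),
              (Yc w k).card := Finset.sum_le_sum (fun β _ => Finset.card_biUnion_le)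
          _ = ∑ k ∈ range (SC w).length, (Yc w k).card := by
              apply Finset.sum_fiberwise_of_maps_to
              intro k hk
              exact Finset.mem_image.2 ⟨k, hk, rfl⟩
      have h5 : ∑ β ∈ used, (YB A SC Yc w β).card / B ≤
          (∑ k ∈ range (SC w).length, (Yc w k).card) / B := by
        refine le_trans ?_ (Nat.div_le_div_right h4)
        rw [Nat.le_div_iff_mul_le hB, Finset.sum_mul]
        exact Finset.sum_le_sum (fun β _ => Nat.div_mul_le_self _ _)
      omega

end Pool.Agent.Helper760.Cov.J1112
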