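import Mathlib
import Pool.Agent.Helper760.Cov.DefsC

set_option autoImplicit false

namespace Pool.Agent.Helper760.Cov.J1113

open Finset
open scoped Classical

section
variable {Z U V : Type*}

theorem dc_mem_seg {lo hi : ℕ} {q : Z × (U ⊕ V)} {w1 w2 : List (Z × (U ⊕ V))}
    (h1 : lo ≤ xc w2) (h2 : xc w2 < hi) : q ∈ seg lo hi (w1 ++ q :: w2) := by
  induction w1 with
  | nil => simp [seg, h1, h2]
  | cons a w1 ih =>
    simp only [List.cons_append, seg]
    split_ifs
    · exact List.mem_cons_of_mem _ ih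
    · exact ih

theorem dc_xc_append (u v : List (Z × (U ⊕ V))) : xc (u ++ v) = xc u + xc v := by
  simp [xc, List.countP_append]

theorem dc_xc_cons_inl (z : Z) (x : U) (v : List (Z × (U ⊕ V))) :
    xc ((z, Sum.inl x) :: v) = xc v + 1 := by
  rw [xc, List.countP_cons]; rfl

theorem dc_xc_cons_inr (z : Z) (y : V) (v : List (Z × (U ⊕ V))) :
    xc ((z, Sum.inr y) :: v) = xc v := by
  rw [xc, List.countP_cons]; rfl

theorem dc_XF {w : List (Z × (U ⊕ V))} {z : Z} {x : U} {y : V} (h : XF w z x y) :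
    ∃ w1 w2 w3 : List (Z × (U ⊕ V)), w = w1 ++ (z, Sum.inr y) :: (w2 ++ (z, Sum.inl x) :: w3) := by
  induction w with
  | nil => simp [XF] at h
  | cons q w ih =>
    rcases h with h | ⟨hq, hm⟩
    · obtain ⟨w1, w2, w3, hw⟩ := ih h
      exact ⟨q :: w1, w2, w3, by rw [hw]; rfl⟩
    · obtain ⟨w2, w3, hw⟩ := List.append_of_mem hm
      exact ⟨[], w2, w3, by rw [hq, hw]; rfl⟩

theorem dc_data {w : List (Z × (U ⊕ V))} {z : Z} {x : U} {y : V} (h : XF w z x y) :
    ∃ c s : ℕ, c < s ∧ s ≤ xc w ∧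
      (∀ lo hi, lo ≤ c → c < hi → (z, Sum.inl x) ∈ seg lo hi w) ∧
      (∀ lo hi, lo ≤ s → s < hi → (z, Sum.inr y) ∈ seg lo hi w) ∧
      ∃ w3, ((z, Sum.inl x) :: w3) <:+ w ∧ xc w3 = c := by
  obtain ⟨w1, w2, w3, hw⟩ := dc_XF h
  refine ⟨xc w3, xc (w2 ++ (z, Sum.inl x) :: w3), ?_, ?_, ?_, ?_, ?_⟩
  · rw [dc_xc_append, dc_xc_cons_inl]; omega
  · rw [hw, dc_xc_append w1, dc_xc_cons_inr]; omega
  · intro lo hi h1 h2
    have : w = (w1 ++ (z, Sum.inr y) :: w2) ++ (z, Sum.inl x) :: w3 := by rw [hw]; simp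
    rw [this]; exact dc_mem_seg h1 h2
  · intro lo hi h1 h2
    rw [hw]; exact dc_mem_seg h1 h2
  · refine ⟨w3, ⟨w1 ++ (z, Sum.inr y) :: w2, ?_⟩, rfl⟩
    rw [hw]; simp

theorem dc_inj {w : List (Z × (U ⊕ V))} {z z' : Z} {x : U} {v v' : List (Z × (U ⊕ V))}
    (h : ((z, Sum.inl x) :: v) <:+ w) (h' : ((z', Sum.inl x) :: v') <:+ w) (hc : xc v = xc v') :
    z = z' := by
  have key : ∀ (z z' : Z) (v v' : List (Z × (U ⊕ V))),
      ((z, Sum.inl x) :: v) <:+ ((z', Sum.inl x) :: v') → xc v = xc v' → z = z' := by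
    intro z z' v v' hs hc
    rcases List.suffix_cons_iff.1 hs with h | h
    · simp only [List.cons.injEq, Prod.mk.injEq, and_true] at h
      exact h.1
    · exfalso
      obtain ⟨t, ht⟩ := h
      have := congrArg xc ht
      rw [dc_xc_append, dc_xc_cons_inl] at this
      omega
  rcases List.suffix_or_suffix_of_suffix h h' with h1 | h1
  · exact key z z' v v' h1 hc
  · exact (key z' z v' v h1 hc.symm).symm

theorem dc_mem_win {Z U V : Type*} {w : List (Z × (U ⊕ V))} {q : Z × (U ⊕ V)} {c Δ P : ℕ}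
    (hΔ : 0 < Δ) (hq : ∀ lo hi, lo ≤ c → c < hi → q ∈ seg lo hi w) (hP : c / Δ = P) :
    q ∈ win Δ P w := by
  apply hq
  · rw [← hP]; exact Nat.div_mul_le_self c Δ
  · rw [← hP]; exact (Nat.div_lt_iff_lt_mul hΔ).1 (Nat.lt_succ_self _)

end

theorem decomp {Z U V : Type*} [Fintype Z] [Fintype U] [Fintype V] (g δ : ℕ) (hδ : 0 < δ)
    (w : List (Z × (U ⊕ V))) (hw : w.Nodup) (hx : xc w < δ * 2 ^ g) (x : U) (y : V) :
    (univ.filter (fun z => XF w z x y)).card ≤
      ∑ h ∈ range (g + 1), ∑ P ∈ range (xc w / (δ * 2 ^ h)),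
        (univ.filter (fun z => x ∈ Xs (win (δ * 2 ^ h) P w) z ∧
          y ∈ Ys (win (δ * 2 ^ h) P w) z)).card +
      ∑ h ∈ range g, (univ.filter (fun z =>
          x ∈ Xs (win (δ * 2 ^ h) (2 * (xc w / (2 * (δ * 2 ^ h)))) w) z ∧
          y ∈ Ys (win (δ * 2 ^ h) (2 * (xc w / (2 * (δ * 2 ^ h))) + 1) w) z)).card + δ := by
  set A : ℕ → ℕ → Finset Z := fun h P => univ.filter (fun z => x ∈ Xs (win (δ * 2 ^ h) P w) z ∧
          y ∈ Ys (win (δ * 2 ^ h) P w) z) with hA
  set B : ℕ → Finset Z := fun h => univ.filter (fun z =>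
          x ∈ Xs (win (δ * 2 ^ h) (2 * (xc w / (2 * (δ * 2 ^ h)))) w) z ∧
          y ∈ Ys (win (δ * 2 ^ h) (2 * (xc w / (2 * (δ * 2 ^ h))) + 1) w) z) with hB
  set C : Finset Z := univ.filter (fun z => ∃ v, ((z, Sum.inl x) :: v) <:+ w ∧
    xc v / δ = xc w / δ) with hC
  have hsub : univ.filter (fun z => XF w z x y) ⊆
      ((range (g + 1)).biUnion (fun h => (range (xc w / (δ * 2 ^ h))).biUnion (fun P => A h P)) ∪
        (range g).biUnion B) ∪ C := by
    intro z hz
    have hz' : XF w z x y := by simpa using hz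
    obtain ⟨c, s, hcs, hsw, hxm, hym, v, hv, hvc⟩ := dc_data hz'
    have hex : ∃ h, c / (δ * 2 ^ h) = s / (δ * 2 ^ h) := by
      refine ⟨g, ?_⟩
      rw [Nat.div_eq_of_lt (by omega), Nat.div_eq_of_lt (by omega)]
    set h := Nat.find hex with hh
    have hspec : c / (δ * 2 ^ h) = s / (δ * 2 ^ h) := Nat.find_spec hex
    have hle : h ≤ g := Nat.find_min' hex (by
      rw [Nat.div_eq_of_lt (by omega), Nat.div_eq_of_lt (by omega)])
    have hpos : ∀ k, 0 < δ * 2 ^ k := fun k => by positivity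
    have hPle : s / (δ * 2 ^ h) ≤ xc w / (δ * 2 ^ h) := Nat.div_le_div_right hsw
    rcases lt_or_eq_of_le hPle with hlt | heq
    · -- case 1
      apply mem_union_left
      apply mem_union_left
      rw [mem_biUnion]
      refine ⟨h, mem_range.2 (by omega), ?_⟩
      rw [mem_biUnion]
      refine ⟨s / (δ * 2 ^ h), mem_range.2 hlt, ?_⟩
      simp only [hA, mem_filter, mem_univ, true_and, Xs, Ys]
      exact ⟨dc_mem_win (hpos h) hxm hspec, dc_mem_win (hpos h) hym rfl⟩
    · rcases Nat.eq_zero_or_pos h with h0 | hp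
      · apply mem_union_right
        simp only [hC, mem_filter, mem_univ, true_and]
        refine ⟨v, hv, ?_⟩
        rw [h0] at hspec heq
        simp only [pow_zero, mul_one] at hspec heq
        rw [hvc, hspec, heq]
      · apply mem_union_left
        apply mem_union_right
        obtain ⟨k, hk⟩ : ∃ k, h = k + 1 := ⟨h - 1, by omega⟩
        have hne : c / (δ * 2 ^ k) ≠ s / (δ * 2 ^ k) := by
          have hmin : k < Nat.find hex := by omega
          exact Nat.find_min hex hmin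
        have hD : δ * 2 ^ h = δ * 2 ^ k * 2 := by rw [hk, pow_succ]; ring
        have hcle : c / (δ * 2 ^ k) ≤ s / (δ * 2 ^ k) := Nat.div_le_div_right (by omega)
        have hdd : ∀ n, n / (δ * 2 ^ k * 2) = n / (δ * 2 ^ k) / 2 :=
          fun n => (Nat.div_div_eq_div_mul n _ _).symm
        rw [hD, hdd, hdd] at hspec
        rw [hD, hdd] at heq
        have hP2 : xc w / (2 * (δ * 2 ^ k)) = s / (δ * 2 ^ k) / 2 := by
          rw [heq, mul_comm 2 (δ * 2 ^ k)]
        rw [mem_biUnion]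
        refine ⟨k, mem_range.2 (by omega), ?_⟩
        simp only [hB, mem_filter, mem_univ, true_and, Xs, Ys]
        refine ⟨dc_mem_win (hpos k) hxm ?_, dc_mem_win (hpos k) hym ?_⟩
        · rw [hP2]; omega
        · rw [hP2]; omega
  have hCcard : C.card ≤ δ := by
    have hcho : ∀ z ∈ C, ∃ v, ((z, Sum.inl x) :: v) <:+ w ∧ xc v / δ = xc w / δ := by
      intro z hz; simpa [hC] using hz
    let f : Z → ℕ := fun z => if hz : z ∈ C then xc (hcho z hz).choose else 0
    have h1 : C.card ≤ (Ico (xc w / δ * δ) ((xc w / δ + 1) * δ)).card := by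
      apply Finset.card_le_card_of_injOn f
      · intro z hz
        have hz' : z ∈ C := hz
        simp only [f, hz', dif_pos]
        have h2 := (hcho z hz').choose_spec.2
        rw [Finset.mem_coe, mem_Ico]
        refine ⟨?_, ?_⟩
        · calc xc w / δ * δ = _ := by rw [h2]
            _ ≤ _ := Nat.div_mul_le_self (xc (hcho z hz').choose) δ
        · exact (Nat.div_lt_iff_lt_mul hδ).1 (by omega)
      · intro z hz z' hz' hf
        have hz1 : z ∈ C := hz
        have hz2 : z' ∈ C := hz'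
        simp only [f, hz1, hz2, dif_pos] at hf
        exact dc_inj (hcho z hz1).choose_spec.1 (hcho z' hz2).choose_spec.1 hf
    have h2 : (Ico (xc w / δ * δ) ((xc w / δ + 1) * δ)).card = δ := by
      rw [Nat.card_Ico, Nat.add_mul]; omega
    omega
  calc (univ.filter (fun z => XF w z x y)).card
      ≤ _ := card_le_card hsub
    _ ≤ _ := card_union_le _ _
    _ ≤ _ := Nat.add_le_add (card_union_le _ _) le_rfl
    _ ≤ _ := by
      refine Nat.add_le_add (Nat.add_le_add ?_ ?_) hCcard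
      · refine card_biUnion_le.trans (Finset.sum_le_sum fun h _ => card_biUnion_le)
      · exact card_biUnion_le

end Pool.Agent.Helper760.Cov.J1113
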