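import Mathlib
import Pool.Agent.Helper760.Cov.DefsC

set_option autoImplicit false

namespace Pool.Agent.Helper760.Cov.J1115

open Finset
open scoped Classical

theorem dyadic {Z : Type*} (κ κ0 κ1 I : ℕ) (hκ0 : 0 < κ0) (hκ : κ0 + (I + 1) * κ1 ≤ κ)
    (l : List Z) (hl : l.Nodup) (hlen : l.length < κ0 * 2 ^ (I + 1)) (S : Finset Z)
    (h : κ ≤ (l.toFinset ∩ S).card) :
    ∃ i ≤ I, ∃ j, (j + 1) * (κ0 * 2 ^ i) ≤ l.length ∧ κ1 ≤ (blk (κ0 * 2 ^ i) j l ∩ S).card := by
  by_contra hcon
  push Not at hcon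
  set L := l.reverse with hL
  set f : ℕ → ℕ := fun m => ((L.take m).toFinset ∩ S).card with hf
  have hstep : ∀ m c, f (m + c) ≤ f m + (((L.drop m).take c).toFinset ∩ S).card := by
    intro m c
    simp only [hf]
    rw [List.take_add, List.toFinset_append, Finset.union_inter_distrib_right]
    exact Finset.card_union_le _ _
  have hstep2 : ∀ m c, f (m + c) ≤ f m + c := by
    intro m c
    refine (hstep m c).trans ?_
    have h1 : (((L.drop m).take c).toFinset ∩ S).card ≤ c :=
      (Finset.card_le_card Finset.inter_subset_left).trans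
        ((List.toFinset_card_le _).trans (List.length_take_le _ _))
    omega
  set r := l.length with hr
  set r' := r / κ0 with hr'
  have hfr : f r = (l.toFinset ∩ S).card := by
    simp only [hf]
    have : L.take r = L := by
      apply List.take_of_length_le
      rw [hL, List.length_reverse]
    rw [this, hL, List.toFinset_reverse]
  have hdm : κ0 * r' + r % κ0 = r := Nat.div_add_mod r κ0
  have hmod : r % κ0 < κ0 := Nat.mod_lt _ hκ0
  have h0 : (I + 1) * κ1 < f (κ0 * r') := by
    have h1 := hstep2 (κ0 * r') (r % κ0)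
    rw [hdm, hfr] at h1
    omega
  have hind : ∀ t, t ≤ I + 1 → f (κ0 * r') ≤ f (κ0 * ((r' / 2 ^ t) * 2 ^ t)) + t * κ1 := by
    intro t
    induction t with
    | zero => intro _; simp
    | succ t ih =>
      intro ht
      have ih' := ih (by omega)
      set a := r' / 2 ^ t with ha
      have ha2 : r' / 2 ^ (t + 1) = a / 2 := by
        rw [pow_succ, ← Nat.div_div_eq_div_mul]
      have hr1 : a * 2 ^ t ≤ r' := Nat.div_mul_le_self _ _
      rw [ha2]
      rcases Nat.mod_two_eq_zero_or_one a with hm | hm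
      · have h2 : (a / 2) * 2 ^ (t + 1) = a * 2 ^ t := by
          have : a = 2 * (a / 2) := by omega
          calc (a / 2) * 2 ^ (t + 1) = (2 * (a / 2)) * 2 ^ t := by ring
            _ = a * 2 ^ t := by rw [← this]
        rw [h2]
        have : t * κ1 ≤ (t + 1) * κ1 := Nat.mul_le_mul_right _ (by omega)
        omega
      · have h3 : a = 2 * (a / 2) + 1 := by omega
        have h4 : κ0 * (a * 2 ^ t) = κ0 * ((a / 2) * 2 ^ (t + 1)) + κ0 * 2 ^ t := by
          calc κ0 * (a * 2 ^ t) = κ0 * ((2 * (a / 2) + 1) * 2 ^ t) := by rw [← h3]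
            _ = _ := by ring
        have h5 : κ0 * ((a / 2) * 2 ^ (t + 1)) = (2 * (a / 2)) * (κ0 * 2 ^ t) := by ring
        have h6 : (2 * (a / 2) + 1) * (κ0 * 2 ^ t) ≤ r := by
          calc (2 * (a / 2) + 1) * (κ0 * 2 ^ t) = κ0 * (a * 2 ^ t) := by rw [← h3]; ring
            _ ≤ κ0 * r' := Nat.mul_le_mul_left _ hr1
            _ ≤ r := by omega
        have h7 := hcon t (by omega) (2 * (a / 2)) h6
        have h8 := hstep (κ0 * ((a / 2) * 2 ^ (t + 1))) (κ0 * 2 ^ t)
        rw [← h4, h5] at h8
        unfold blk at h7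
        rw [← hL] at h7
        rw [h5]
        have h9 : (t + 1) * κ1 = t * κ1 + κ1 := by ring
        rw [h9]
        omega
  have hfin := hind (I + 1) le_rfl
  have hz : r' / 2 ^ (I + 1) = 0 := by
    apply Nat.div_eq_of_lt
    apply Nat.div_lt_of_lt_mul
    exact hlen
  rw [hz] at hfin
  have hf0 : f 0 = 0 := by simp [hf]
  simp only [zero_mul, mul_zero, hf0, zero_add] at hfin
  omega

end Pool.Agent.Helper760.Cov.J1115
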