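import Mathlib
import Pool.Agent.Helper760.Cov.DefsC

set_option autoImplicit false

namespace Pool.Agent.Helper760.Cov.J1117

open Finset
open scoped Classical

theorem strat_or {Z U V : Type*} [Fintype U] [Fintype V] {A B a b N N' : ℕ}
    {dem dem' : List (Z × (U ⊕ V)) → U → V → Prop} (h : HasStrat Z U V A B a b N dem)
    (h' : HasStrat Z U V A B a b N' dem') :
    HasStrat Z U V A B a b (N + N') (fun w x y => dem w x y ∨ dem' w x y) := by
  obtain ⟨c1, m1, h1⟩ := h
  obtain ⟨c2, m2, h2⟩ := h'
  refine ⟨fun w => (c1 w).image (fun q => (2*q.1, q.2)) ∪ (c2 w).image (fun q => (2*q.1+1, q.2)), ?_, ?_⟩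
  · intro q w
    exact union_subset_union (image_subset_image (m1 q w)) (image_subset_image (m2 q w))
  · intro w hw
    obtain ⟨d1, s1, n1⟩ := h1 w hw
    obtain ⟨d2, s2, n2⟩ := h2 w hw
    refine ⟨?_, ?_, ?_⟩
    · rintro x y (hd | hd)
      · obtain ⟨i, hx, hy⟩ := d1 x y hd
        exact ⟨2 * i, mem_union_left _ (mem_image.mpr ⟨_, hx, rfl⟩), mem_union_left _ (mem_image.mpr ⟨_, hy, rfl⟩)⟩
      · obtain ⟨i, hx, hy⟩ := d2 x y hd
        exact ⟨2 * i + 1, mem_union_right _ (mem_image.mpr ⟨_, hx, rfl⟩), mem_union_right _ (mem_image.mpr ⟨_, hy, rfl⟩)⟩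
    · intro i
      rcases Nat.even_or_odd' i with ⟨k, rfl | rfl⟩
      · constructor
        · refine le_trans ?_ (s1 k).1
          refine le_trans (card_le_card (t := ((c1 w).filter (fun q => q.1 = k ∧ q.2.isLeft)).image (fun q => (2*q.1, q.2))) ?_) card_image_le
          intro p hp
          rw [mem_filter, mem_union, mem_image, mem_image] at hp
          obtain ⟨hp1, hp2, hp3⟩ := hp
          rcases hp1 with ⟨q, hq, rfl⟩ | ⟨q, hq, rfl⟩
          · rw [mem_image]
            refine ⟨q, ?_, rfl⟩
            rw [mem_filter]
            exact ⟨hq, by simpa using hp2, hp3⟩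
          · exfalso
            simp only at hp2
            omega
        · refine le_trans ?_ (s1 k).2
          refine le_trans (card_le_card (t := ((c1 w).filter (fun q => q.1 = k ∧ q.2.isRight)).image (fun q => (2*q.1, q.2))) ?_) card_image_le
          intro p hp
          rw [mem_filter, mem_union, mem_image, mem_image] at hp
          obtain ⟨hp1, hp2, hp3⟩ := hp
          rcases hp1 with ⟨q, hq, rfl⟩ | ⟨q, hq, rfl⟩
          · rw [mem_image]
            refine ⟨q, ?_, rfl⟩
            rw [mem_filter]
            exact ⟨hq, by simpa using hp2, hp3⟩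
          · exfalso
            simp only at hp2
            omega
      · constructor
        · refine le_trans ?_ (s2 k).1
          refine le_trans (card_le_card (t := ((c2 w).filter (fun q => q.1 = k ∧ q.2.isLeft)).image (fun q => (2*q.1+1, q.2))) ?_) card_image_le
          intro p hp
          rw [mem_filter, mem_union, mem_image, mem_image] at hp
          obtain ⟨hp1, hp2, hp3⟩ := hp
          rcases hp1 with ⟨q, hq, rfl⟩ | ⟨q, hq, rfl⟩
          · exfalso
            simp only at hp2
            omega
          · rw [mem_image]
            refine ⟨q, ?_, rfl⟩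
            rw [mem_filter]
            exact ⟨hq, by simpa using hp2, hp3⟩
        · refine le_trans ?_ (s2 k).2
          refine le_trans (card_le_card (t := ((c2 w).filter (fun q => q.1 = k ∧ q.2.isRight)).image (fun q => (2*q.1+1, q.2))) ?_) card_image_le
          intro p hp
          rw [mem_filter, mem_union, mem_image, mem_image] at hp
          obtain ⟨hp1, hp2, hp3⟩ := hp
          rcases hp1 with ⟨q, hq, rfl⟩ | ⟨q, hq, rfl⟩
          · exfalso
            simp only at hp2
            omega
          · rw [mem_image]
            refine ⟨q, ?_, rfl⟩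
            rw [mem_filter]
            exact ⟨hq, by simpa using hp2, hp3⟩
    · refine le_trans (card_le_card (t := (ids (c1 w)).image (fun i => 2 * i) ∪ (ids (c2 w)).image (fun i => 2 * i + 1)) ?_) ?_
      · intro i hi
        unfold ids at hi
        rw [mem_image] at hi
        obtain ⟨p, hp, rfl⟩ := hi
        rw [mem_union, mem_image, mem_image] at hp
        rcases hp with ⟨q, hq, rfl⟩ | ⟨q, hq, rfl⟩
        · exact mem_union_left _ (mem_image.mpr ⟨q.1, mem_image_of_mem _ hq, rfl⟩)
        · exact mem_union_right _ (mem_image.mpr ⟨q.1, mem_image_of_mem _ hq, rfl⟩)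
      · refine le_trans (card_union_le _ _) ?_
        exact Nat.add_le_add (le_trans card_image_le n1) (le_trans card_image_le n2)

theorem strat_swap {Z U V : Type*} [Fintype U] [Fintype V] {A B a b N : ℕ}
    {dem : List (Z × (V ⊕ U)) → V → U → Prop} (h : HasStrat Z V U B A b a N dem) :
    HasStrat Z U V A B a b N
      (fun w x y => dem (w.map (fun q => (q.1, q.2.swap))) y x) := by
  obtain ⟨c, m, h⟩ := h
  refine ⟨fun w => (c (w.map (fun q => (q.1, q.2.swap)))).image (fun q => (q.1, q.2.swap)), ?_, ?_⟩
  · intro q w
    apply image_subset_image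
    rw [List.map_cons]
    exact m _ _
  · intro w hw
    have hmem : ∀ (z : Z) (p : U ⊕ V), (z, p.swap) ∈ w.map (fun q => (q.1, q.2.swap)) ↔ (z, p) ∈ w := by
      intro z p
      rw [List.mem_map]
      constructor
      · rintro ⟨q, hq, he⟩
        have h1 : q.1 = z := congrArg Prod.fst he
        have h2 : q.2.swap = p.swap := congrArg Prod.snd he
        have h3 : q.2 = p := by
          have := congrArg Sum.swap h2
          simpa using this
        rw [← h1, ← h3]
        exact hq
      · intro hq
        exact ⟨_, hq, rfl⟩
    have hL : Legal B A (w.map (fun q => (q.1, q.2.swap))) := by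
      refine ⟨?_, ?_⟩
      · apply hw.1.map
        intro p q hpq
        simp only [Prod.mk.injEq] at hpq
        obtain ⟨h1, h2⟩ := hpq
        have h3 : p.2 = q.2 := by
          have := congrArg Sum.swap h2
          simpa using this
        exact Prod.ext h1 h3
      · intro z
        have e1 : Xs (w.map (fun q => (q.1, q.2.swap))) z = Ys w z := by
          ext y
          simp only [Xs, Ys, mem_filter, mem_univ, true_and]
          exact hmem z (Sum.inr y)
        have e2 : Ys (w.map (fun q => (q.1, q.2.swap))) z = Xs w z := by
          ext y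
          simp only [Xs, Ys, mem_filter, mem_univ, true_and]
          exact hmem z (Sum.inl y)
        rw [e1, e2]
        exact ⟨(hw.2 z).2, (hw.2 z).1⟩
    obtain ⟨d, s, n⟩ := h _ hL
    refine ⟨?_, ?_, ?_⟩
    · intro x y hd
      obtain ⟨i, hy, hx⟩ := d y x hd
      exact ⟨i, mem_image.mpr ⟨_, hx, rfl⟩, mem_image.mpr ⟨_, hy, rfl⟩⟩
    · intro i
      constructor
      · refine le_trans ?_ (s i).2
        refine le_trans (card_le_card (t := ((c (w.map (fun q => (q.1, q.2.swap)))).filter (fun q => q.1 = i ∧ q.2.isRight)).image (fun q => (q.1, q.2.swap))) ?_) card_image_le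
        intro p hp
        rw [mem_filter, mem_image] at hp
        obtain ⟨⟨q, hq, rfl⟩, hp2, hp3⟩ := hp
        rw [mem_image]
        refine ⟨q, ?_, rfl⟩
        rw [mem_filter]
        refine ⟨hq, hp2, ?_⟩
        simpa using hp3
      · refine le_trans ?_ (s i).1
        refine le_trans (card_le_card (t := ((c (w.map (fun q => (q.1, q.2.swap)))).filter (fun q => q.1 = i ∧ q.2.isLeft)).image (fun q => (q.1, q.2.swap))) ?_) card_image_le
        intro p hp
        rw [mem_filter, mem_image] at hp
        obtain ⟨⟨q, hq, rfl⟩, hp2, hp3⟩ := hp
        rw [mem_image]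
        refine ⟨q, ?_, rfl⟩
        rw [mem_filter]
        refine ⟨hq, hp2, ?_⟩
        simpa using hp3
    · refine le_trans (card_le_card ?_) n
      intro i hi
      unfold ids at hi ⊢
      rw [mem_image] at hi
      obtain ⟨p, hp, rfl⟩ := hi
      rw [mem_image] at hp
      obtain ⟨q, hq, rfl⟩ := hp
      exact mem_image_of_mem Prod.fst hq

theorem xf_or {Z U V : Type*} (w : List (Z × (U ⊕ V))) (hw : w.Nodup) (z : Z) (x : U) (y : V)
    (h1 : (z, Sum.inl x) ∈ w) (h2 : (z, Sum.inr y) ∈ w) :
    XF w z x y ∨ XF (w.map (fun q => (q.1, q.2.swap))) z y x := by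
  induction w with
  | nil => simp at h1
  | cons q w ih =>
    rw [List.nodup_cons] at hw
    rw [List.mem_cons] at h1 h2
    rcases h1 with h1 | h1 <;> rcases h2 with h2 | h2
    · exfalso
      rw [← h1] at h2
      have := congrArg Prod.snd h2
      simp at this
    · right
      right
      refine ⟨?_, ?_⟩
      · rw [← h1]
        rfl
      · exact List.mem_map.mpr ⟨_, h2, rfl⟩
    · left
      right
      exact ⟨h2.symm, h1⟩
    · rcases ih hw.2 h1 h2 with h | h
      · exact Or.inl (Or.inl h)
      · exact Or.inr (Or.inl h)

theorem xc_eq {Z U V : Type*} [Fintype Z] [Fintype U] [Fintype V] (w : List (Z × (U ⊕ V)))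
    (hw : w.Nodup) : xc w = ∑ z, (Xs w z).card := by
  induction w with
  | nil => simp [xc, Xs]
  | cons q w ih =>
    rw [List.nodup_cons] at hw
    have ih' := ih hw.2
    obtain ⟨z0, p⟩ := q
    rcases p with x | y
    · have e1 : xc ((z0, Sum.inl x) :: w) = xc w + 1 := by
        unfold xc
        rw [List.countP_cons]
        simp
      have e2 : ∀ z, (Xs ((z0, (Sum.inl x : U ⊕ V)) :: w) z).card = (Xs w z).card + if z = z0 then 1 else 0 := by
        intro z
        split_ifs with hz
        · subst hz
          have : Xs ((z, (Sum.inl x : U ⊕ V)) :: w) z = insert x (Xs w z) := by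
            ext u
            simp only [Xs, mem_filter, mem_univ, true_and, mem_insert, List.mem_cons]
            constructor
            · rintro (h | h)
              · left
                have := congrArg Prod.snd h
                exact Sum.inl.inj this
              · exact Or.inr h
            · rintro (h | h)
              · left
                rw [h]
              · exact Or.inr h
          rw [this, card_insert_of_notMem]
          simp only [Xs, mem_filter, mem_univ, true_and]
          exact hw.1
        · have : Xs ((z0, (Sum.inl x : U ⊕ V)) :: w) z = Xs w z := by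
            ext u
            simp only [Xs, mem_filter, mem_univ, true_and, List.mem_cons]
            constructor
            · rintro (h | h)
              · exact absurd (congrArg Prod.fst h) hz
              · exact h
            · exact Or.inr
          rw [this]
          rfl
      rw [e1, ih']
      simp_rw [e2]
      rw [sum_add_distrib]
      simp
    · have e1 : xc ((z0, Sum.inr y) :: w) = xc w := by
        unfold xc
        rw [List.countP_cons]
        simp
      have e2 : ∀ z, Xs ((z0, (Sum.inr y : U ⊕ V)) :: w) z = Xs w z := by
        intro z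
        ext u
        simp only [Xs, mem_filter, mem_univ, true_and, List.mem_cons]
        constructor
        · rintro (h | h)
          · have := congrArg Prod.snd h
            simp at this
          · exact h
        · exact Or.inr
      rw [e1, ih']
      simp_rw [e2]

end Pool.Agent.Helper760.Cov.J1117
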