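import Mathlib
import Pool.Agent.Helper760.Cov.J1108
import Pool.Agent.Helper760.Cov.J1109
import Pool.Agent.Helper760.Cov.J1110
import Pool.Agent.Helper760.Cov.J1111
import Pool.Agent.Helper760.Cov.J1112
import Pool.Agent.Helper760.Cov.J1113
import Pool.Agent.Helper760.Cov.J1115
import Pool.Agent.Helper760.Cov.J1117

set_option autoImplicit false

namespace Pool.Agent.Helper760.Cov

open Finset
open scoped Classical

alias exists_noBad := J1108.exists_noBad
alias cov_of_noBad := J1109.cov_of_noBad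
alias greedy := J1110.greedy
alias sampler := J1111.sampler
alias package := J1112.package
alias decomp := J1113.decomp
alias dyadic := J1115.dyadic
alias strat_or := J1117.strat_or
alias strat_swap := J1117.strat_swap
alias xf_or := J1117.xf_or
alias xc_eq := J1117.xc_eq

theorem cover_lemma {Z U : Type*} [Fintype Z] [Nonempty Z] [Fintype U] (n s J κ N : ℕ)
    (X : Z → Finset U) (hU : Fintype.card U ≤ 2 ^ n) (hs : 1 ≤ s) (hJ1 : 1 ≤ J) (hκ : 1 ≤ κ)
    (hJ : 2 * Fintype.card Z ≤ κ * 2 ^ J)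
    (hN : 4 * J * Fintype.card Z * (8 * s ^ 2 * n + 4 * J) ≤ N * κ) (hNs : 2 * N < 4 ^ s) :
    ∃ ζ : Fin N → Z, (∀ D : Finset Z, ∃ C : Finset (Fin N),
      C.card * κ ≤ (64 * s * n + 1) * D.card ∧
        ∀ x, κ ≤ (D.filter (fun z => x ∈ X z)).card → ∃ i ∈ C, x ∈ X (ζ i)) ∧
      Fintype.card Z * ∑ i, (X (ζ i)).card ≤ 2 * N * ∑ z, (X z).card := by
  obtain ⟨ζ, h1, h2⟩ := exists_noBad n s J κ N X hU hJ1 hκ hN
  refine ⟨ζ, fun D => ?_, h2⟩
  exact greedy n s κ N X ζ hU hκ D (fun T hT hTD =>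
    cov_of_noBad s J κ N X ζ hs hκ hJ hNs h1 T hT D hTD)

theorem strat_mono {Z U V : Type*} [Fintype U] [Fintype V] {A B a b N a' b' N' : ℕ}
    {dem dem' : List (Z × (U ⊕ V)) → U → V → Prop} (h : HasStrat Z U V A B a b N dem)
    (ha : a ≤ a') (hb : b ≤ b') (hN : N ≤ N')
    (hd : ∀ w x y, Legal A B w → dem' w x y → dem w x y) :
    HasStrat Z U V A B a' b' N' dem' := by
  obtain ⟨cl, h1, h2⟩ := h
  refine ⟨cl, h1, fun w hw => ⟨fun x y hxy => (h2 w hw).1 x y (hd w x y hw hxy), fun i => ?_, ?_⟩⟩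
  · exact ⟨((h2 w hw).2.1 i).1.trans ha, ((h2 w hw).2.1 i).2.trans hb⟩
  · exact (h2 w hw).2.2.trans hN

end Pool.Agent.Helper760.Cov
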