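import Mathlib
import Pool.Agent.Helper760.Kolm
import Pool.Agent.Helper760.Cov.Defs

set_option autoImplicit false

namespace Pool.Agent.Helper760.Cov

open Finset
open Pool.Agent.Helper760.Kolm (allLen)

/-! Plays coded by numbers: a move is a pair (point, element); the element `2 x` is the element
`x` of the X-side and `2 y + 1` is the element `y` of the Y-side. Latest move first. -/

/-- the history of the point `i` -/
def pt (w : List (ℕ × ℕ)) (i : ℕ) : List ℕ := (w.filter (fun q => q.1 = i)).map Prod.snd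

def LegalN (E m A B : ℕ) (w : List (ℕ × ℕ)) : Prop :=
  (∀ q ∈ w, q.1 < m ∧ q.2 < E) ∧ w.Nodup ∧
    ∀ i < m, ((pt w i).filter (fun e => e % 2 = 0)).length ≤ A ∧
      ((pt w i).filter (fun e => e % 2 = 1)).length ≤ B

/-- frequent pairs are covered -/
def CovN (E κ m : ℕ) (w b : List (ℕ × ℕ)) : Prop :=
  ∀ x < E, ∀ y < E,
    κ ≤ ((List.range m).filter (fun i => (i, 2 * x) ∈ w ∧ (i, 2 * y + 1) ∈ w)).length →
      ∃ q ∈ b, (q.1, 2 * x) ∈ b ∧ (q.1, 2 * y + 1) ∈ b

/-- add the elements of the second list to the first if they are new -/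
def addNew (h L : List ℕ) : List ℕ := L.foldl (fun h e => if e ∈ h then h else e :: h) h

def SizeN (a' b' N : ℕ) (b : List (ℕ × ℕ)) : Prop :=
  (∀ q ∈ b, (b.filter (fun r => r.1 = q.1 ∧ r.2 % 2 = 0)).length ≤ a' ∧
    (b.filter (fun r => r.1 = q.1 ∧ r.2 % 2 = 1)).length ≤ b') ∧
  (addNew [] (b.map Prod.fst)).length ≤ N

/-- `s` is a table of a winning strategy -/
def Chk (E m A B κ a' b' N : ℕ) (s : List (List (ℕ × ℕ) × List (ℕ × ℕ))) : Prop :=
  (∃ p ∈ s, p.1 = []) ∧
  (∀ p ∈ s, LegalN E m A B p.1 ∧ CovN E κ m p.1 p.2 ∧ SizeN a' b' N p.2) ∧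
  ∀ p ∈ s, ∀ i < m, ∀ e < E, LegalN E m A B ((i, e) :: p.1) →
    ∃ p' ∈ s, p'.1 = (i, e) :: p.1 ∧ p.2 ⊆ p'.2

/-- suffix test -/
def suf (h g : List ℕ) : Bool := g.drop (g.length - h.length) = h

/-- rounded number of histories extending `h` -/
def cnt (m : ℕ) (L : List (List ℕ)) (h : List ℕ) : ℕ :=
  m * (L.filter (fun g => suf h g)).length / L.length

def Target (m : ℕ) (L : List (List ℕ)) (w : List (ℕ × ℕ)) : Prop :=
  (∀ i < m, ∃ g ∈ L, suf (pt w i) g) ∧ ∀ g ∈ L, ∀ j < g.length + 1,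
    ((List.range m).filter (fun i => suf (g.drop j) (pt w i))).length = cnt m L (g.drop j)

instance (m : ℕ) (L : List (List ℕ)) (w : List (ℕ × ℕ)) : Decidable (Target m L w) := by
  unfold Target; infer_instance

/-- history of the point `σ` -/
def hist (f : List Bool → List ℕ) (σ : List Bool) : List ℕ :=
  (List.range (σ.length + 1)).foldl (fun h i => addNew h (f (σ.take i))) []

/-- histories at stage `t` -/
def stage (f : List Bool → List ℕ) (t : ℕ) : List (List ℕ) := (allLen t).map (hist f)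

def step (s : List (List (ℕ × ℕ) × List (ℕ × ℕ))) (m : ℕ) (L : List (List ℕ))
    (st : List (ℕ × ℕ) × List (ℕ × ℕ)) : List (ℕ × ℕ) × List (ℕ × ℕ) :=
  (s.find? (fun p => decide (p.1.drop (p.1.length - st.1.length) = st.1 ∧ (∀ q ∈ st.2, q ∈ p.2) ∧
    Target m L p.1))).getD st

def run (s : List (List (ℕ × ℕ) × List (ℕ × ℕ))) (m : ℕ) (f : List Bool → List ℕ) (t : ℕ) :
    List (ℕ × ℕ) × List (ℕ × ℕ) :=
  (List.range (t + 1)).foldl (fun st i => step s m (stage f i) st) ([], [])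

end Pool.Agent.Helper760.Cov
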