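import Mathlib

set_option autoImplicit false

namespace Pool.Agent.Helper760.Cov

/-- number of heights -/
def hg (n : ℕ) : ℕ := 3 * n + 6

/-- samples for the snapshots -/
def nA (n γ : ℕ) : ℕ := (2 * n + 1) * (4 * (hg n + 1)) * 2 ^ γ

/-- samples for the copies -/
def nB (n γ : ℕ) : ℕ :=
  8 * hg n * 2 ^ γ * (8 * (hg n + 1) ^ 2) * (8 * (2 * hg n) ^ 2 * n + 8 * hg n)

/-- clusters for one side -/
def nX (n γ : ℕ) : ℕ := (hg n + 1) * (4 * nA n γ + 1) +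
  hg n * (2 * nB n γ + 1 + (64 * (2 * hg n) * n + 1) * (hg n + 1) * (2 ^ γ * (8 * (hg n + 1) ^ 2)))

/-- number of clusters in the game -/
def nG (n γ : ℕ) : ℕ := 2 * nX n γ

/-- rounding error -/
def rl (n : ℕ) : ℕ := (2 * 2 ^ n + 1) ^ (2 * 2 ^ n + 1)

/-- the threshold -/
def kk (n : ℕ) : ℕ := 8 * (hg n + 1) ^ 2 * rl n

/-- number of points -/
def mm (n γ : ℕ) : ℕ := 2 ^ γ * kk n


end Pool.Agent.Helper760.Cov
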