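import Mathlib
import Pool.Agent.Helper760.Cov.DefsD

set_option autoImplicit false

namespace Pool.Agent.Helper760.Cov.J1208

open Finset
open Pool.Agent.Helper760.Kolm (allLen mem_allLen length_allLen nodup_allLen primrec_allLen)

theorem suf_iff (h g : List ℕ) : suf h g = true ↔ h <:+ g := by
  unfold suf
  rw [decide_eq_true_iff, List.suffix_iff_eq_drop]
  exact eq_comm

theorem sum_div_le (T : ℕ) (E : ℕ) (N : ℕ → ℕ) :
    ∑ e ∈ range E, N e / T ≤ (∑ e ∈ range E, N e) / T := by
  induction E with
  | zero => simp
  | succ E ih =>
    rw [Finset.sum_range_succ, Finset.sum_range_succ]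
    exact (Nat.add_le_add_right ih _).trans Nat.div_add_div_le_add_div

theorem suf_unique {h g : List ℕ} {e e' : ℕ} (h1 : suf (e :: h) g = true)
    (h2 : suf (e' :: h) g = true) : e = e' := by
  rw [suf_iff, List.suffix_iff_eq_drop] at h1 h2
  rw [List.length_cons] at h1 h2
  rw [← h2] at h1
  exact (List.cons.inj h1).1

theorem suf_cons {h g : List ℕ} {e : ℕ} (h1 : suf (e :: h) g = true) : suf h g = true := by
  rw [suf_iff] at h1 ⊢
  exact (List.suffix_cons e h).trans h1

theorem count_sup (E : ℕ) (L : List (List ℕ)) (h : List ℕ) :
    ∑ e ∈ range E, (L.filter (fun g => suf (e :: h) g)).length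
      ≤ (L.filter (fun g => suf h g)).length := by
  induction L with
  | nil => simp
  | cons g L ih =>
    have key : ∑ e ∈ range E, (if suf (e :: h) g = true then 1 else 0)
        ≤ (if suf h g = true then 1 else 0) := by
      by_cases hex : ∃ e ∈ range E, suf (e :: h) g = true
      · obtain ⟨e, he, hs⟩ := hex
        rw [if_pos (suf_cons hs), Finset.sum_eq_single e]
        · rw [if_pos hs]
        · intro e' _ hne
          rw [if_neg]
          intro hs'
          exact hne (suf_unique hs' hs)
        · intro hne
          exact absurd he hne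
      · rw [Finset.sum_eq_zero]
        · exact Nat.zero_le _
        · intro e he
          rw [if_neg]
          intro hs
          exact hex ⟨e, he, hs⟩
    have h1 : ∀ p : List ℕ → Bool, ((g :: L).filter p).length
        = (if p g = true then 1 else 0) + (L.filter p).length := by
      intro p
      rw [List.filter_cons]
      by_cases hp : p g = true
      · rw [if_pos hp, if_pos hp, List.length_cons]
        omega
      · rw [if_neg hp, if_neg hp]
        omega
    rw [h1]
    calc ∑ e ∈ range E, ((g :: L).filter (fun g => suf (e :: h) g)).length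
        = ∑ e ∈ range E, ((if suf (e :: h) g = true then 1 else 0)
            + (L.filter (fun g => suf (e :: h) g)).length) :=
          Finset.sum_congr rfl fun e _ => h1 _
      _ = ∑ e ∈ range E, (if suf (e :: h) g = true then 1 else 0)
            + ∑ e ∈ range E, (L.filter (fun g => suf (e :: h) g)).length :=
          Finset.sum_add_distrib
      _ ≤ _ := Nat.add_le_add key ih

theorem cnt_sup (m E : ℕ) (L : List (List ℕ)) (h : List ℕ) :
    ∑ e ∈ range E, cnt m L (e :: h) ≤ cnt m L h := by
  unfold cnt
  refine (sum_div_le L.length E _).trans ?_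
  apply Nat.div_le_div_right
  rw [← Finset.mul_sum]
  exact Nat.mul_le_mul_left m (count_sup E L h)

theorem target_iff (m : ℕ) (L : List (List ℕ)) (hL : L ≠ []) (w : List (ℕ × ℕ)) :
    Target m L w ↔ ∀ h, ((List.range m).filter (fun i => suf h (pt w i))).length = cnt m L h := by
  constructor
  · rintro ⟨h1, h2⟩ h
    by_cases hex : ∃ g ∈ L, suf h g = true
    · obtain ⟨g, hg, hs⟩ := hex
      have h3 : h = g.drop (g.length - h.length) := by
        rw [suf_iff, List.suffix_iff_eq_drop] at hs
        exact hs
      have h4 := h2 g hg (g.length - h.length) (by omega)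
      rw [← h3] at h4
      exact h4
    · have h3 : L.filter (fun g => suf h g) = [] := by
        rw [List.filter_eq_nil_iff]
        intro g hg hs
        exact hex ⟨g, hg, hs⟩
      have h4 : (List.range m).filter (fun i => suf h (pt w i)) = [] := by
        rw [List.filter_eq_nil_iff]
        intro i hi hs
        obtain ⟨g, hg, hg'⟩ := h1 i (List.mem_range.1 hi)
        refine hex ⟨g, hg, ?_⟩
        rw [suf_iff] at hs hg' ⊢
        exact hs.trans hg'
      rw [cnt, h3, h4]
      simp
  · intro h
    refine ⟨fun i hi => ?_, fun g _ j _ => h _⟩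
    have h1 := h (pt w i)
    by_contra hcon
    have h3 : L.filter (fun g => suf (pt w i) g) = [] := by
      rw [List.filter_eq_nil_iff]
      intro g hg hs
      exact hcon ⟨g, hg, hs⟩
    rw [cnt, h3] at h1
    simp only [List.length_nil, Nat.mul_zero, Nat.zero_div] at h1
    rw [List.length_eq_zero_iff, List.filter_eq_nil_iff] at h1
    refine h1 i (List.mem_range.2 hi) ?_
    rw [suf_iff]

end Pool.Agent.Helper760.Cov.J1208
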