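import Mathlib
import Pool.Agent.Helper760.Cov.J1208

set_option autoImplicit false

namespace Pool.Agent.Helper760.Cov

alias suf_iff := J1208.suf_iff
alias cnt_sup := J1208.cnt_sup
alias target_iff := J1208.target_iff

end Pool.Agent.Helper760.Cov
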