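import Mathlib
import Pool.Agent.Helper760.Cov.Base2a

set_option autoImplicit false

namespace Pool.Agent.Helper760.Cov.J1206

open Finset
open Pool.Agent.Helper760.Kolm (allLen mem_allLen length_allLen nodup_allLen primrec_allLen)

open Classical in
/-- number of points whose history extends `h` -/
noncomputable def nn (m : ℕ) (w : List (ℕ × ℕ)) (h : List ℕ) : ℕ :=
  ((range m).filter (fun i => h <:+ pt w i)).card

theorem len_filter_range (m : ℕ) (b : ℕ → Bool) :
    ((List.range m).filter b).length = ((range m).filter (fun i => b i = true)).card := by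
  induction m with
  | zero => simp
  | succ m ih =>
    rw [List.range_succ, List.filter_append, List.length_append, ih, range_add_one, filter_insert]
    by_cases hb : b m = true
    · rw [if_pos hb, card_insert_of_notMem (by simp)]
      simp [List.filter_cons, hb]
    · rw [if_neg hb]
      simp [List.filter_cons, hb]

theorem nn_eq (m : ℕ) (w : List (ℕ × ℕ)) (h : List ℕ) :
    ((List.range m).filter (fun i => suf h (pt w i))).length = nn m w h := by
  rw [len_filter_range]
  unfold nn
  congr 1
  ext i
  simp only [mem_filter, suf_iff]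

theorem pt_cons_self (w : List (ℕ × ℕ)) (i e : ℕ) : pt ((i, e) :: w) i = e :: pt w i := by
  simp [pt]

theorem pt_cons_ne (w : List (ℕ × ℕ)) {i j : ℕ} (e : ℕ) (hij : i ≠ j) :
    pt ((i, e) :: w) j = pt w j := by
  simp [pt, hij]

theorem sum_pt (m : ℕ) (w : List (ℕ × ℕ)) (hw : ∀ q ∈ w, q.1 < m) :
    ∑ i ∈ range m, (pt w i).length = w.length := by
  induction w with
  | nil => simp [pt]
  | cons q w ih =>
    have hq : q.1 < m := hw q (by simp)
    have e : ∀ i ∈ range m, (pt (q :: w) i).length = (if i = q.1 then 1 else 0) + (pt w i).length := by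
      intro i _
      obtain ⟨a, b⟩ := q
      by_cases hi : a = i
      · subst hi
        rw [pt_cons_self]
        simp [add_comm]
      · rw [pt_cons_ne w b hi, if_neg (fun h => hi h.symm), zero_add]
    rw [sum_congr rfl e, sum_add_distrib, ih (fun q hq => hw q (by simp [hq])), sum_ite_eq',
      if_pos (mem_range.2 hq), List.length_cons, add_comm]

theorem pos_of_suf {m : ℕ} {w : List (ℕ × ℕ)} {h : List ℕ} {i : ℕ} (hi : i < m)
    (hs : h <:+ pt w i) : 0 < nn m w h := by
  classical
  unfold nn
  exact card_pos.2 ⟨i, by simp [hi, hs]⟩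

theorem len_le {m E : ℕ} {c : List ℕ → ℕ} (hsup : ∀ h, ∑ e ∈ range E, c (e :: h) ≤ c h)
    (hE : ∀ h e, E ≤ e → c (e :: h) = 0)
    (hnd : ∀ h, 0 < c h → h.Nodup) {w : List (ℕ × ℕ)} (hw : ∀ q ∈ w, q.1 < m)
    (hwc : ∀ h, nn m w h ≤ c h) : w.length ≤ m * E := by
  have hlt : ∀ h : List ℕ, 0 < c h → ∀ x ∈ h, x < E := by
    intro h
    induction h with
    | nil => simp
    | cons e h ih =>
      intro hc x hx
      have he : e < E := by
        by_contra hcon
        rw [hE h e (not_lt.1 hcon)] at hc
        exact lt_irrefl _ hc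
      rcases List.mem_cons.1 hx with rfl | hx
      · exact he
      · apply ih _ x hx
        refine lt_of_lt_of_le hc (le_trans ?_ (hsup h))
        exact single_le_sum (f := fun e => c (e :: h)) (fun _ _ => Nat.zero_le _) (mem_range.2 he)
  rw [← sum_pt m w hw]
  have : ∀ i ∈ range m, (pt w i).length ≤ E := by
    intro i hi
    have hpos : 0 < c (pt w i) :=
      lt_of_lt_of_le (pos_of_suf (mem_range.1 hi) List.suffix_rfl) (hwc _)
    have h1 := hnd _ hpos
    have h2 := hlt _ hpos
    have h3 : (pt w i).toFinset ⊆ range E := by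
      intro x hx
      exact mem_range.2 (h2 x (List.mem_toFinset.1 hx))
    have := card_le_card h3
    rwa [List.toFinset_card_of_nodup h1, card_range] at this
  calc ∑ i ∈ range m, (pt w i).length ≤ ∑ _i ∈ range m, E := sum_le_sum this
    _ = m * E := by simp


theorem step_exists (m E : ℕ) (c : List ℕ → ℕ) (hc0 : c [] = m)
    (hsup : ∀ h, ∑ e ∈ range E, c (e :: h) ≤ c h) (hE : ∀ h e, E ≤ e → c (e :: h) = 0)
    (w : List (ℕ × ℕ)) (hw : ∀ q ∈ w, q.1 < m) (hwc : ∀ h, nn m w h ≤ c h)
    (hall : ∃ h, nn m w h ≠ c h) :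
    ∃ p : ℕ × ℕ, (∀ q ∈ p :: w, q.1 < m) ∧ (∀ h, nn m (p :: w) h ≤ c h) := by
  classical
  obtain ⟨h0, hh0⟩ := hall
  have hex : ∃ n : ℕ, ∃ h : List ℕ, h.length = n ∧ nn m w h < c h :=
    ⟨h0.length, h0, rfl, lt_of_le_of_ne (hwc h0) hh0⟩
  obtain ⟨h, hlen, hlt⟩ := Nat.find_spec hex
  have hmin : ∀ h' : List ℕ, h'.length < h.length → nn m w h' = c h' := by
    intro h' hl'
    by_contra hne
    exact Nat.find_min hex (hlen ▸ hl') ⟨h', rfl, lt_of_le_of_ne (hwc h') hne⟩
  cases h with
  | nil =>
    exfalso
    have : nn m w [] = m := by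
      unfold nn
      simp
    rw [this, hc0] at hlt
    exact lt_irrefl _ hlt
  | cons e g =>
    have hg : nn m w g = c g := hmin g (by simp)
    have he : e < E := by
      by_contra hcon
      rw [hE g e (not_lt.1 hcon)] at hlt
      exact absurd hlt (Nat.not_lt_zero _)
    obtain ⟨i, him, hig⟩ : ∃ i < m, pt w i = g := by
      by_contra hcon
      push Not at hcon
      have hsub : ((range m).filter (fun i => g <:+ pt w i)) ⊆
          (range E).biUnion (fun e' => (range m).filter (fun i => (e' :: g) <:+ pt w i)) := by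
        intro i hi
        rw [mem_filter, mem_range] at hi
        obtain ⟨him, t, ht⟩ := hi
        have htne : t ≠ [] := by
          rintro rfl
          exact hcon i him (by simpa using ht.symm)
        have ht2 : t.dropLast ++ [t.getLast htne] = t := List.dropLast_append_getLast htne
        have hs : (t.getLast htne :: g) <:+ pt w i := by
          refine ⟨t.dropLast, ?_⟩
          rw [← ht]
          conv_rhs => rw [← ht2]
          simp
        have hlt' : t.getLast htne < E := by
          by_contra hge
          have h1 := hwc (t.getLast htne :: g)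
          rw [hE g _ (not_lt.1 hge)] at h1
          have h2 := pos_of_suf him hs
          omega
        rw [mem_biUnion]
        exact ⟨_, mem_range.2 hlt', by simp [him, hs]⟩
      have h1 : nn m w g ≤ ∑ e' ∈ range E, nn m w (e' :: g) :=
        (card_le_card hsub).trans card_biUnion_le
      have h2 : ∑ e' ∈ range E, nn m w (e' :: g) < ∑ e' ∈ range E, c (e' :: g) :=
        sum_lt_sum (fun e' _ => hwc _) ⟨e, mem_range.2 he, hlt⟩
      have h3 := hsup g
      omega
    refine ⟨(i, e), ?_, ?_⟩
    · intro q hq
      rcases List.mem_cons.1 hq with rfl | hq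
      · exact him
      · exact hw q hq
    · intro h'
      by_cases hh' : h' = e :: g
      · subst hh'
        have hsub : ((range m).filter (fun j => (e :: g) <:+ pt ((i, e) :: w) j)) ⊆
            insert i ((range m).filter (fun j => (e :: g) <:+ pt w j)) := by
          intro j hj
          rw [mem_filter] at hj
          by_cases hij : i = j
          · simp [hij]
          · rw [pt_cons_ne w e hij] at hj
            exact mem_insert_of_mem (mem_filter.2 hj)
        have h1 : nn m ((i, e) :: w) (e :: g) ≤ nn m w (e :: g) + 1 :=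
          (card_le_card hsub).trans (card_insert_le _ _)
        omega
      · have hsub : ((range m).filter (fun j => h' <:+ pt ((i, e) :: w) j)) ⊆
            ((range m).filter (fun j => h' <:+ pt w j)) := by
          intro j hj
          rw [mem_filter] at hj ⊢
          refine ⟨hj.1, ?_⟩
          by_cases hij : i = j
          · subst hij
            have h2 := hj.2
            rw [pt_cons_self, hig, List.suffix_cons_iff] at h2
            rcases h2 with h2 | h2
            · exact absurd h2 hh'
            · rw [hig]; exact h2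
          · rw [pt_cons_ne w e hij] at hj
            exact hj.2
        exact (card_le_card hsub).trans (hwc h')

theorem tree_flow_aux (m E : ℕ) (c : List ℕ → ℕ) (hc0 : c [] = m)
    (hsup : ∀ h, ∑ e ∈ range E, c (e :: h) ≤ c h) (hE : ∀ h e, E ≤ e → c (e :: h) = 0)
    (hnd : ∀ h, 0 < c h → h.Nodup) (k : ℕ) : ∀ w : List (ℕ × ℕ), m * E - w.length ≤ k →
    (∀ q ∈ w, q.1 < m) → (∀ h, nn m w h ≤ c h) →
    ∃ w', w <:+ w' ∧ (∀ q ∈ w', q.1 < m) ∧ ∀ h, nn m w' h = c h := by
  classical
  induction k with
  | zero =>
    intro w hk hw hwc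
    by_cases hall : ∀ h, nn m w h = c h
    · exact ⟨w, List.suffix_rfl, hw, hall⟩
    · exfalso
      push Not at hall
      obtain ⟨p, hw1, hc1⟩ := step_exists m E c hc0 hsup hE w hw hwc hall
      have h1 := len_le hsup hE hnd hw1 hc1
      rw [List.length_cons] at h1
      omega
  | succ k ih =>
    intro w hk hw hwc
    by_cases hall : ∀ h, nn m w h = c h
    · exact ⟨w, List.suffix_rfl, hw, hall⟩
    · push Not at hall
      obtain ⟨p, hw1, hc1⟩ := step_exists m E c hc0 hsup hE w hw hwc hall
      obtain ⟨w', h1, h2, h3⟩ := ih (p :: w) (by rw [List.length_cons]; omega) hw1 hc1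
      exact ⟨w', (List.suffix_cons p w).trans h1, h2, h3⟩

theorem tree_flow (m E : ℕ) (c : List ℕ → ℕ) (hc0 : c [] = m)
    (hsup : ∀ h, ∑ e ∈ range E, c (e :: h) ≤ c h) (hE : ∀ h e, E ≤ e → c (e :: h) = 0)
    (hnd : ∀ h, 0 < c h → h.Nodup) (w : List (ℕ × ℕ)) (hw : ∀ q ∈ w, q.1 < m)
    (hwc : ∀ h, ((List.range m).filter (fun i => suf h (pt w i))).length ≤ c h) :
    ∃ w', w <:+ w' ∧ (∀ q ∈ w', q.1 < m) ∧
      ∀ h, ((List.range m).filter (fun i => suf h (pt w' i))).length = c h := by
  have hwc' : ∀ h, nn m w h ≤ c h := fun h => by rw [← nn_eq]; exact hwc h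
  obtain ⟨w', h1, h2, h3⟩ := tree_flow_aux m E c hc0 hsup hE hnd _ w le_rfl hw hwc'
  exact ⟨w', h1, h2, fun h => by rw [nn_eq]; exact h3 h⟩

end Pool.Agent.Helper760.Cov.J1206
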