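import Mathlib
import Pool.Agent.Helper760.Cov.Base2a

set_option autoImplicit false

namespace Pool.Agent.Helper760.Cov.J1207

open Finset
open Pool.Agent.Helper760.Kolm (allLen mem_allLen length_allLen nodup_allLen primrec_allLen)

/-- shortest suffix containing both -/
def ms (e1 e2 : ℕ) : List ℕ → List ℕ
  | [] => []
  | (a :: t) => if e1 ∈ t ∧ e2 ∈ t then ms e1 e2 t else a :: t

theorem ms_spec (e1 e2 : ℕ) : ∀ g : List ℕ, e1 ∈ g → e2 ∈ g →
    ms e1 e2 g <:+ g ∧ e1 ∈ ms e1 e2 g ∧ e2 ∈ ms e1 e2 g ∧
      ¬ (e1 ∈ (ms e1 e2 g).tail ∧ e2 ∈ (ms e1 e2 g).tail) := by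
  intro g
  induction g with
  | nil => intro h; simp at h
  | cons a t ih =>
    intro h1 h2
    by_cases h : e1 ∈ t ∧ e2 ∈ t
    · have hm : ms e1 e2 (a :: t) = ms e1 e2 t := by simp [ms, h]
      rw [hm]
      obtain ⟨i1, i2, i3, i4⟩ := ih h.1 h.2
      exact ⟨i1.trans (List.suffix_cons a t), i2, i3, i4⟩
    · have hm : ms e1 e2 (a :: t) = a :: t := by simp only [ms, if_neg h]
      rw [hm]
      exact ⟨List.suffix_rfl, h1, h2, by simpa using h⟩

theorem ms_eq (e1 e2 : ℕ) (h : List ℕ) (h1 : e1 ∈ h) (h2 : e2 ∈ h)
    (h3 : ¬ (e1 ∈ h.tail ∧ e2 ∈ h.tail)) : ∀ g : List ℕ, h <:+ g → ms e1 e2 g = h := by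
  intro g
  induction g with
  | nil =>
    intro hs
    have : h = [] := List.suffix_nil.mp hs
    rw [this] at h1; simp at h1
  | cons a t ih =>
    intro hs
    rcases List.suffix_cons_iff.mp hs with hh | hh
    · subst hh
      simp only [List.tail_cons] at h3
      simp only [ms, if_neg h3]
    · have hh1 : e1 ∈ t := hh.subset h1
      have hh2 : e2 ∈ t := hh.subset h2
      have hm : ms e1 e2 (a :: t) = ms e1 e2 t := by simp [ms, hh1, hh2]
      rw [hm]; exact ih hh

theorem sum_fiber_le {α β : Type} [DecidableEq β] (L : List α) (p : α → Bool) (f : α → β)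
    (F : Finset β) :
    ∑ h ∈ F, (L.filter (fun g => p g && decide (f g = h))).length ≤ (L.filter p).length := by
  induction L with
  | nil => simp
  | cons a t ih =>
    have key : ∀ h, ((a :: t).filter (fun g => p g && decide (f g = h))).length
        = (if p a = true ∧ f a = h then 1 else 0)
          + (t.filter (fun g => p g && decide (f g = h))).length := by
      intro h
      by_cases hh : p a = true ∧ f a = h
      · simp [List.filter_cons, hh.1, hh.2, Nat.add_comm]
      · have : (p a && decide (f a = h)) = false := by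
          by_contra hc
          simp at hc
          exact hh hc
        rw [List.filter_cons]
        simp [this, hh]
    simp only [key, Finset.sum_add_distrib]
    by_cases hp : p a = true
    · have : ∑ h ∈ F, (if p a = true ∧ f a = h then 1 else 0) ≤ 1 := by
        simp only [hp, true_and]
        rw [Finset.sum_ite_eq]
        split_ifs <;> simp
      rw [List.filter_cons, if_pos hp, List.length_cons]
      omega
    · have : ∑ h ∈ F, (if p a = true ∧ f a = h then 1 else 0) = 0 := by
        apply Finset.sum_eq_zero
        intro h _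
        simp [hp]
      rw [List.filter_cons, if_neg hp]
      omega

theorem le_sum_fiber {α β : Type} [DecidableEq β] (L : List α) (p : α → Bool) (f : α → β)
    (F : Finset β) (hF : ∀ g ∈ L, p g = true → f g ∈ F) :
    (L.filter p).length ≤ ∑ h ∈ F, (L.filter (fun g => p g && decide (f g = h))).length := by
  induction L with
  | nil => simp
  | cons a t ih =>
    have ih' := ih (fun g hg => hF g (List.mem_cons_of_mem _ hg))
    have key : ∀ h, ((a :: t).filter (fun g => p g && decide (f g = h))).length
        = (if p a = true ∧ f a = h then 1 else 0)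
          + (t.filter (fun g => p g && decide (f g = h))).length := by
      intro h
      by_cases hh : p a = true ∧ f a = h
      · simp [List.filter_cons, hh.1, hh.2, Nat.add_comm]
      · have : (p a && decide (f a = h)) = false := by
          by_contra hc
          simp at hc
          exact hh hc
        rw [List.filter_cons]
        simp [this, hh]
    simp only [key, Finset.sum_add_distrib]
    by_cases hp : p a = true
    · have : ∑ h ∈ F, (if p a = true ∧ f a = h then 1 else 0) = 1 := by
        simp only [hp, true_and]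
        rw [Finset.sum_ite_eq, if_pos (hF a (List.mem_cons_self) hp)]
      rw [List.filter_cons, if_pos hp, List.length_cons]
      omega
    · have : ∑ h ∈ F, (if p a = true ∧ f a = h then 1 else 0) = 0 := by
        apply Finset.sum_eq_zero
        intro h _
        simp [hp]
      rw [List.filter_cons, if_neg hp]
      omega

theorem filter_length_mono {α : Type} (L : List α) (p q : α → Bool)
    (h : ∀ g ∈ L, p g = true → q g = true) : (L.filter p).length ≤ (L.filter q).length := by
  rw [← List.countP_eq_length_filter, ← List.countP_eq_length_filter]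
  exact List.countP_mono_left h

theorem card_lists (E : ℕ) (F : Finset (List ℕ)) (hnd : ∀ h ∈ F, h.Nodup)
    (hE : ∀ h ∈ F, ∀ e ∈ h, e < E) : F.card ≤ (E + 1) ^ (E + 1) := by
  classical
  have hlen : ∀ h ∈ F, h.length ≤ E := by
    intro h hh
    have h1 : h.toFinset ⊆ Finset.range E := by
      intro e he
      rw [Finset.mem_range]
      exact hE h hh e (List.mem_toFinset.mp he)
    have h2 := Finset.card_le_card h1
    rw [List.toFinset_card_of_nodup (hnd h hh), Finset.card_range] at h2
    exact h2
  let φ : List ℕ → (Fin (E + 1) → Fin (E + 1)) := fun h i =>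
    if hi : h.getD i E < E + 1 then ⟨h.getD i E, hi⟩ else 0
  have hφ : Set.InjOn φ (F : Set (List ℕ)) := by
    intro h hh h' hh' heq
    have hb : ∀ k ∈ F, ∀ i : ℕ, k.getD i E < E + 1 := by
      intro k hk i
      by_cases hi : i < k.length
      · rw [List.getD_eq_getElem _ _ hi]
        have := hE k hk _ (List.getElem_mem hi)
        omega
      · rw [List.getD_eq_default _ _ (by omega)]
        omega
    have hget : ∀ i : ℕ, i < E + 1 → h.getD i E = h'.getD i E := by
      intro i hi
      have := congrFun heq ⟨i, hi⟩
      simp only [φ] at this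
      rw [dif_pos (hb h hh i), dif_pos (hb h' hh' i)] at this
      exact Fin.mk.inj_iff.mp this
    have hlt : ∀ k ∈ F, ∀ i : ℕ, (i < k.length ↔ k.getD i E < E) := by
      intro k hk i
      constructor
      · intro hi
        rw [List.getD_eq_getElem _ _ hi]
        exact hE k hk _ (List.getElem_mem hi)
      · intro hi
        by_contra hc
        rw [List.getD_eq_default _ _ (by omega)] at hi
        omega
    have hl : h.length = h'.length := by
      apply le_antisymm
      · by_contra hc
        push Not at hc
        have h1 : h'.length < E + 1 := by have := hlen h' hh'; omega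
        have h2 := (hlt h hh h'.length).mp hc
        rw [hget _ h1] at h2
        have h3 := (hlt h' hh' h'.length).mpr h2
        omega
      · by_contra hc
        push Not at hc
        have h1 : h.length < E + 1 := by have := hlen h hh; omega
        have h2 := (hlt h' hh' h.length).mp hc
        rw [← hget _ h1] at h2
        have h3 := (hlt h hh h.length).mpr h2
        omega
    apply List.ext_getElem hl
    intro i hi hi'
    have h1 : i < E + 1 := by have := hlen h hh; omega
    have := hget i h1
    rw [List.getD_eq_getElem _ _ hi, List.getD_eq_getElem _ _ hi'] at this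
    exact this
  have hcard : F.card ≤ (Finset.univ : Finset (Fin (E + 1) → Fin (E + 1))).card := by
    apply Finset.card_le_card_of_injOn φ
    · intro x _; simp
    · exact hφ
  simpa using hcard

theorem round_count (m E : ℕ) (L : List (List ℕ)) (hL : L ≠ []) (hnd : ∀ g ∈ L, g.Nodup)
    (hE : ∀ g ∈ L, ∀ e ∈ g, e < E) (P : ℕ → List ℕ)
    (hP : ∀ h, ((List.range m).filter (fun i => suf h (P i))).length = cnt m L h) (e1 e2 : ℕ) :
    m * (L.filter (fun g => e1 ∈ g ∧ e2 ∈ g)).length ≤
      L.length * (((List.range m).filter (fun i => e1 ∈ P i ∧ e2 ∈ P i)).length +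
        (E + 1) ^ (E + 1)) := by
  classical
  have hT : 0 < L.length := List.length_pos_iff.mpr hL
  let G := L.filter (fun g => e1 ∈ g ∧ e2 ∈ g)
  let F : Finset (List ℕ) := (G.map (ms e1 e2)).toFinset
  have hFspec : ∀ h ∈ F, ∃ g ∈ L, e1 ∈ g ∧ e2 ∈ g ∧ ms e1 e2 g = h := by
    intro h hh
    simp only [F, List.mem_toFinset, List.mem_map, G, List.mem_filter, decide_eq_true_eq] at hh
    obtain ⟨g, ⟨hg, h1, h2⟩, h3⟩ := hh
    exact ⟨g, hg, h1, h2, h3⟩
  have hFmin : ∀ h ∈ F, e1 ∈ h ∧ e2 ∈ h ∧ ¬ (e1 ∈ h.tail ∧ e2 ∈ h.tail) := by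
    intro h hh
    obtain ⟨g, hg, h1, h2, h3⟩ := hFspec h hh
    have := ms_spec e1 e2 g h1 h2
    rw [h3] at this
    exact this.2
  have hFcard : F.card ≤ (E + 1) ^ (E + 1) := by
    apply card_lists E F
    · intro h hh
      obtain ⟨g, hg, h1, h2, h3⟩ := hFspec h hh
      have := (ms_spec e1 e2 g h1 h2).1
      rw [h3] at this
      exact (hnd g hg).sublist this.sublist
    · intro h hh e he
      obtain ⟨g, hg, h1, h2, h3⟩ := hFspec h hh
      have := (ms_spec e1 e2 g h1 h2).1
      rw [h3] at this
      exact hE g hg e (this.subset he)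
  -- step 1
  have s1 : (L.filter (fun g => decide (e1 ∈ g ∧ e2 ∈ g))).length ≤
      ∑ h ∈ F, (L.filter (fun g => suf h g)).length := by
    refine (le_sum_fiber L (fun g => decide (e1 ∈ g ∧ e2 ∈ g)) (ms e1 e2) F ?_).trans ?_
    · intro g hg hp
      simp only [F, List.mem_toFinset, List.mem_map, G, List.mem_filter]
      exact ⟨g, ⟨hg, hp⟩, rfl⟩
    · apply Finset.sum_le_sum
      intro h hh
      apply filter_length_mono
      intro g hg hp
      simp only [Bool.and_eq_true, decide_eq_true_eq] at hp
      rw [suf_iff]
      have := (ms_spec e1 e2 g hp.1.1 hp.1.2).1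
      rw [hp.2] at this
      exact this
  -- step 2
  have s2 : ∑ h ∈ F, ((List.range m).filter (fun i => suf h (P i))).length ≤
      ((List.range m).filter (fun i => decide (e1 ∈ P i ∧ e2 ∈ P i))).length := by
    refine le_trans ?_ (sum_fiber_le (List.range m) (fun i => decide (e1 ∈ P i ∧ e2 ∈ P i))
      (fun i => ms e1 e2 (P i)) F)
    apply Finset.sum_le_sum
    intro h hh
    apply filter_length_mono
    intro i hi hs
    rw [suf_iff] at hs
    obtain ⟨m1, m2, m3⟩ := hFmin h hh
    simp only [Bool.and_eq_true, decide_eq_true_eq]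
    exact ⟨⟨hs.subset m1, hs.subset m2⟩, ms_eq e1 e2 h m1 m2 m3 (P i) hs⟩
  have s3 : ∀ h, m * (L.filter (fun g => suf h g)).length ≤ L.length * (cnt m L h + 1) := by
    intro h
    unfold cnt
    have := Nat.lt_mul_div_succ (m * (L.filter (fun g => suf h g)).length) hT
    omega
  calc m * (L.filter (fun g => decide (e1 ∈ g ∧ e2 ∈ g))).length
      ≤ m * ∑ h ∈ F, (L.filter (fun g => suf h g)).length := Nat.mul_le_mul_left _ s1
    _ = ∑ h ∈ F, m * (L.filter (fun g => suf h g)).length := by rw [Finset.mul_sum]
    _ ≤ ∑ h ∈ F, L.length * (cnt m L h + 1) := Finset.sum_le_sum (fun h _ => s3 h)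
    _ = L.length * (∑ h ∈ F, cnt m L h + F.card) := by
        rw [← Finset.mul_sum, Finset.sum_add_distrib]; simp
    _ ≤ L.length * (((List.range m).filter (fun i => decide (e1 ∈ P i ∧ e2 ∈ P i))).length +
        (E + 1) ^ (E + 1)) := by
        apply Nat.mul_le_mul_left
        have : ∑ h ∈ F, cnt m L h = ∑ h ∈ F, ((List.range m).filter (fun i => suf h (P i))).length :=
          Finset.sum_congr rfl (fun h _ => (hP h).symm)
        rw [this]
        omega

end Pool.Agent.Helper760.Cov.J1207
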