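import Mathlib
import Pool.Agent.Helper760.Cov.Base2a

set_option autoImplicit false

namespace Pool.Agent.Helper760.Cov.J1209

open Finset
open Pool.Agent.Helper760.Kolm (allLen mem_allLen length_allLen nodup_allLen primrec_allLen)

theorem addNew_nil (h : List ℕ) : addNew h [] = h := rfl

theorem addNew_cons (h : List ℕ) (e : ℕ) (L : List ℕ) :
    addNew h (e :: L) = addNew (if e ∈ h then h else e :: h) L := rfl

theorem addNew_spec (h L : List ℕ) : h <:+ addNew h L ∧ (h.Nodup → (addNew h L).Nodup) ∧
    ∀ e, e ∈ addNew h L ↔ e ∈ h ∨ e ∈ L := by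
  induction L generalizing h with
  | nil => 
    rw [addNew_nil]
    refine ⟨List.suffix_refl h, fun hh => hh, fun e => by simp⟩
  | cons a L ih =>
    rw [addNew_cons]
    by_cases ha : a ∈ h
    · rw [if_pos ha]
      obtain ⟨h1, h2, h3⟩ := ih h
      refine ⟨h1, h2, fun e => ?_⟩
      rw [h3 e, List.mem_cons]
      constructor
      · rintro (h | h)
        · exact Or.inl h
        · exact Or.inr (Or.inr h)
      · rintro (h | h | h)
        · exact Or.inl h
        · subst h; exact Or.inl ha
        · exact Or.inr h
    · rw [if_neg ha]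
      obtain ⟨h1, h2, h3⟩ := ih (a :: h)
      refine ⟨(List.suffix_cons a h).trans h1, fun hh => h2 (List.nodup_cons.mpr ⟨ha, hh⟩), fun e => ?_⟩
      rw [h3 e, List.mem_cons, List.mem_cons]
      tauto

theorem hist_nil (f : List Bool → List ℕ) : hist f [] = addNew [] (f []) := by
  unfold hist
  simp

theorem hist_snoc (f : List Bool → List ℕ) (σ : List Bool) (b : Bool) :
    hist f (σ ++ [b]) = addNew (hist f σ) (f (σ ++ [b])) := by
  unfold hist
  have hl : (σ ++ [b]).length = σ.length + 1 := by simp
  rw [hl, List.range_succ (n := σ.length + 1), List.foldl_append]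
  have h1 : (List.range (σ.length + 1)).foldl (fun h i => addNew h (f ((σ ++ [b]).take i))) []
      = (List.range (σ.length + 1)).foldl (fun h i => addNew h (f (σ.take i))) [] := by
    apply List.foldl_ext
    intro h i hi
    rw [List.mem_range] at hi
    rw [List.take_append_of_le_length (by omega)]
  rw [h1]
  simp only [List.foldl_cons, List.foldl_nil]
  congr 2
  rw [List.take_of_length_le (by simp)]

theorem hist_spec (f : List Bool → List ℕ) (hf : ∀ σ b, f σ ⊆ f (σ ++ [b])) (σ : List Bool) :
    (hist f σ).Nodup ∧ (∀ e, e ∈ hist f σ ↔ e ∈ f σ) ∧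
      ∀ b, hist f σ <:+ hist f (σ ++ [b]) := by
  induction σ using List.reverseRecOn with
  | nil =>
    refine ⟨?_, ?_, ?_⟩
    · rw [hist_nil]
      exact (addNew_spec [] (f [])).2.1 List.nodup_nil
    · intro e
      rw [hist_nil, (addNew_spec [] (f [])).2.2 e]
      simp
    · intro b
      rw [hist_snoc]
      exact (addNew_spec _ _).1
  | append_singleton σ a ih =>
    obtain ⟨h1, h2, h3⟩ := ih
    refine ⟨?_, ?_, ?_⟩
    · rw [hist_snoc]
      exact (addNew_spec _ _).2.1 h1
    · intro e
      rw [hist_snoc, (addNew_spec _ _).2.2 e, h2 e]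
      constructor
      · rintro (h | h)
        · exact hf σ a h
        · exact h
      · intro h
        exact Or.inr h
    · intro b
      rw [hist_snoc f (σ ++ [a]) b]
      exact (addNew_spec _ _).1

theorem stage_length (f : List Bool → List ℕ) (t : ℕ) : (stage f t).length = 2 ^ t := by
  unfold stage
  rw [List.length_map, Pool.Agent.Helper760.Kolm.length_allLen]

theorem stage_count (f : List Bool → List ℕ) (t : ℕ) (h : List ℕ) :
    ((stage f t).filter (fun g => suf h g)).length =
      ((allLen t).toFinset.filter (fun τ => suf h (hist f τ) = true)).card := by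
  unfold stage
  rw [List.filter_map, List.length_map]
  rw [← List.toFinset_card_of_nodup
    ((Pool.Agent.Helper760.Kolm.nodup_allLen t).filter _)]
  congr 1
  ext x
  simp

theorem cnt_mono (m : ℕ) (f : List Bool → List ℕ) (hf : ∀ σ b, f σ ⊆ f (σ ++ [b])) (t : ℕ)
    (h : List ℕ) : cnt m (stage f t) h ≤ cnt m (stage f (t + 1)) h := by
  unfold cnt
  rw [stage_length, stage_length, stage_count, stage_count]
  set A := (allLen t).toFinset.filter (fun τ => suf h (hist f τ) = true) with hA
  set B := (allLen (t+1)).toFinset.filter (fun τ => suf h (hist f τ) = true) with hB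
  have hmem : ∀ b : Bool, A.image (fun σ => σ ++ [b]) ⊆ B := by
    intro b x hx
    rw [Finset.mem_image] at hx
    obtain ⟨σ, hσ, rfl⟩ := hx
    rw [hA, Finset.mem_filter, List.mem_toFinset, Pool.Agent.Helper760.Kolm.mem_allLen] at hσ
    rw [hB, Finset.mem_filter, List.mem_toFinset, Pool.Agent.Helper760.Kolm.mem_allLen]
    refine ⟨by simp [hσ.1], ?_⟩
    rw [suf_iff] at *
    exact hσ.2.trans ((hist_spec f hf σ).2.2 b)
  have hcard : ∀ b : Bool, (A.image (fun σ => σ ++ [b])).card = A.card := by
    intro b
    apply Finset.card_image_of_injective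
    intro x y hxy
    exact List.append_cancel_right hxy
  have hdisj : Disjoint (A.image (fun σ => σ ++ [true])) (A.image (fun σ => σ ++ [false])) := by
    rw [Finset.disjoint_left]
    intro x hx hy
    rw [Finset.mem_image] at hx hy
    obtain ⟨σ, _, rfl⟩ := hx
    obtain ⟨τ, _, hτ⟩ := hy
    have := congrArg (fun l => l.getLast?) hτ
    simp at this
  have h2 : 2 * A.card ≤ B.card := by
    have h3 := Finset.card_le_card (Finset.union_subset (hmem true) (hmem false))
    rw [Finset.card_union_of_disjoint hdisj, hcard, hcard] at h3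
    omega
  rw [pow_succ]
  rw [Nat.le_div_iff_mul_le (by positivity)]
  calc m * A.card / 2 ^ t * (2 ^ t * 2) = (m * A.card / 2 ^ t * 2 ^ t) * 2 := by ring
    _ ≤ (m * A.card) * 2 := by
        apply Nat.mul_le_mul_right
        exact Nat.div_mul_le_self _ _
    _ = m * (2 * A.card) := by ring
    _ ≤ m * B.card := Nat.mul_le_mul_left _ h2

end Pool.Agent.Helper760.Cov.J1209
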