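import Mathlib
import Pool.Agent.Helper760.Cov.Base2a
import Pool.Agent.Helper760.Cov.J1206
import Pool.Agent.Helper760.Cov.J1207
import Pool.Agent.Helper760.Cov.J1209

set_option autoImplicit false

namespace Pool.Agent.Helper760.Cov

alias tree_flow := J1206.tree_flow
alias round_count := J1207.round_count
alias addNew_spec := J1209.addNew_spec
alias hist_spec := J1209.hist_spec
alias cnt_mono := J1209.cnt_mono

end Pool.Agent.Helper760.Cov
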