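import Mathlib
import Pool.Agent.Helper760.Cov.Base2b

set_option autoImplicit false

namespace Pool.Agent.Helper760.Cov.J1211

open Finset
open Pool.Agent.Helper760.Kolm (allLen mem_allLen length_allLen nodup_allLen primrec_allLen)

theorem cnt_pos' (m : ℕ) (L : List (List ℕ)) (h : List ℕ) (hp : 0 < cnt m L h) :
    ∃ g ∈ L, h <:+ g := by
  by_contra hcon
  push Not at hcon
  have h1 : L.filter (fun g => suf h g) = [] := by
    rw [List.filter_eq_nil_iff]
    intro g hg hs
    exact hcon g hg ((suf_iff h g).1 hs)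
  unfold cnt at hp
  rw [h1] at hp
  simp at hp

theorem cnt_nil' (m : ℕ) (L : List (List ℕ)) (hL : L ≠ []) : cnt m L [] = m := by
  unfold cnt
  have h1 : L.filter (fun g => suf [] g) = L := by
    rw [List.filter_eq_self]
    intro g _
    rw [suf_iff]
    exact List.nil_suffix
  rw [h1]
  have h2 : 0 < L.length := List.length_pos_iff.2 hL
  exact Nat.mul_div_cancel m h2

theorem pt_sublist {w w' : List (ℕ × ℕ)} (h : w <:+ w') (i : ℕ) :
    (pt w i).Sublist (pt w' i) := by
  unfold pt
  exact (h.sublist.filter _).map _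

theorem legal_suffix {E m A B : ℕ} {w w' : List (ℕ × ℕ)} (h : w <:+ w')
    (hl : LegalN E m A B w') : LegalN E m A B w := by
  obtain ⟨h1, h2, h3⟩ := hl
  refine ⟨fun q hq => h1 q (h.subset hq), h2.sublist h.sublist, fun i hi => ?_⟩
  refine ⟨le_trans ?_ (h3 i hi).1, le_trans ?_ (h3 i hi).2⟩
  · exact ((pt_sublist h i).filter _).length_le
  · exact ((pt_sublist h i).filter _).length_le

theorem mem_pt {w : List (ℕ × ℕ)} {q : ℕ × ℕ} (hq : q ∈ w) : q.2 ∈ pt w q.1 := by
  unfold pt
  rw [List.mem_map]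
  exact ⟨q, by rw [List.mem_filter]; exact ⟨hq, by simp⟩, rfl⟩

theorem nodup_of_pt (w : List (ℕ × ℕ)) (h : ∀ i, (pt w i).Nodup) : w.Nodup := by
  induction w with
  | nil => exact List.nodup_nil
  | cons q v ih =>
    have hv : ∀ i, (pt v i).Nodup := fun i =>
      (h i).sublist (pt_sublist (List.suffix_cons q v) i)
    rw [List.nodup_cons]
    refine ⟨fun hq => ?_, ih hv⟩
    have h1 := h q.1
    have h2 : pt (q :: v) q.1 = q.2 :: pt v q.1 := by
      unfold pt
      rw [List.filter_cons_of_pos (by simp), List.map_cons]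
    rw [h2, List.nodup_cons] at h1
    exact h1.1 (mem_pt hq)

theorem walk {E m A B κ a' b' N : ℕ} {s : List (List (ℕ × ℕ) × List (ℕ × ℕ))}
    (hs : Chk E m A B κ a' b' N s) (w b : List (ℕ × ℕ)) (hwb : (w, b) ∈ s)
    (v : List (ℕ × ℕ)) (hl : LegalN E m A B (v ++ w)) :
    ∃ b'', (v ++ w, b'') ∈ s ∧ b ⊆ b'' := by
  induction v with
  | nil => exact ⟨b, hwb, fun _ h => h⟩
  | cons q v ih =>
    have hl' : LegalN E m A B (v ++ w) := by
      refine legal_suffix ?_ hl
      rw [List.cons_append]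
      exact List.suffix_cons q (v ++ w)
    obtain ⟨b0, hb0, hsub⟩ := ih hl'
    have hq : q.1 < m ∧ q.2 < E := hl.1 q (by simp)
    obtain ⟨p', hp', hp1, hp2⟩ := hs.2.2 _ hb0 q.1 hq.1 q.2 hq.2 hl
    refine ⟨p'.2, ?_, fun x hx => hp2 (hsub hx)⟩
    have : (q :: v ++ w, p'.2) = p' := by
      ext1
      · exact hp1.symm
      · rfl
    rw [this]
    exact hp'

theorem run_step (E m A B κ a' b' N : ℕ) (s : List (List (ℕ × ℕ) × List (ℕ × ℕ)))
    (hs : Chk E m A B κ a' b' N s) (L : List (List ℕ)) (hL : L ≠ [])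
    (hnd : ∀ g ∈ L, g.Nodup) (hE : ∀ g ∈ L, ∀ e ∈ g, e < E)
    (hAB : ∀ g ∈ L, (g.filter (fun e => e % 2 = 0)).length ≤ A ∧
      (g.filter (fun e => e % 2 = 1)).length ≤ B)
    (st : List (ℕ × ℕ) × List (ℕ × ℕ)) (hst : st ∈ s ∨ st = ([], []))
    (hc : ∀ h, ((List.range m).filter (fun i => suf h (pt st.1 i))).length ≤ cnt m L h) :
    step s m L st ∈ s ∧ Target m L (step s m L st).1 ∧ st.2 ⊆ (step s m L st).2 := by
  -- the starting entry
  have hstart : ∃ b0, (st.1, b0) ∈ s ∧ st.2 ⊆ b0 := by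
    rcases hst with h | h
    · exact ⟨st.2, h, fun _ hx => hx⟩
    · obtain ⟨p, hp, hp1⟩ := hs.1
      refine ⟨p.2, ?_, ?_⟩
      · rw [h]
        have : (([] : List (ℕ × ℕ)), p.2) = p := by
          ext1
          · exact hp1.symm
          · rfl
        show (([] : List (ℕ × ℕ)), p.2) ∈ s
        rw [this]
        exact hp
      · rw [h]
        intro x hx
        simp at hx
  obtain ⟨b0, hb0, hsub0⟩ := hstart
  have hlw : LegalN E m A B st.1 := (hs.2.1 _ hb0).1
  obtain ⟨w', hw1, hw2, hw3⟩ := tree_flow m E (cnt m L) (cnt_nil' m L hL)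
    (fun h => cnt_sup m E L h)
    (fun h e he => by
      by_contra hne
      obtain ⟨g, hg, hsf⟩ := cnt_pos' m L (e :: h) (Nat.pos_of_ne_zero hne)
      have : e ∈ g := hsf.subset (by simp)
      have := hE g hg e this
      omega)
    (fun h hh => by
      obtain ⟨g, hg, hsf⟩ := cnt_pos' m L h hh
      exact (hnd g hg).sublist hsf.sublist)
    st.1 (fun q hq => (hlw.1 q hq).1) hc
  have htar : Target m L w' := (target_iff m L hL w').2 hw3
  have hpt : ∀ i < m, ∃ g ∈ L, pt w' i <:+ g := by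
    intro i hi
    apply cnt_pos' m L
    rw [← hw3 (pt w' i)]
    apply List.length_pos_iff.2
    intro hnil
    rw [List.filter_eq_nil_iff] at hnil
    exact hnil i (List.mem_range.2 hi) ((suf_iff _ _).2 (List.suffix_refl _))
  have hnodup : w'.Nodup := by
    apply nodup_of_pt
    intro i
    by_cases hi : i < m
    · obtain ⟨g, hg, hsf⟩ := hpt i hi
      exact (hnd g hg).sublist hsf.sublist
    · have : pt w' i = [] := by
        unfold pt
        rw [List.map_eq_nil_iff, List.filter_eq_nil_iff]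
        intro q hq hqi
        have h1 := hw2 q hq
        simp at hqi
        omega
      rw [this]
      exact List.nodup_nil
  have hlw' : LegalN E m A B w' := by
    refine ⟨fun q hq => ⟨hw2 q hq, ?_⟩, hnodup, fun i hi => ?_⟩
    · obtain ⟨g, hg, hsf⟩ := hpt q.1 (hw2 q hq)
      exact hE g hg _ (hsf.subset (mem_pt hq))
    · obtain ⟨g, hg, hsf⟩ := hpt i hi
      exact ⟨le_trans (hsf.sublist.filter _).length_le (hAB g hg).1,
        le_trans (hsf.sublist.filter _).length_le (hAB g hg).2⟩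
  obtain ⟨v, hv⟩ := hw1
  rw [← hv] at hlw'
  obtain ⟨b'', hb'', hsub''⟩ := walk hs st.1 b0 hb0 v hlw'
  -- the search succeeds
  have hdrop : (v ++ st.1).drop ((v ++ st.1).length - st.1.length) = st.1 := by
    have : (v ++ st.1).length - st.1.length = v.length := by
      rw [List.length_append]; omega
    rw [this, List.drop_left]
  have hsome : (s.find? (fun p => decide (p.1.drop (p.1.length - st.1.length) = st.1 ∧
      (∀ q ∈ st.2, q ∈ p.2) ∧ Target m L p.1))).isSome := by
    rw [List.find?_isSome]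
    refine ⟨(v ++ st.1, b''), hb'', ?_⟩
    rw [decide_eq_true_iff]
    refine ⟨hdrop, fun q hq => hsub'' (hsub0 hq), ?_⟩
    show Target m L (v ++ st.1)
    rw [hv]
    exact htar
  obtain ⟨p, hp⟩ := Option.isSome_iff_exists.1 hsome
  have hstep : step s m L st = p := by
    unfold step
    rw [hp]
    rfl
  have hpp := List.find?_some hp
  rw [decide_eq_true_iff] at hpp
  rw [hstep]
  exact ⟨List.mem_of_find?_eq_some hp, hpp.2.2, fun q hq => hpp.2.1 q hq⟩

end Pool.Agent.Helper760.Cov.J1211
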