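import Mathlib
import Pool.Agent.Helper760.Cov.Base2b
import Pool.Agent.Helper760.Cov.J1211

set_option autoImplicit false

namespace Pool.Agent.Helper760.Cov

alias run_step := J1211.run_step

end Pool.Agent.Helper760.Cov
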