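import Mathlib
import Pool.Agent.Helper760.Cov.Base1

set_option autoImplicit false

namespace Pool.Agent.Helper760.Cov.J1114

open Finset
open scoped Classical

section Aux

variable {Z U V : Type*}

theorem seg_sublist (lo hi : ℕ) (w : List (Z × (U ⊕ V))) : (seg lo hi w).Sublist w := by
  induction w with
  | nil => exact List.Sublist.refl _
  | cons q w ih =>
    rw [seg]
    split_ifs
    · exact ih.cons_cons q
    · exact ih.cons q

theorem seg_meet {lo hi lo' hi' : ℕ} {w : List (Z × (U ⊕ V))} (hw : w.Nodup)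
    {m : Z × (U ⊕ V)} (h1 : m ∈ seg lo hi w) (h2 : m ∈ seg lo' hi' w) :
    ∃ t, lo ≤ t ∧ t < hi ∧ lo' ≤ t ∧ t < hi' := by
  induction w with
  | nil => simp [seg] at h1
  | cons q w ih =>
    rw [List.nodup_cons] at hw
    by_cases hq : m = q
    · subst hq
      have hn : ∀ a b, m ∉ seg a b w := fun a b hh => hw.1 ((seg_sublist a b w).subset hh)
      rw [seg] at h1 h2
      split_ifs at h1 with c1
      · split_ifs at h2 with c2
        · exact ⟨xc w, c1.1, c1.2, c2.1, c2.2⟩
        · exact absurd h2 (hn _ _)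
      · exact absurd h1 (hn _ _)
    · refine ih hw.2 ?_ ?_
      · rw [seg] at h1
        split_ifs at h1 with c1
        · rcases List.mem_cons.1 h1 with h | h
          · exact absurd h hq
          · exact h
        · exact h1
      · rw [seg] at h2
        split_ifs at h2 with c1
        · rcases List.mem_cons.1 h2 with h | h
          · exact absurd h hq
          · exact h
        · exact h2

theorem win_cons {Δ q : ℕ} {w : List (Z × (U ⊕ V))} (hq : (q + 1) * Δ ≤ xc w)
    (p : Z × (U ⊕ V)) : win Δ q (p :: w) = win Δ q w := by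
  unfold win
  rw [seg, if_neg]
  rintro ⟨_, h⟩
  omega

theorem xc_cons_le (w : List (Z × (U ⊕ V))) (p : Z × (U ⊕ V)) : xc w ≤ xc (p :: w) := by
  unfold xc
  rw [List.countP_cons]
  omega

variable [Fintype U] [Fintype V]

theorem Xs_win_subset (Δ q : ℕ) (w : List (Z × (U ⊕ V))) (z : Z) :
    Xs (win Δ q w) z ⊆ Xs w z := by
  intro x hx
  simp only [Xs, mem_filter, mem_univ, true_and] at hx ⊢
  exact (seg_sublist _ _ w).subset hx

theorem Ys_win_subset (Δ q : ℕ) (w : List (Z × (U ⊕ V))) (z : Z) :
    Ys (win Δ q w) z ⊆ Ys w z := by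
  intro x hx
  simp only [Ys, mem_filter, mem_univ, true_and] at hx ⊢
  exact (seg_sublist _ _ w).subset hx

theorem win_disj {Δ : ℕ} {w : List (Z × (U ⊕ V))} (hw : w.Nodup) {m : Z × (U ⊕ V)} {q q' : ℕ}
    (h1 : m ∈ win Δ q w) (h2 : m ∈ win Δ q' w) : q = q' := by
  obtain ⟨t, a1, a2, a3, a4⟩ := seg_meet hw h1 h2
  by_contra hne
  rcases lt_or_gt_of_ne hne with h | h
  · have : (q + 1) * Δ ≤ q' * Δ := Nat.mul_le_mul_right _ h
    omega
  · have : (q' + 1) * Δ ≤ q * Δ := Nat.mul_le_mul_right _ h
    omega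

theorem sum_Xs_le {Δ : ℕ} {w : List (Z × (U ⊕ V))} (hw : w.Nodup) (z : Z) (K : ℕ) :
    ∑ q ∈ range K, (Xs (win Δ q w) z).card ≤ (Xs w z).card := by
  rw [← card_biUnion]
  · apply card_le_card
    intro x hx
    rw [mem_biUnion] at hx
    obtain ⟨q, _, hx⟩ := hx
    exact Xs_win_subset Δ q w z hx
  · intro q _ q' _ hne
    rw [Function.onFun, disjoint_left]
    intro x hx hx'
    simp only [Xs, mem_filter, mem_univ, true_and] at hx hx'
    exact hne (win_disj hw hx hx')

theorem sum_Ys_le {Δ : ℕ} {w : List (Z × (U ⊕ V))} (hw : w.Nodup) (z : Z) (K : ℕ) :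
    ∑ q ∈ range K, (Ys (win Δ q w) z).card ≤ (Ys w z).card := by
  rw [← card_biUnion]
  · apply card_le_card
    intro x hx
    rw [mem_biUnion] at hx
    obtain ⟨q, _, hx⟩ := hx
    exact Ys_win_subset Δ q w z hx
  · intro q _ q' _ hne
    rw [Function.onFun, disjoint_left]
    intro x hx hx'
    simp only [Ys, mem_filter, mem_univ, true_and] at hx hx'
    exact hne (win_disj hw hx hx')

/-- raw data of a window -/
noncomputable def Graw (Δ : ℕ) (w : List (Z × (U ⊕ V))) (q : ℕ) : Z → Finset U × Finset V :=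
  fun z => (Xs (win Δ q w) z, Ys (win Δ q w) z)

/-- the list of raw data -/
noncomputable def stepsAux (Δ N : ℕ) (w : List (Z × (U ⊕ V))) : ℕ → List (Z → Finset U × Finset V)
  | 0 => []
  | q + 1 => List.replicate N (Graw Δ w q) ++ stepsAux Δ N w q

theorem stepsAux_mono (Δ N : ℕ) (w : List (Z × (U ⊕ V))) {a b : ℕ} (h : a ≤ b) :
    stepsAux Δ N w a <:+ stepsAux Δ N w b := by
  induction b, h using Nat.le_induction with
  | base => exact List.suffix_refl _
  | succ b _ ih => exact ih.trans (List.suffix_append _ _)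

theorem stepsAux_cons (Δ N : ℕ) (w : List (Z × (U ⊕ V))) (p : Z × (U ⊕ V)) {a : ℕ}
    (h : a * Δ ≤ xc w) : stepsAux Δ N (p :: w) a = stepsAux Δ N w a := by
  induction a with
  | zero => rfl
  | succ a ih =>
    rw [stepsAux, stepsAux, ih (by nlinarith)]
    congr 2
    unfold Graw
    rw [win_cons h]

/-- all raw data -/
noncomputable def Lraw (Δ N : ℕ) (w : List (Z × (U ⊕ V))) : List (Z → Finset U × Finset V) :=
  stepsAux Δ N w (xc w / Δ)

theorem Lraw_suffix (Δ N : ℕ) (w : List (Z × (U ⊕ V))) (p : Z × (U ⊕ V)) :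
    Lraw Δ N w <:+ Lraw Δ N (p :: w) := by
  have h1 : stepsAux Δ N (p :: w) (xc w / Δ) = stepsAux Δ N w (xc w / Δ) :=
    stepsAux_cons Δ N w p (Nat.div_mul_le_self _ _)
  unfold Lraw
  rw [← h1]
  exact stepsAux_mono Δ N (p :: w) (Nat.div_le_div_right (xc_cons_le w p))

theorem mem_stepsAux {Δ N : ℕ} {w : List (Z × (U ⊕ V))} {a : ℕ} {G : Z → Finset U × Finset V}
    (h : G ∈ stepsAux Δ N w a) : ∃ q, G = Graw Δ w q := by
  induction a with
  | zero => simp [stepsAux] at h
  | succ a ih =>
    rw [stepsAux, List.mem_append] at h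
    rcases h with h | h
    · exact ⟨a, List.eq_of_mem_replicate h⟩
    · exact ih h

theorem sum_stepsAux (Δ N : ℕ) (w : List (Z × (U ⊕ V))) (f : (Z → Finset U × Finset V) → ℝ)
    (a : ℕ) : ((stepsAux Δ N w a).map f).sum = N * ∑ q ∈ range a, f (Graw Δ w q) := by
  induction a with
  | zero => simp [stepsAux]
  | succ a ih =>
    rw [stepsAux, List.map_append, List.sum_append, ih, List.map_replicate, List.sum_replicate,
      sum_range_succ, nsmul_eq_mul]
    ring

/-- the raw data together with the chosen points -/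
def cmb {W : Type*} (run : List ((Z → Finset (U × V)) × (Z → ℝ)) → List Z)
    (F : W → (Z → Finset (U × V)) × (Z → ℝ)) (l : List W) : List (W × Z) :=
  l.zip (run (l.map F))

end Aux

theorem cmb_cons {Z U V W : Type*} {run : List ((Z → Finset (U × V)) × (Z → ℝ)) → List Z}
    (h : ∀ F Fs, ∃ z, run (F :: Fs) = z :: run Fs) (F : W → (Z → Finset (U × V)) × (Z → ℝ))
    (G : W) (l : List W) : ∃ z, cmb run F (G :: l) = (G, z) :: cmb run F l := by
  obtain ⟨z, hz⟩ := h (F G) (l.map F)
  refine ⟨z, ?_⟩
  rw [cmb, List.map_cons, hz, List.zip_cons_cons]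
  rfl

theorem cmb_suffix {Z U V W : Type*} {run : List ((Z → Finset (U × V)) × (Z → ℝ)) → List Z}
    (h : ∀ F Fs, ∃ z, run (F :: Fs) = z :: run Fs) (F : W → (Z → Finset (U × V)) × (Z → ℝ))
    {l l' : List W} (hl : l <:+ l') : cmb run F l <:+ cmb run F l' := by
  obtain ⟨t, rfl⟩ := hl
  induction t with
  | nil => exact List.suffix_refl _
  | cons G t ih =>
    obtain ⟨z, hz⟩ := cmb_cons h F G (t ++ l)
    rw [List.cons_append, hz]
    exact ih.trans (List.suffix_cons _ _)

theorem cmb_zipWith {Z U V W R : Type*} {run : List ((Z → Finset (U × V)) × (Z → ℝ)) → List Z}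
    (F : W → (Z → Finset (U × V)) × (Z → ℝ))
    (f : (Z → Finset (U × V)) × (Z → ℝ) → Z → R) (l : List W) :
    List.zipWith f (l.map F) (run (l.map F)) = (cmb run F l).map (fun p => f (F p.1) p.2) := by
  rw [cmb, List.zipWith_map_left]
  rw [List.zip, List.map_zipWith]

theorem strat_A {Z U V : Type*} [Fintype Z] [Nonempty Z] [Fintype U] [Fintype V]
    (n A B N Δ κ : ℕ) (hA : 0 < A) (hB : 0 < B) (hΔ : 0 < Δ) (hN : 0 < N)
    (hU : Fintype.card U ≤ 2 ^ n) (hV : Fintype.card V ≤ 2 ^ n)
    (hκ : (2 * n + 1) * Fintype.card Z ≤ N * κ) :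
    HasStrat Z U V A B (2 * A) B (4 * N + 1) (fun w x y =>
      κ ≤ ∑ P ∈ range (xc w / Δ),
        (univ.filter (fun z => x ∈ Xs (win Δ P w) z ∧ y ∈ Ys (win Δ P w) z)).card) := by
  have hE : (0 : ℝ) < 2 * N := by positivity
  obtain ⟨run, run0, run1, run2⟩ := sampler (Z := Z) (P := U × V) (2 * N : ℝ) hE
  let F : (Z → Finset U × Finset V) → (Z → Finset (U × V)) × (Z → ℝ) := fun G =>
    (fun z => (G z).1 ×ˢ (G z).2, fun z => ((G z).1.card : ℝ) / A + ((G z).2.card : ℝ) / B)
  let C : List (Z × (U ⊕ V)) → List ((Z → Finset U × Finset V) × Z) := fun w =>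
    cmb run F (Lraw Δ N w)
  have hC : ∀ q w, C w <:+ C (q :: w) := fun q w => cmb_suffix run1 F (Lraw_suffix Δ N w q)
  let SC : List (Z × (U ⊕ V)) → List (Finset U) := fun w => (C w).map (fun p => (p.1 p.2).1)
  let Yc : List (Z × (U ⊕ V)) → ℕ → Finset V := fun w k =>
    (((C w).reverse[k]?).map (fun p => (p.1 p.2).2)).getD ∅
  have hSC : ∀ q w, SC w <:+ SC (q :: w) := fun q w => (hC q w).map _
  have hY : ∀ q w k, Yc w k ⊆ Yc (q :: w) k := by
    intro q w k
    obtain ⟨t, ht⟩ := hC q w
    have e : (C (q :: w)).reverse = (C w).reverse ++ t.reverse := by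
      rw [← ht, List.reverse_append]
    by_cases hk : k < (C w).reverse.length
    · have : (C (q :: w)).reverse[k]? = (C w).reverse[k]? := by
        rw [e, List.getElem?_append_left hk]
      simp only [Yc]
      rw [this]
    · have : (C w).reverse[k]? = none := List.getElem?_eq_none (by omega)
      simp only [Yc]
      rw [this]
      simp
  obtain ⟨cl, hcl, hcl2⟩ := package A B hA hB SC Yc hSC hY
  refine ⟨cl, hcl, fun w hw => ?_⟩
  obtain ⟨hnd, hAB⟩ := hw
  have hmem : ∀ p ∈ C w, ∃ q, p.1 = Graw Δ w q := by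
    intro p hp
    have h1 : p.1 ∈ Lraw Δ N w := by
      have := List.of_mem_zip (show (p.1, p.2) ∈ (Lraw Δ N w).zip (run ((Lraw Δ N w).map F)) from hp)
      exact this.1
    exact mem_stepsAux h1
  have hX : ∀ X ∈ SC w, X.card ≤ A := by
    intro X hX
    obtain ⟨p, hp, rfl⟩ := List.mem_map.1 hX
    obtain ⟨q, hq⟩ := hmem p hp
    rw [hq]
    exact (card_le_card (Xs_win_subset Δ q w p.2)).trans (hAB p.2).1
  obtain ⟨hco, hl, hid⟩ := hcl2 w hX
  -- the sampler applied to the current list
  have hpos : ∀ G ∈ (Lraw Δ N w).map F, ∀ z, 0 ≤ G.2 z := by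
    intro G hG z
    obtain ⟨G', _, rfl⟩ := List.mem_map.1 hG
    simp only [F]
    positivity
  have hAr : (0 : ℝ) < A := by exact_mod_cast hA
  have hBr : (0 : ℝ) < B := by exact_mod_cast hB
  have hZ : (0 : ℝ) < Fintype.card Z := by exact_mod_cast Fintype.card_pos
  have hcost : (((Lraw Δ N w).map F).map (fun F => (∑ z, F.2 z) / (Fintype.card Z : ℝ))).sum
      ≤ 2 * N := by
    rw [List.map_map]
    have h1 := sum_stepsAux Δ N w ((fun F : (Z → Finset (U × V)) × (Z → ℝ) =>
      (∑ z, F.2 z) / (Fintype.card Z : ℝ)) ∘ F) (xc w / Δ)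
    refine (le_of_eq h1).trans ?_
    have h2 : ∑ q ∈ range (xc w / Δ), ((fun F : (Z → Finset (U × V)) × (Z → ℝ) =>
      (∑ z, F.2 z) / (Fintype.card Z : ℝ)) ∘ F) (Graw Δ w q) ≤ 2 := by
      simp only [Function.comp_apply]
      rw [← sum_div, div_le_iff₀ hZ, sum_comm]
      have h3 : ∀ z : Z, ∑ q ∈ range (xc w / Δ), (F (Graw Δ w q)).2 z ≤ 2 := by
        intro z
        simp only [F, Graw]
        rw [sum_add_distrib, ← sum_div, ← sum_div]
        have a1 : (∑ q ∈ range (xc w / Δ), ((Xs (win Δ q w) z).card : ℝ)) ≤ A := by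
          have := (sum_Xs_le (Δ := Δ) hnd z (xc w / Δ)).trans (hAB z).1
          exact_mod_cast this
        have a2 : (∑ q ∈ range (xc w / Δ), ((Ys (win Δ q w) z).card : ℝ)) ≤ B := by
          have := (sum_Ys_le (Δ := Δ) hnd z (xc w / Δ)).trans (hAB z).2
          exact_mod_cast this
        have a3 := (div_le_one hAr).2 a1
        have a4 := (div_le_one hBr).2 a2
        linarith
      refine (sum_le_sum fun z _ => h3 z).trans ?_
      rw [sum_const, card_univ, nsmul_eq_mul]
      linarith
    have hN' : (0 : ℝ) ≤ N := by positivity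
    nlinarith
  obtain ⟨hsum, hhit⟩ := run2 ((Lraw Δ N w).map F) hpos hcost
  refine ⟨?_, hl, ?_⟩
  · intro x y hxy
    rcases hhit (x, y) with h | h
    · obtain ⟨q, hq, hp⟩ := h
      rw [List.zip, cmb_zipWith] at hq
      obtain ⟨p, hp1, rfl⟩ := List.mem_map.1 hq
      simp only [F, mem_product] at hp
      have hp2 : p ∈ (C w).reverse := List.mem_reverse.2 hp1
      obtain ⟨k, hk⟩ := List.mem_iff_getElem?.1 hp2
      have h1 : (SC w).reverse[k]? = some (p.1 p.2).1 := by
        simp only [SC]
        rw [← List.map_reverse, List.getElem?_map, hk]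
        rfl
      have h2 : Yc w k = (p.1 p.2).2 := by
        simp only [Yc]
        rw [hk]
        rfl
      exact hco k _ h1 x hp.1 y (by rw [h2]; exact hp.2)
    · exfalso
      have h' : (((Lraw Δ N w).map F).map (fun F : (Z → Finset (U × V)) × (Z → ℝ) =>
          ((univ.filter (fun z => (x, y) ∈ F.1 z)).card : ℝ) / (Fintype.card Z : ℝ))).sum ≤
          Real.log (2 * Fintype.card (U × V)) := by
        convert h
      rw [List.map_map] at h'
      have h1 := sum_stepsAux Δ N w ((fun F : (Z → Finset (U × V)) × (Z → ℝ) =>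
        ((univ.filter (fun z => (x, y) ∈ F.1 z)).card : ℝ) / (Fintype.card Z : ℝ)) ∘ F)
        (xc w / Δ)
      have h2 := (le_of_eq h1.symm).trans h'
      simp only [Function.comp_apply] at h2
      rw [← sum_div, ← mul_div_assoc, div_le_iff₀ hZ] at h2
      have h3 : (κ : ℝ) ≤ ∑ q ∈ range (xc w / Δ),
          ((univ.filter (fun z => (x, y) ∈ (F (Graw Δ w q)).1 z)).card : ℝ) := by
        have : (∑ q ∈ range (xc w / Δ),
          ((univ.filter (fun z => (x, y) ∈ (F (Graw Δ w q)).1 z)).card : ℝ)) =
          ((∑ P ∈ range (xc w / Δ),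
            (univ.filter (fun z => x ∈ Xs (win Δ P w) z ∧ y ∈ Ys (win Δ P w) z)).card : ℕ) : ℝ) := by
          push_cast
          refine sum_congr rfl fun q _ => ?_
          congr 2
          apply filter_congr
          intro z _
          simp only [F, Graw, mem_product]
        rw [this]
        exact_mod_cast hxy
      have h4 : ((2 * n + 1) * Fintype.card Z : ℝ) ≤ N * κ := by exact_mod_cast hκ
      have h5 : (N : ℝ) * κ ≤ Real.log (2 * Fintype.card (U × V)) * Fintype.card Z := by
        refine le_trans ?_ h2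
        exact mul_le_mul_of_nonneg_left h3 (by positivity)
      have h6 : (2 * n + 1 : ℝ) ≤ Real.log (2 * Fintype.card (U × V)) := by
        have := h4.trans h5
        exact le_of_mul_le_mul_right this hZ
      have hcard : Fintype.card (U × V) ≤ 2 ^ (2 * n) := by
        rw [Fintype.card_prod, two_mul, pow_add]
        exact Nat.mul_le_mul hU hV
      have hcard0 : 0 < Fintype.card (U × V) := Fintype.card_pos_iff.2 ⟨(x, y)⟩
      have h7 : Real.log (2 * Fintype.card (U × V)) ≤ (2 * n + 1) * Real.log 2 := by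
        have h8 : (2 * Fintype.card (U × V) : ℝ) ≤ 2 ^ (2 * n + 1) := by
          rw [pow_succ]
          have : (Fintype.card (U × V) : ℝ) ≤ 2 ^ (2 * n) := by exact_mod_cast hcard
          linarith
        have h9 := Real.log_le_log (by positivity) h8
        rw [Real.log_pow] at h9
        push_cast at h9
        exact h9
      have h10 : Real.log 2 < 1 := by
        have := Real.log_two_lt_d9
        linarith
      have h11 : (0 : ℝ) < 2 * n + 1 := by positivity
      nlinarith
  · refine hid.trans ?_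
    -- the cost of the clusters
    have e1 : (List.zipWith (fun F z => F.2 z) ((Lraw Δ N w).map F) (run ((Lraw Δ N w).map F))).sum
        = (((SC w).map Finset.card).sum : ℝ) / A +
          ((∑ k ∈ range (SC w).length, (Yc w k).card : ℕ) : ℝ) / B := by
      rw [cmb_zipWith]
      have e2 : ((∑ k ∈ range (SC w).length, (Yc w k).card : ℕ)) =
          ((C w).map (fun p => (p.1 p.2).2.card)).sum := by
        have e3 : (SC w).length = (C w).reverse.length := by simp [SC]
        rw [e3]
        have key : ∀ l : List ((Z → Finset U × Finset V) × Z),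
            ∑ k ∈ range l.length, (((l[k]?).map
              (fun p : (Z → Finset U × Finset V) × Z => (p.1 p.2).2)).getD ∅).card =
            (l.map (fun p => (p.1 p.2).2.card)).sum := by
          intro l
          induction l with
          | nil => simp
          | cons a l ih =>
            rw [List.length_cons, sum_range_succ', List.map_cons, List.sum_cons, ← ih, add_comm]
            congr 1
        rw [key, List.map_reverse, List.sum_reverse]
      rw [e2]
      have key2 : ∀ l : List ((Z → Finset U × Finset V) × Z),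
          (l.map (fun p => (F p.1).2 p.2)).sum =
          (((l.map (fun p => (p.1 p.2).1)).map Finset.card).sum : ℝ) / A +
          ((l.map (fun p => (p.1 p.2).2.card)).sum : ℕ) / B := by
        intro l
        induction l with
        | nil => simp
        | cons a l ih =>
          simp only [List.map_cons, List.sum_cons]
          rw [ih]
          simp only [F]
          push_cast
          ring
      exact key2 (C w)
    rw [e1] at hsum
    have f1 : (((((SC w).map Finset.card).sum / A : ℕ)) : ℝ) ≤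
        (((SC w).map Finset.card).sum : ℝ) / A := Nat.cast_div_le
    have f2 : ((((∑ k ∈ range (SC w).length, (Yc w k).card) / B : ℕ)) : ℝ) ≤
        ((∑ k ∈ range (SC w).length, (Yc w k).card : ℕ) : ℝ) / B := Nat.cast_div_le
    have f3 : (((((SC w).map Finset.card).sum / A +
        (∑ k ∈ range (SC w).length, (Yc w k).card) / B : ℕ)) : ℝ) ≤ ((4 * N : ℕ) : ℝ) := by
      push_cast at hsum f1 f2 ⊢
      linarith
    have f4 := Nat.cast_le.1 f3
    omega

end Pool.Agent.Helper760.Cov.J1114
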