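import Mathlib
import Pool.Agent.Helper760.Cov.Base1

set_option autoImplicit false

namespace Pool.Agent.Helper760.Cov.J1116

open Finset
open scoped Classical

section aux

theorem win_cons' {Z U V : Type*} (Δ P : ℕ) (q : Z × (U ⊕ V)) (w : List (Z × (U ⊕ V))) :
    win Δ P (q :: w) =
      if P * Δ ≤ xc w ∧ xc w < (P + 1) * Δ then q :: win Δ P w else win Δ P w := rfl

theorem win_sublist' {Z U V : Type*} (Δ P : ℕ) (w : List (Z × (U ⊕ V))) :
    (win Δ P w).Sublist w := by
  induction w with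
  | nil => exact List.Sublist.slnil
  | cons q w ih =>
    rw [win_cons']
    split_ifs
    · exact ih.cons_cons q
    · exact ih.cons q

theorem xc_cons_ge {Z U V : Type*} (q : Z × (U ⊕ V)) (w : List (Z × (U ⊕ V))) :
    xc w ≤ xc (q :: w) := by
  unfold xc
  rw [List.countP_cons]
  omega

theorem win_complete {Z U V : Type*} {Δ P : ℕ} (q : Z × (U ⊕ V)) (w : List (Z × (U ⊕ V)))
    (hΔ : 0 < Δ) (hP : P < xc w / Δ) : win Δ P (q :: w) = win Δ P w := by
  rw [win_cons', if_neg]
  rintro ⟨-, h⟩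
  have h1 : (P + 1) * Δ ≤ xc w := (Nat.le_div_iff_mul_le hΔ).mp hP
  omega

theorem win_nonempty {Z U V : Type*} {Δ P : ℕ} (w : List (Z × (U ⊕ V))) (q : Z × (U ⊕ V))
    (hq : q ∈ win Δ P w) : P * Δ ≤ xc w := by
  induction w with
  | nil => exact absurd hq (by simp [win, seg])
  | cons a w ih =>
    rw [win_cons'] at hq
    split_ifs at hq with h
    · exact h.1.trans (xc_cons_ge a w)
    · exact (ih hq).trans (xc_cons_ge a w)

theorem sum_countP_win {Z U V : Type*} (p : Z × (U ⊕ V) → Bool) (Δ M : ℕ) (hΔ : 0 < Δ)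
    (w : List (Z × (U ⊕ V))) :
    ∑ P ∈ range M, (win Δ P w).countP p ≤ w.countP p := by
  induction w with
  | nil => simp [win, seg]
  | cons q w ih =>
    have h1 : ∀ P, (win Δ P (q :: w)).countP p =
        (win Δ P w).countP p + if (xc w / Δ = P ∧ p q = true) then 1 else 0 := by
      intro P
      rw [win_cons']
      have h2 : (P * Δ ≤ xc w ∧ xc w < (P + 1) * Δ) ↔ xc w / Δ = P := by
        rw [← Nat.le_div_iff_mul_le hΔ, ← Nat.div_lt_iff_lt_mul hΔ]
        omega
      by_cases h3 : xc w / Δ = P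
      · rw [if_pos (h2.mpr h3), List.countP_cons]
        simp only [h3, true_and]
      · rw [if_neg (fun h => h3 (h2.mp h)), if_neg (fun h => h3 h.1), add_zero]
    rw [Finset.sum_congr rfl (fun P _ => h1 P), Finset.sum_add_distrib, List.countP_cons]
    refine Nat.add_le_add ih ?_
    by_cases hq : p q = true
    · simp only [hq, and_true, if_true]
      rw [Finset.sum_ite_eq]
      split_ifs <;> simp
    · simp [hq]

theorem sum_countP_right {Z U V : Type*} [Fintype V] (l : List (Z × (U ⊕ V))) :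
    ∑ y : V, l.countP (fun q => decide (q.2 = Sum.inr y)) = l.countP (fun q => q.2.isRight) := by
  induction l with
  | nil => simp
  | cons q l ih =>
    simp only [List.countP_cons, Finset.sum_add_distrib, ih]
    congr 1
    rcases q with ⟨z, x | y⟩
    · simp
    · simp

theorem countP_right_le {Z U V : Type*} [Fintype Z] [Fintype U] [Fintype V]
    (w : List (Z × (U ⊕ V))) (hw : w.Nodup) :
    w.countP (fun q => q.2.isRight) ≤ ∑ z, (Ys w z).card := by
  rw [List.countP_eq_length_filter, ← List.toFinset_card_of_nodup (hw.filter _),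
    ← Finset.card_sigma]
  calc _ ≤ ((univ.sigma (fun z => Ys w z)).image
        (fun p => ((p.1, Sum.inr p.2) : Z × (U ⊕ V)))).card := by
        apply Finset.card_le_card
        intro q hq
        rw [List.mem_toFinset, List.mem_filter] at hq
        rcases q with ⟨z, x | y⟩
        · simp at hq
        · rw [mem_image]
          refine ⟨⟨z, y⟩, ?_, rfl⟩
          rw [mem_sigma]
          refine ⟨mem_univ _, ?_⟩
          rw [Ys, mem_filter]
          exact ⟨mem_univ _, hq.1⟩
    _ ≤ _ := Finset.card_image_le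

/-- the times at which `y` was put into the sets, in the window `R`, latest first -/
noncomputable def arr {Z U V : Type*} (Δ R : ℕ) (w : List (Z × (U ⊕ V))) (y : V) : List Z :=
  ((win Δ R w).filter (fun q => decide (q.2 = Sum.inr y))).map Prod.fst

theorem arr_length {Z U V : Type*} (Δ R : ℕ) (w : List (Z × (U ⊕ V))) (y : V) :
    (arr Δ R w y).length = (win Δ R w).countP (fun q => decide (q.2 = Sum.inr y)) := by
  rw [arr, List.length_map, List.countP_eq_length_filter]

theorem mem_arr {Z U V : Type*} (Δ R : ℕ) (w : List (Z × (U ⊕ V))) (y : V) (z : Z) :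
    z ∈ arr Δ R w y ↔ (z, Sum.inr y) ∈ win Δ R w := by
  unfold arr
  rw [List.mem_map]
  constructor
  · rintro ⟨⟨z', u⟩, h1, rfl⟩
    rw [List.mem_filter] at h1
    have h2 : u = Sum.inr y := by simpa using h1.2
    rw [← h2]
    exact h1.1
  · intro h
    refine ⟨(z, Sum.inr y), ?_, rfl⟩
    rw [List.mem_filter]
    exact ⟨h, by simp⟩

theorem arr_nodup {Z U V : Type*} (Δ R : ℕ) (w : List (Z × (U ⊕ V))) (hw : w.Nodup) (y : V) :
    (arr Δ R w y).Nodup := by
  unfold arr
  refine List.Nodup.map_on ?_ (((win_sublist' Δ R w).nodup hw).filter _)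
  rintro ⟨z1, u1⟩ h1 ⟨z2, u2⟩ h2 h3
  rw [List.mem_filter] at h1 h2
  have h4 : u1 = Sum.inr y := by simpa using h1.2
  have h5 : u2 = Sum.inr y := by simpa using h2.2
  have h6 : z1 = z2 := h3
  rw [h4, h5, h6]

theorem arr_cons {Z U V : Type*} (Δ R : ℕ) (q : Z × (U ⊕ V)) (w : List (Z × (U ⊕ V))) (y : V) :
    arr Δ R (q :: w) y = arr Δ R w y ∨ arr Δ R (q :: w) y = q.1 :: arr Δ R w y := by
  unfold arr
  rw [win_cons']
  split_ifs with h
  · rw [List.filter_cons]
    split_ifs with h2
    · right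
      rfl
    · left
      rfl
  · left
    rfl

theorem blk_cons {Z : Type*} (c j : ℕ) (a : Z) (l : List Z) (h : (j + 1) * c ≤ l.length) :
    blk c j (a :: l) = blk c j l := by
  have h1 : (j + 1) * c = j * c + c := by ring
  unfold blk
  congr 1
  rw [List.reverse_cons, List.drop_append_of_le_length, List.take_append_of_le_length]
  · rw [List.length_drop, List.length_reverse]
    omega
  · rw [List.length_reverse]
    omega

theorem blk_card {Z : Type*} (c j : ℕ) (l : List Z) : (blk c j l).card ≤ c := by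
  unfold blk
  refine (List.toFinset_card_le _).trans ?_
  rw [List.length_take]
  exact min_le_left _ _

/-- X-part of the window `P` -/
noncomputable def XPw {Z U V : Type*} [Fintype U] [Fintype V] (Δ : ℕ)
    (w : List (Z × (U ⊕ V))) (P : ℕ) : Z → Finset U := fun z => Xs (win Δ P w) z

theorem Xs_mono {Z U V : Type*} [Fintype U] [Fintype V] {w w' : List (Z × (U ⊕ V))}
    (h : w ⊆ w') (z : Z) : Xs w z ⊆ Xs w' z := by
  intro x hx
  rw [Xs, mem_filter] at hx ⊢
  exact ⟨mem_univ _, h hx.2⟩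

/-- Y-part -/
noncomputable def Yk {Z U V : Type*} [Fintype U] [Fintype V] (Δ N κ0 I : ℕ)
    (C : (Z → Finset U) → Finset Z → Finset (Fin N)) (w : List (Z × (U ⊕ V))) (P : ℕ)
    (i : Fin N) : Finset V :=
  univ.filter (fun y => P < xc w / Δ ∧ ∃ i' ≤ I, ∃ j,
    (j + 1) * (κ0 * 2 ^ i') ≤ (arr Δ (P + 1) w y).length ∧
      i ∈ C (XPw Δ w P) (blk (κ0 * 2 ^ i') j (arr Δ (P + 1) w y)))

theorem Yk_mono {Z U V : Type*} [Fintype U] [Fintype V] {Δ N κ0 I : ℕ} (hΔ : 0 < Δ)
    (C : (Z → Finset U) → Finset Z → Finset (Fin N)) (q : Z × (U ⊕ V))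
    (w : List (Z × (U ⊕ V))) (P : ℕ) (i : Fin N) :
    Yk Δ N κ0 I C w P i ⊆ Yk Δ N κ0 I C (q :: w) P i := by
  intro y hy
  rw [Yk, mem_filter] at hy ⊢
  obtain ⟨-, h1, i', hi', j, h2, h3⟩ := hy
  refine ⟨mem_univ _, h1.trans_le (Nat.div_le_div_right (xc_cons_ge q w)), i', hi', j, ?_, ?_⟩
  · rcases arr_cons Δ (P + 1) q w y with h | h
    · rw [h]
      exact h2
    · rw [h, List.length_cons]
      omega
  · have h4 : XPw Δ (q :: w) P = XPw Δ w P := by
      funext z
      unfold XPw
      rw [win_complete q w hΔ h1]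
    have h5 : blk (κ0 * 2 ^ i') j (arr Δ (P + 1) (q :: w) y) =
        blk (κ0 * 2 ^ i') j (arr Δ (P + 1) w y) := by
      rcases arr_cons Δ (P + 1) q w y with h | h
      · rw [h]
      · rw [h, blk_cons _ _ _ _ h2]
    rw [h4, h5]
    exact h3

theorem Yk_bound {Z U V : Type*} [Fintype U] [Fintype V] {Δ N κ0 I κ1 G : ℕ} (hκ0 : 0 < κ0)
    (C : (Z → Finset U) → Finset Z → Finset (Fin N))
    (hC : ∀ X D, (C X D).card * κ1 ≤ G * D.card)
    (w : List (Z × (U ⊕ V))) (P : ℕ) :
    (∑ i, (Yk Δ N κ0 I C w P i).card) * κ1 ≤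
      G * (I + 1) * (win Δ (P + 1) w).countP (fun q => q.2.isRight) := by
  have h1 : ∑ i, (Yk Δ N κ0 I C w P i).card ≤ ∑ y : V, (univ.filter (fun i : Fin N =>
      ∃ i' ≤ I, ∃ j, (j + 1) * (κ0 * 2 ^ i') ≤ (arr Δ (P + 1) w y).length ∧
      i ∈ C (XPw Δ w P) (blk (κ0 * 2 ^ i') j (arr Δ (P + 1) w y)))).card := by
    calc ∑ i, (Yk Δ N κ0 I C w P i).card ≤ ∑ i : Fin N, (univ.filter (fun y : V =>
        ∃ i' ≤ I, ∃ j, (j + 1) * (κ0 * 2 ^ i') ≤ (arr Δ (P + 1) w y).length ∧
        i ∈ C (XPw Δ w P) (blk (κ0 * 2 ^ i') j (arr Δ (P + 1) w y)))).card := by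
          refine Finset.sum_le_sum fun i _ => Finset.card_le_card ?_
          intro y hy
          rw [Yk, mem_filter] at hy
          rw [mem_filter]
          exact ⟨mem_univ _, hy.2.2⟩
      _ = _ := by
          simp only [Finset.card_filter]
          exact Finset.sum_comm
  have h2 : ∀ y : V, (univ.filter (fun i : Fin N =>
      ∃ i' ≤ I, ∃ j, (j + 1) * (κ0 * 2 ^ i') ≤ (arr Δ (P + 1) w y).length ∧
      i ∈ C (XPw Δ w P) (blk (κ0 * 2 ^ i') j (arr Δ (P + 1) w y)))).card * κ1 ≤
      G * (I + 1) * (arr Δ (P + 1) w y).length := by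
    intro y
    have h3 : (univ.filter (fun i : Fin N =>
      ∃ i' ≤ I, ∃ j, (j + 1) * (κ0 * 2 ^ i') ≤ (arr Δ (P + 1) w y).length ∧
      i ∈ C (XPw Δ w P) (blk (κ0 * 2 ^ i') j (arr Δ (P + 1) w y)))) ⊆
      (range (I + 1)).biUnion (fun i' => (range ((arr Δ (P + 1) w y).length / (κ0 * 2 ^ i'))).biUnion
        (fun j => C (XPw Δ w P) (blk (κ0 * 2 ^ i') j (arr Δ (P + 1) w y)))) := by
      intro i hi
      rw [mem_filter] at hi
      obtain ⟨-, i', hi', j, h4, h5⟩ := hi
      rw [mem_biUnion]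
      refine ⟨i', mem_range.mpr (by omega), ?_⟩
      rw [mem_biUnion]
      refine ⟨j, ?_, h5⟩
      rw [mem_range]
      have hpos : 0 < κ0 * 2 ^ i' := by positivity
      exact (Nat.le_div_iff_mul_le hpos).mpr h4
    calc _ ≤ (∑ i' ∈ range (I + 1), ∑ j ∈ range ((arr Δ (P + 1) w y).length / (κ0 * 2 ^ i')),
          (C (XPw Δ w P) (blk (κ0 * 2 ^ i') j (arr Δ (P + 1) w y))).card) * κ1 := by
          refine Nat.mul_le_mul_right _ ?_
          refine (Finset.card_le_card h3).trans ?_
          refine Finset.card_biUnion_le.trans ?_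
          exact Finset.sum_le_sum fun i' _ => Finset.card_biUnion_le
      _ = ∑ i' ∈ range (I + 1), ∑ j ∈ range ((arr Δ (P + 1) w y).length / (κ0 * 2 ^ i')),
          (C (XPw Δ w P) (blk (κ0 * 2 ^ i') j (arr Δ (P + 1) w y))).card * κ1 := by
          rw [Finset.sum_mul]
          refine Finset.sum_congr rfl fun i' _ => ?_
          rw [Finset.sum_mul]
      _ ≤ ∑ i' ∈ range (I + 1), ∑ j ∈ range ((arr Δ (P + 1) w y).length / (κ0 * 2 ^ i')),
          G * (κ0 * 2 ^ i') := by
          refine Finset.sum_le_sum fun i' _ => Finset.sum_le_sum fun j _ => ?_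
          exact (hC _ _).trans (Nat.mul_le_mul_left _ (blk_card _ _ _))
      _ ≤ ∑ i' ∈ range (I + 1), G * (arr Δ (P + 1) w y).length := by
          refine Finset.sum_le_sum fun i' _ => ?_
          rw [Finset.sum_const, card_range, smul_eq_mul]
          calc (arr Δ (P + 1) w y).length / (κ0 * 2 ^ i') * (G * (κ0 * 2 ^ i'))
              = G * ((arr Δ (P + 1) w y).length / (κ0 * 2 ^ i') * (κ0 * 2 ^ i')) := by ring
            _ ≤ _ := Nat.mul_le_mul_left _ (Nat.div_mul_le_self _ _)
      _ = _ := by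
          rw [Finset.sum_const, card_range, smul_eq_mul]
          ring
  calc (∑ i, (Yk Δ N κ0 I C w P i).card) * κ1 ≤ _ := Nat.mul_le_mul_right _ h1
    _ ≤ ∑ y : V, G * (I + 1) * (arr Δ (P + 1) w y).length := by
        rw [Finset.sum_mul]
        exact Finset.sum_le_sum fun y _ => h2 y
    _ = _ := by
        rw [← Finset.mul_sum, ← sum_countP_right]
        congr 1
        exact Finset.sum_congr rfl fun y _ => arr_length _ _ _ _

theorem sum_range_mul' (f : ℕ → ℕ) (M N : ℕ) :
    ∑ k ∈ range (M * N), f k = ∑ P ∈ range M, ∑ i ∈ range N, f (P * N + i) := by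
  induction M with
  | zero => simp
  | succ M ih =>
    rw [Nat.succ_mul, Finset.sum_range_add, ih, Finset.sum_range_succ]

theorem list_sum_range' (f : ℕ → ℕ) (n : ℕ) :
    ((List.range n).map f).sum = ∑ k ∈ range n, f k := by
  induction n with
  | zero => simp
  | succ n ih =>
    rw [List.range_succ, List.map_append, List.sum_append, ih, Finset.sum_range_succ]
    simp

theorem map_range_prefix {α : Type*} (f g : ℕ → α) (a b : ℕ) (hab : a ≤ b)
    (h : ∀ k < a, f k = g k) : (List.range a).map f <+: (List.range b).map g := by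
  obtain ⟨c, rfl⟩ := Nat.exists_eq_add_of_le hab
  rw [List.range_add, List.map_append]
  have : (List.range a).map f = (List.range a).map g := by
    refine List.map_congr_left fun k hk => h k (List.mem_range.mp hk)
  rw [this]
  exact List.prefix_append _ _

end aux

theorem strat_B {Z U V : Type*} [Fintype Z] [Nonempty Z] [Fintype U] [Fintype V]
    (n s J I A B N Δ κ κ0 κ1 : ℕ) (hA : 0 < A) (hB : 0 < B) (hΔ : 0 < Δ)
    (hU : Fintype.card U ≤ 2 ^ n) (hs : 1 ≤ s) (hJ1 : 1 ≤ J) (hκ1 : 1 ≤ κ1) (hκ0 : 0 < κ0)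
    (hJ : 2 * Fintype.card Z ≤ κ1 * 2 ^ J)
    (hN : 4 * J * Fintype.card Z * (8 * s ^ 2 * n + 4 * J) ≤ N * κ1) (hNs : 2 * N < 4 ^ s)
    (hI : Fintype.card Z < κ0 * 2 ^ (I + 1)) (hκ : κ0 + (I + 1) * κ1 ≤ κ) :
    HasStrat Z U V A B (2 * A) B
      (2 * N + 1 + (64 * s * n + 1) * (I + 1) * Fintype.card Z / κ1) (fun w x y =>
      κ ≤ (univ.filter (fun z => x ∈ Xs (win Δ (2 * (xc w / (2 * Δ))) w) z ∧
          y ∈ Ys (win Δ (2 * (xc w / (2 * Δ)) + 1) w) z)).card) := by
  have hm : 0 < Fintype.card Z := Fintype.card_pos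
  have hNpos : 0 < N := by
    rcases Nat.eq_zero_or_pos N with h | h
    · exfalso
      rw [h, zero_mul] at hN
      have h1 : 0 < 4 * J * Fintype.card Z * (8 * s ^ 2 * n + 4 * J) := by positivity
      omega
    · exact h
  choose ζ hζ1 hζ2 using fun X : Z → Finset U =>
    cover_lemma n s J κ1 N X hU hs hJ1 hκ1 hJ hN hNs
  choose C hC1 hC2 using hζ1
  have hmodlt : ∀ k, k % N < N := fun k => Nat.mod_lt _ hNpos
  let fk : List (Z × (U ⊕ V)) → ℕ → Finset U := fun w k =>
    XPw Δ w (k / N) (ζ (XPw Δ w (k / N)) ⟨k % N, hmodlt k⟩)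
  let SC : List (Z × (U ⊕ V)) → List (Finset U) := fun w =>
    ((List.range (xc w / Δ * N)).map (fk w)).reverse
  let Yc : List (Z × (U ⊕ V)) → ℕ → Finset V := fun w k =>
    Yk Δ N κ0 I C w (k / N) ⟨k % N, hmodlt k⟩
  have hdiv : ∀ (P : ℕ) (i : Fin N), (P * N + i) / N = P := by
    intro P i
    rw [mul_comm, Nat.mul_add_div hNpos, Nat.div_eq_of_lt i.2, add_zero]
  have hmod : ∀ (P : ℕ) (i : Fin N), (P * N + i) % N = i := by
    intro P i
    rw [mul_comm, Nat.mul_add_mod, Nat.mod_eq_of_lt i.2]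
  have hfk : ∀ w P (i : Fin N), fk w (P * N + i) = XPw Δ w P (ζ (XPw Δ w P) i) := by
    intro w P i
    have h2 : (⟨(P * N + i) % N, hmodlt (P * N + i)⟩ : Fin N) = i := Fin.ext (hmod P i)
    show XPw Δ w ((P * N + i) / N) (ζ (XPw Δ w ((P * N + i) / N)) ⟨(P * N + i) % N, _⟩) = _
    rw [h2, hdiv P i]
  have hYc : ∀ w P (i : Fin N), Yc w (P * N + i) = Yk Δ N κ0 I C w P i := by
    intro w P i
    have h2 : (⟨(P * N + i) % N, hmodlt (P * N + i)⟩ : Fin N) = i := Fin.ext (hmod P i)
    show Yk Δ N κ0 I C w ((P * N + i) / N) ⟨(P * N + i) % N, _⟩ = _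
    rw [h2, hdiv P i]
  have hSC : ∀ q w, SC w <:+ SC (q :: w) := by
    intro q w
    show ((List.range (xc w / Δ * N)).map (fk w)).reverse <:+
      ((List.range (xc (q :: w) / Δ * N)).map (fk (q :: w))).reverse
    rw [List.reverse_suffix]
    refine map_range_prefix _ _ _ _
      (Nat.mul_le_mul_right _ (Nat.div_le_div_right (xc_cons_ge q w))) ?_
    intro k hk
    have h1 : k / N < xc w / Δ := (Nat.div_lt_iff_lt_mul hNpos).mpr hk
    have h4 : XPw Δ (q :: w) (k / N) = XPw Δ w (k / N) := by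
      funext z
      unfold XPw
      rw [win_complete q w hΔ h1]
    show XPw Δ w (k / N) (ζ (XPw Δ w (k / N)) ⟨k % N, _⟩) =
      XPw Δ (q :: w) (k / N) (ζ (XPw Δ (q :: w) (k / N)) ⟨k % N, _⟩)
    rw [h4]
  have hY : ∀ q w k, Yc w k ⊆ Yc (q :: w) k := fun q w k => Yk_mono hΔ C q w _ _
  obtain ⟨cl, hcl1, hcl2⟩ := package A B hA hB SC Yc hSC hY
  refine ⟨cl, hcl1, ?_⟩
  intro w hw
  obtain ⟨hnd, hcard⟩ := hw
  have hXcard : ∀ X ∈ SC w, X.card ≤ A := by
    intro X hX
    have hX' : X ∈ ((List.range (xc w / Δ * N)).map (fk w)).reverse := hX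
    rw [List.mem_reverse, List.mem_map] at hX'
    obtain ⟨k, -, rfl⟩ := hX'
    refine (Finset.card_le_card ?_).trans (hcard (ζ (XPw Δ w (k / N)) ⟨k % N, hmodlt k⟩)).1
    exact Xs_mono (win_sublist' _ _ _).subset _
  obtain ⟨h1, h2, h3⟩ := hcl2 w hXcard
  refine ⟨?_, h2, h3.trans ?_⟩
  · intro x y hd
    have hpos : 0 < (univ.filter (fun z => x ∈ Xs (win Δ (2 * (xc w / (2 * Δ))) w) z ∧
          y ∈ Ys (win Δ (2 * (xc w / (2 * Δ)) + 1) w) z)).card := by omega
    obtain ⟨z0, hz0⟩ := Finset.card_pos.mp hpos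
    rw [mem_filter] at hz0
    obtain ⟨-, hz1, hz2⟩ := hz0
    rw [Ys, mem_filter] at hz2
    have hL : (2 * (xc w / (2 * Δ)) + 1) * Δ ≤ xc w := win_nonempty w _ hz2.2
    set L := 2 * (xc w / (2 * Δ)) with hLdef
    have hL2 : L < xc w / Δ := (Nat.le_div_iff_mul_le hΔ).mpr hL
    set l := arr Δ (L + 1) w y with hl
    have hlnd : l.Nodup := arr_nodup Δ (L + 1) w hnd y
    have hllen : l.length < κ0 * 2 ^ (I + 1) := (hlnd.length_le_card).trans_lt hI
    obtain ⟨i', hi', j, h5, h6⟩ := dyadic κ κ0 κ1 I hκ0 hκ l hlnd hllen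
      (univ.filter (fun z => x ∈ XPw Δ w L z)) (by
        refine hd.trans (Finset.card_le_card ?_)
        intro z hz
        rw [mem_filter] at hz
        rw [mem_inter, List.mem_toFinset, mem_filter, mem_arr]
        refine ⟨?_, mem_univ _, hz.2.1⟩
        have := hz.2.2
        rw [Ys, mem_filter] at this
        exact this.2)
    obtain ⟨i, hi, hxi⟩ := hC2 (XPw Δ w L) (blk (κ0 * 2 ^ i') j l) x (by
      refine h6.trans (Finset.card_le_card ?_)
      intro z hz
      rw [mem_inter, mem_filter] at hz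
      rw [mem_filter]
      exact ⟨hz.1, hz.2.2⟩)
    refine h1 (L * N + i) (XPw Δ w L (ζ (XPw Δ w L) i)) ?_ x hxi y ?_
    · show (((List.range (xc w / Δ * N)).map (fk w)).reverse).reverse[L * N + (i : ℕ)]? = _
      rw [List.reverse_reverse, List.getElem?_map, List.getElem?_range, Option.map_some, hfk]
      have := i.2
      calc L * N + (i : ℕ) < L * N + N := by omega
        _ = (L + 1) * N := by ring
        _ ≤ _ := Nat.mul_le_mul_right _ hL2
    · rw [hYc, Yk, mem_filter]
      exact ⟨mem_univ _, hL2, i', hi', j, h5, hi⟩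
  · have hS1 : ((SC w).map Finset.card).sum = ∑ P ∈ range (xc w / Δ),
        ∑ i : Fin N, (XPw Δ w P (ζ (XPw Δ w P) i)).card := by
      show ((((List.range (xc w / Δ * N)).map (fk w)).reverse).map Finset.card).sum = _
      rw [List.map_reverse, List.sum_reverse, List.map_map]
      have : ((List.range (xc w / Δ * N)).map (Finset.card ∘ fk w)).sum =
          ∑ k ∈ range (xc w / Δ * N), (fk w k).card := list_sum_range' _ _
      rw [this, sum_range_mul']
      refine Finset.sum_congr rfl fun P _ => ?_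
      rw [Finset.sum_range]
      exact Finset.sum_congr rfl fun i _ => by rw [hfk]
    have hS2 : Fintype.card Z * ((SC w).map Finset.card).sum ≤
        Fintype.card Z * (2 * N * A) := by
      rw [hS1, Finset.mul_sum]
      calc ∑ P ∈ range (xc w / Δ), Fintype.card Z *
            ∑ i : Fin N, (XPw Δ w P (ζ (XPw Δ w P) i)).card
          ≤ ∑ P ∈ range (xc w / Δ), 2 * N * ∑ z, (XPw Δ w P z).card :=
            Finset.sum_le_sum fun P _ => hζ2 _
        _ = 2 * N * ∑ P ∈ range (xc w / Δ), xc (win Δ P w) := by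
            rw [Finset.mul_sum]
            refine Finset.sum_congr rfl fun P _ => ?_
            rw [xc_eq (win Δ P w) ((win_sublist' Δ P w).nodup hnd)]
            rfl
        _ ≤ 2 * N * xc w := Nat.mul_le_mul_left _ (sum_countP_win _ Δ _ hΔ w)
        _ = 2 * N * ∑ z, (Xs w z).card := by rw [xc_eq w hnd]
        _ ≤ 2 * N * ∑ z : Z, A :=
            Nat.mul_le_mul_left _ (Finset.sum_le_sum fun z _ => (hcard z).1)
        _ = _ := by
            rw [Finset.sum_const, card_univ, smul_eq_mul]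
            ring
    have hS3 : ((SC w).map Finset.card).sum ≤ 2 * N * A := Nat.le_of_mul_le_mul_left hS2 hm
    have hS4 : ((SC w).map Finset.card).sum / A ≤ 2 * N := by
      rw [Nat.div_le_iff_le_mul_add_pred hA]
      calc _ ≤ 2 * N * A := hS3
        _ = A * (2 * N) := by ring
        _ ≤ _ := Nat.le_add_right _ _
    have hlen : (SC w).length = xc w / Δ * N := by
      show ((List.range (xc w / Δ * N)).map (fk w)).reverse.length = _
      rw [List.length_reverse, List.length_map, List.length_range]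
    have hT1 : ∑ k ∈ range (SC w).length, (Yc w k).card =
        ∑ P ∈ range (xc w / Δ), ∑ i : Fin N, (Yk Δ N κ0 I C w P i).card := by
      rw [hlen, sum_range_mul']
      refine Finset.sum_congr rfl fun P _ => ?_
      rw [Finset.sum_range]
      exact Finset.sum_congr rfl fun i _ => by rw [hYc]
    have hT2 : (∑ k ∈ range (SC w).length, (Yc w k).card) * κ1 ≤
        (64 * s * n + 1) * (I + 1) * Fintype.card Z * B := by
      rw [hT1, Finset.sum_mul]
      calc ∑ P ∈ range (xc w / Δ), (∑ i : Fin N, (Yk Δ N κ0 I C w P i).card) * κ1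
          ≤ ∑ P ∈ range (xc w / Δ), (64 * s * n + 1) * (I + 1) *
            (win Δ (P + 1) w).countP (fun q => q.2.isRight) :=
            Finset.sum_le_sum fun P _ => Yk_bound hκ0 C hC1 w P
        _ = (64 * s * n + 1) * (I + 1) * ∑ P ∈ range (xc w / Δ),
            (win Δ (P + 1) w).countP (fun q => q.2.isRight) := by rw [Finset.mul_sum]
        _ ≤ (64 * s * n + 1) * (I + 1) * ∑ P ∈ range (xc w / Δ + 1),
            (win Δ P w).countP (fun q => q.2.isRight) := by
            refine Nat.mul_le_mul_left _ ?_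
            rw [Finset.sum_range_succ']
            exact Nat.le_add_right _ _
        _ ≤ (64 * s * n + 1) * (I + 1) * w.countP (fun q => q.2.isRight) :=
            Nat.mul_le_mul_left _ (sum_countP_win _ Δ _ hΔ w)
        _ ≤ (64 * s * n + 1) * (I + 1) * ∑ z, (Ys w z).card :=
            Nat.mul_le_mul_left _ (countP_right_le w hnd)
        _ ≤ (64 * s * n + 1) * (I + 1) * ∑ z : Z, B :=
            Nat.mul_le_mul_left _ (Finset.sum_le_sum fun z _ => (hcard z).2)
        _ = _ := by
            rw [Finset.sum_const, card_univ, smul_eq_mul]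
            ring
    have hT3 : (∑ k ∈ range (SC w).length, (Yc w k).card) / B ≤
        (64 * s * n + 1) * (I + 1) * Fintype.card Z / κ1 := by
      rw [Nat.le_div_iff_mul_le hκ1]
      refine Nat.le_of_mul_le_mul_right ?_ hB
      refine le_trans ?_ hT2
      calc (∑ k ∈ range (SC w).length, (Yc w k).card) / B * κ1 * B
          = ((∑ k ∈ range (SC w).length, (Yc w k).card) / B * B) * κ1 := by ring
        _ ≤ _ := Nat.mul_le_mul_right _ (Nat.div_mul_le_self _ _)
    omega

end Pool.Agent.Helper760.Cov.J1116
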