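import Mathlib
import Pool.Agent.Helper760.Cov.Num
import Pool.Agent.Helper760.Cov.Base1
import Pool.Agent.Helper760.Cov.J1114
import Pool.Agent.Helper760.Cov.J1116

set_option autoImplicit false

namespace Pool.Agent.Helper760.Cov

open Finset
open scoped Classical

alias strat_A := J1114.strat_A
alias strat_B := J1116.strat_B

section
variable {Z U V : Type*} [Fintype Z] [Fintype U] [Fintype V]

theorem strat_false (A B a b : ℕ) :
    HasStrat Z U V A B a b 0 (fun _ _ _ => False) := by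
  refine ⟨fun _ => ∅, fun _ _ => by simp, fun w _ => ⟨fun _ _ h => h.elim, ?_, ?_⟩⟩
  · intro i; simp [lX, lY]
  · simp [ids]

theorem strat_exists {A B a b N : ℕ} (G : ℕ) (dem : ℕ → List (Z × (U ⊕ V)) → U → V → Prop)
    (h : ∀ i < G, HasStrat Z U V A B a b N (dem i)) :
    HasStrat Z U V A B a b (G * N) (fun w x y => ∃ i < G, dem i w x y) := by
  induction G with
  | zero =>
    refine strat_mono (strat_false A B a b) le_rfl le_rfl (Nat.zero_le _) ?_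
    rintro w x y _ ⟨i, hi, _⟩
    omega
  | succ G ih =>
    have h1 := ih (fun i hi => h i (by omega))
    have h2 := strat_or h1 (h G (by omega))
    refine strat_mono h2 le_rfl le_rfl (by rw [Nat.succ_mul]) ?_
    rintro w x y _ ⟨i, hi, hd⟩
    rcases Nat.lt_succ_iff_lt_or_eq.1 hi with h3 | h3
    · exact Or.inl ⟨i, h3, hd⟩
    · subst h3; exact Or.inr hd

theorem hg_bound1 (n : ℕ) : 4 * (hg n + 1) < 2 ^ (n + 6) := by
  unfold hg
  induction n with
  | zero => norm_num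
  | succ n ih => rw [show n + 1 + 6 = (n + 6) + 1 by ring, pow_succ]; omega

theorem xc_le {A B : ℕ} (w : List (Z × (U ⊕ V))) (hw : Legal A B w) :
    xc w ≤ Fintype.card Z * A := by
  rw [xc_eq w hw.1]
  calc ∑ z, (Xs w z).card ≤ ∑ _z : Z, A := Finset.sum_le_sum (fun z _ => (hw.2 z).1)
    _ = Fintype.card Z * A := by simp

theorem nB_bound (n γ : ℕ) (hγ : γ ≤ n) : 2 * nB n γ < 4 ^ (2 * hg n) := by
  have hpow : 2 ^ γ ≤ 2 ^ n := Nat.pow_le_pow_right (by norm_num) hγ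
  have h0 : nB n γ ≤ 8 * hg n * 2 ^ n * (8 * (hg n + 1) ^ 2) *
      (8 * (2 * hg n) ^ 2 * n + 8 * hg n) := by
    unfold nB
    gcongr
  refine lt_of_le_of_lt (Nat.mul_le_mul_left 2 h0) ?_
  rcases Nat.lt_or_ge n 2 with hn | hn
  · interval_cases n <;> norm_num [hg]
  · have hG := (hg_bound1 n).le
    have hn2 : n + 1 ≤ 2 ^ n := Nat.lt_two_pow_self
    set g := hg n with hg'
    have h1 : 2 * (8 * g * 2 ^ n * (8 * (g + 1) ^ 2) * (8 * (2 * g) ^ 2 * n + 8 * g)) ≤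
        4 * 2 ^ n * (4 * (g + 1)) ^ 5 * (n + 1) := by
      have h2 : 8 * (2 * g) ^ 2 * n + 8 * g ≤ 32 * (g + 1) ^ 2 * (n + 1) := by nlinarith [sq_nonneg g]
      calc 2 * (8 * g * 2 ^ n * (8 * (g + 1) ^ 2) * (8 * (2 * g) ^ 2 * n + 8 * g))
          ≤ 2 * (8 * (g + 1) * 2 ^ n * (8 * (g + 1) ^ 2) * (32 * (g + 1) ^ 2 * (n + 1))) := by
            gcongr
            omega
        _ = 4096 * 2 ^ n * (g + 1) ^ 5 * (n + 1) := by ring
        _ = 4 * 2 ^ n * (4 * (g + 1)) ^ 5 * (n + 1) := by ring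
    calc 2 * (8 * g * 2 ^ n * (8 * (g + 1) ^ 2) * (8 * (2 * g) ^ 2 * n + 8 * g))
        ≤ 4 * 2 ^ n * (4 * (g + 1)) ^ 5 * (n + 1) := h1
      _ ≤ 4 * 2 ^ n * (2 ^ (n + 6)) ^ 5 * 2 ^ n := by gcongr
      _ = 2 ^ (7 * n + 32) := by rw [← pow_mul]; rw [show (4 : ℕ) = 2 ^ 2 by norm_num]; rw [← pow_add, ← pow_add, ← pow_add]; congr 1; ring
      _ < 2 ^ (12 * n + 24) := Nat.pow_lt_pow_right (by norm_num) (by omega)
      _ = 4 ^ (2 * g) := by rw [show (4 : ℕ) = 2 ^ 2 by norm_num, ← pow_mul, hg']; unfold hg; congr 1; ring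

theorem hJ_bound (n γ : ℕ) (hγ : γ ≤ n) : 2 * (2 ^ γ * (8 * (hg n + 1) ^ 2)) ≤ 2 ^ (2 * hg n) := by
  have hG := (hg_bound1 n).le
  have hpow : 2 ^ γ ≤ 2 ^ n := Nat.pow_le_pow_right (by norm_num) hγ
  calc 2 * (2 ^ γ * (8 * (hg n + 1) ^ 2)) = 2 ^ γ * (4 * (hg n + 1)) ^ 2 := by ring
    _ ≤ 2 ^ n * (2 ^ (n + 6)) ^ 2 := by gcongr
    _ = 2 ^ (3 * n + 12) := by rw [← pow_mul, ← pow_add]; congr 1; ring
    _ ≤ 2 ^ (2 * hg n) := Nat.pow_le_pow_right (by norm_num) (by unfold hg; omega)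

theorem hI_bound (n γ : ℕ) (hγ : γ ≤ n) :
    2 ^ γ * (8 * (hg n + 1) ^ 2) < (hg n + 1) * 2 ^ (hg n + 1) := by
  have hG := hg_bound1 n
  have hpow : 2 ^ γ ≤ 2 ^ n := Nat.pow_le_pow_right (by norm_num) hγ
  calc 2 ^ γ * (8 * (hg n + 1) ^ 2) = 2 ^ γ * (2 * (hg n + 1)) * (4 * (hg n + 1)) := by ring
    _ < 2 ^ γ * (2 * (hg n + 1)) * 2 ^ (n + 6) := Nat.mul_lt_mul_of_pos_left hG (by positivity)
    _ ≤ 2 ^ n * (2 * (hg n + 1)) * 2 ^ (n + 6) := by gcongr
    _ = (hg n + 1) * 2 ^ (2 * n + 7) := by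
        rw [show 2 * n + 7 = n + (n + 6) + 1 by ring, pow_succ, pow_add]; ring
    _ ≤ (hg n + 1) * 2 ^ (hg n + 1) :=
        Nat.mul_le_mul_left _ (Nat.pow_le_pow_right (by norm_num) (by unfold hg; omega))

/-- One-sided strategy. -/
theorem xfirst [Nonempty Z] (n a b γ κ1 : ℕ) (ha : a ≤ n) (hγ : γ ≤ n) (hκ1 : 1 ≤ κ1)
    (hU : Fintype.card U ≤ 2 ^ n) (hV : Fintype.card V ≤ 2 ^ n)
    (hZ : Fintype.card Z = 2 ^ γ * (8 * (hg n + 1) ^ 2 * κ1)) :
    HasStrat Z U V (2 ^ a) (2 ^ b) (2 * 2 ^ a) (2 ^ b) (nX n γ) (fun w x y =>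
      (2 * hg n + 2) * (2 * (hg n + 1) * κ1) ≤ (univ.filter (fun z => XF w z x y)).card) := by
  set g := hg n with hg'
  set κ2 := 2 * (g + 1) * κ1 with hκ2
  have hg0 : 1 ≤ g := by rw [hg']; unfold hg; omega
  have hκ2pos : 0 < κ2 := by positivity
  have hA := fun h (_ : h < g + 1) => strat_A (Z := Z) (U := U) (V := V) n (2 ^ a) (2 ^ b)
    (nA n γ) (κ2 * 2 ^ h) κ2 (by positivity) (by positivity) (by positivity)
    (by unfold nA; positivity) hU hV (by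
      rw [hZ, hκ2]; unfold nA; rw [← hg']
      apply le_of_eq; ring)
  have hB := fun h (_ : h < g) => strat_B (Z := Z) (U := U) (V := V) n (2 * g) (2 * g) g
    (2 ^ a) (2 ^ b) (nB n γ) (κ2 * 2 ^ h) κ2 ((g + 1) * κ1) κ1 (by positivity) (by positivity)
    (by positivity) hU (by omega) (by omega) hκ1 (by positivity)
    (by
      have := hJ_bound n γ hγ
      rw [← hg'] at this
      calc 2 * Fintype.card Z = (2 * (2 ^ γ * (8 * (g + 1) ^ 2))) * κ1 := by rw [hZ]; ring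
        _ ≤ 2 ^ (2 * g) * κ1 := Nat.mul_le_mul_right _ this
        _ = κ1 * 2 ^ (2 * g) := by ring)
    (by
      rw [hZ]; unfold nB; rw [← hg']
      apply le_of_eq; ring)
    (by have := nB_bound n γ hγ; rwa [← hg'] at this)
    (by
      have := hI_bound n γ hγ
      rw [← hg'] at this
      calc Fintype.card Z = (2 ^ γ * (8 * (g + 1) ^ 2)) * κ1 := by rw [hZ]; ring
        _ < ((g + 1) * 2 ^ (g + 1)) * κ1 := Nat.mul_lt_mul_of_pos_right this hκ1
        _ = (g + 1) * κ1 * 2 ^ (g + 1) := by ring)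
    (by rw [hκ2]; apply le_of_eq; ring)
  have h1 := strat_exists (g + 1) _ hA
  have h2 := strat_exists g _ hB
  have h3 := strat_or h1 h2
  refine strat_mono h3 le_rfl le_rfl ?_ ?_
  · unfold nX
    rw [← hg']
    have h4 : Fintype.card Z / κ1 = 2 ^ γ * (8 * (g + 1) ^ 2) := by
      rw [hZ, show 2 ^ γ * (8 * (g + 1) ^ 2 * κ1) = (2 ^ γ * (8 * (g + 1) ^ 2)) * κ1 by ring]
      exact Nat.mul_div_cancel _ hκ1
    have h5 : (64 * (2 * g) * n + 1) * (g + 1) * Fintype.card Z / κ1 =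
        (64 * (2 * g) * n + 1) * (g + 1) * (2 ^ γ * (8 * (g + 1) ^ 2)) := by
      rw [hZ, show (64 * (2 * g) * n + 1) * (g + 1) * (2 ^ γ * (8 * (g + 1) ^ 2 * κ1)) =
        ((64 * (2 * g) * n + 1) * (g + 1) * (2 ^ γ * (8 * (g + 1) ^ 2))) * κ1 by ring]
      exact Nat.mul_div_cancel _ hκ1
    rw [h5]
  · intro w x y hw hd
    have hx : xc w < κ2 * 2 ^ g := by
      have h4 := xc_le w hw
      have h5 := hg_bound1 n
      rw [← hg'] at h5
      have h6 : Fintype.card Z * 2 ^ a < κ2 * 2 ^ g := by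
        have h7 : 2 ^ γ * 2 ^ a * (4 * (g + 1)) < 2 ^ g := by
          calc 2 ^ γ * 2 ^ a * (4 * (g + 1)) < 2 ^ γ * 2 ^ a * 2 ^ (n + 6) :=
                Nat.mul_lt_mul_of_pos_left h5 (by positivity)
            _ ≤ 2 ^ n * 2 ^ n * 2 ^ (n + 6) := by
                apply Nat.mul_le_mul_right
                exact Nat.mul_le_mul (Nat.pow_le_pow_right (by norm_num) hγ)
                  (Nat.pow_le_pow_right (by norm_num) ha)
            _ = 2 ^ g := by rw [hg']; unfold hg; rw [← pow_add, ← pow_add]; congr 1; ring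
        calc Fintype.card Z * 2 ^ a = κ2 * (2 ^ γ * 2 ^ a * (4 * (g + 1))) := by
              rw [hZ, hκ2]; ring
          _ < κ2 * 2 ^ g := Nat.mul_lt_mul_of_pos_left h7 hκ2pos
      omega
    have h4 := decomp g κ2 hκ2pos w hw.1 hx x y
    by_contra hcon
    push Not at hcon
    obtain ⟨hc1, hc2⟩ := hcon
    have h5 : ∑ h ∈ range (g + 1), ∑ P ∈ range (xc w / (κ2 * 2 ^ h)),
        (univ.filter (fun z => x ∈ Xs (win (κ2 * 2 ^ h) P w) z ∧
          y ∈ Ys (win (κ2 * 2 ^ h) P w) z)).card ≤ ∑ h ∈ range (g + 1), (κ2 - 1) := by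
      refine Finset.sum_le_sum fun h hh => ?_
      have := hc1 h (Finset.mem_range.1 hh)
      omega
    have h6 : ∑ h ∈ range g, (univ.filter (fun z =>
          x ∈ Xs (win (κ2 * 2 ^ h) (2 * (xc w / (2 * (κ2 * 2 ^ h)))) w) z ∧
          y ∈ Ys (win (κ2 * 2 ^ h) (2 * (xc w / (2 * (κ2 * 2 ^ h))) + 1) w) z)).card ≤
        ∑ h ∈ range g, (κ2 - 1) := by
      refine Finset.sum_le_sum fun h hh => ?_
      have := hc2 h (Finset.mem_range.1 hh)
      omega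
    simp only [sum_const, card_range, smul_eq_mul] at h5 h6
    have h7 : (2 * g + 2) * κ2 ≤ (g + 1) * (κ2 - 1) + g * (κ2 - 1) + κ2 := by
      refine hd.trans (h4.trans ?_)
      exact Nat.add_le_add (Nat.add_le_add h5 h6) le_rfl
    have h8 : (g + 1) * (κ2 - 1) + g * (κ2 - 1) + κ2 < (2 * g + 2) * κ2 := by
      obtain ⟨k, hk⟩ : ∃ k, κ2 = k + 1 := ⟨κ2 - 1, by omega⟩
      rw [hk]
      simp only [Nat.add_sub_cancel]
      nlinarith
    omega

/-- The covering game. -/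
theorem game [Nonempty Z] (n a b γ κ1 : ℕ) (ha : a ≤ n) (hb : b ≤ n) (hγ : γ ≤ n) (hκ1 : 1 ≤ κ1)
    (hU : Fintype.card U ≤ 2 ^ n) (hV : Fintype.card V ≤ 2 ^ n)
    (hZ : Fintype.card Z = 2 ^ γ * (8 * (hg n + 1) ^ 2 * κ1)) :
    HasStrat Z U V (2 ^ a) (2 ^ b) (2 * 2 ^ a) (2 * 2 ^ b) (nG n γ) (fun w x y =>
      8 * (hg n + 1) ^ 2 * κ1 ≤
        (univ.filter (fun z => (z, Sum.inl x) ∈ w ∧ (z, Sum.inr y) ∈ w)).card) := by
  have h1 := xfirst (Z := Z) (U := U) (V := V) n a b γ κ1 ha hγ hκ1 hU hV hZ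
  have h2 := strat_swap (xfirst (Z := Z) (U := V) (V := U) n b a γ κ1 hb hγ hκ1 hV hU hZ)
  have h1' := strat_mono (a' := 2 * 2 ^ a) (b' := 2 * 2 ^ b) h1 le_rfl (by omega) le_rfl
    (fun w x y _ h => h)
  have h2' := strat_mono (a' := 2 * 2 ^ a) (b' := 2 * 2 ^ b) h2 (by omega) le_rfl le_rfl
    (fun w x y _ h => h)
  refine strat_mono (strat_or h1' h2') le_rfl le_rfl (by unfold nG; omega) ?_
  intro w x y hw hd
  by_contra hcon
  push Not at hcon
  obtain ⟨hc1, hc2⟩ := hcon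
  have h3 : (univ.filter (fun z => (z, Sum.inl x) ∈ w ∧ (z, Sum.inr y) ∈ w)).card ≤
      (univ.filter (fun z => XF w z x y)).card +
      (univ.filter (fun z => XF (w.map (fun q => (q.1, q.2.swap))) z y x)).card := by
    refine le_trans (Finset.card_le_card ?_) (Finset.card_union_le _ _)
    intro z hz
    simp only [mem_filter, mem_univ, true_and, mem_union] at hz ⊢
    exact xf_or w hw.1 z x y hz.1 hz.2
  have h4 : 8 * (hg n + 1) ^ 2 * κ1 = (2 * hg n + 2) * (2 * (hg n + 1) * κ1) +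
      (2 * hg n + 2) * (2 * (hg n + 1) * κ1) := by ring
  omega

end

end Pool.Agent.Helper760.Cov
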