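import Mathlib
import Pool.Agent.Helper760.Cov.DefsD
import Pool.Agent.Helper760.Cov.Game

set_option autoImplicit false

namespace Pool.Agent.Helper760.Cov.J1210

open Finset
open Pool.Agent.Helper760.Kolm (allLen mem_allLen length_allLen nodup_allLen primrec_allLen)

open scoped Classical in
theorem mem_Xs {Z U V : Type*} [Fintype U] [Fintype V] (w : List (Z × (U ⊕ V))) (z : Z) (x : U) :
    x ∈ Xs w z ↔ (z, Sum.inl x) ∈ w := by
  unfold Xs
  rw [Finset.mem_filter]
  simp only [Finset.mem_univ, true_and]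

open scoped Classical in
theorem mem_Ys {Z U V : Type*} [Fintype U] [Fintype V] (w : List (Z × (U ⊕ V))) (z : Z) (y : V) :
    y ∈ Ys w z ↔ (z, Sum.inr y) ∈ w := by
  unfold Ys
  rw [Finset.mem_filter]
  simp only [Finset.mem_univ, true_and]

open scoped Classical in
theorem dem_aux {Z U V : Type*} [Fintype Z] [Fintype U] [Fintype V] (w : List (Z × (U ⊕ V)))
    (x : U) (y : V) (k : ℕ) (T : Finset Z)
    (hT : ∀ z ∈ T, (z, Sum.inl x) ∈ w ∧ (z, Sum.inr y) ∈ w) (hk : k ≤ T.card) :
    k ≤ (univ.filter (fun z => (z, Sum.inl x) ∈ w ∧ (z, Sum.inr y) ∈ w)).card := by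
  refine hk.trans (Finset.card_le_card (fun z hz => ?_))
  rw [Finset.mem_filter]
  exact ⟨Finset.mem_univ _, hT z hz⟩

/-- code of an element of one of the two sides -/
def enc {M : ℕ} : Fin M ⊕ Fin M → ℕ
  | Sum.inl x => 2 * x.1
  | Sum.inr y => 2 * y.1 + 1

theorem enc_inj {M : ℕ} : Function.Injective (enc (M := M)) := by
  rintro (x | x) (y | y) h
  · simp only [enc] at h
    congr 1
    apply Fin.ext
    omega
  · simp only [enc] at h
    omega
  · simp only [enc] at h
    omega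
  · simp only [enc] at h
    congr 1
    apply Fin.ext
    omega

/-- decoding of one move -/
def conv1 (m M : ℕ) (q : ℕ × ℕ) : Option (Fin m × (Fin M ⊕ Fin M)) :=
  if h : q.1 < m ∧ q.2 < 2 * M then
    some (⟨q.1, h.1⟩, if q.2 % 2 = 0 then Sum.inl ⟨q.2 / 2, by omega⟩ else Sum.inr ⟨q.2 / 2, by omega⟩)
  else none

theorem conv1_iff (m M : ℕ) (q : ℕ × ℕ) (p : Fin m × (Fin M ⊕ Fin M)) :
    conv1 m M q = some p ↔ (p.1.1, enc p.2) = q := by
  obtain ⟨q1, q2⟩ := q
  obtain ⟨⟨z, hz⟩, s⟩ := p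
  unfold conv1
  constructor
  · intro h
    split_ifs at h with h1 h2
    · simp only [Option.some.injEq, Prod.mk.injEq, Fin.mk.injEq] at h
      obtain ⟨h3, h4⟩ := h
      subst h3
      rw [← h4]
      simp only [enc, Prod.mk.injEq, true_and]
      simp only at h2
      omega
    · simp only [Option.some.injEq, Prod.mk.injEq, Fin.mk.injEq] at h
      obtain ⟨h3, h4⟩ := h
      subst h3
      rw [← h4]
      simp only [enc, Prod.mk.injEq, true_and]
      simp only at h2
      omega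
  · intro h
    simp only [Prod.mk.injEq] at h
    obtain ⟨h1, h2⟩ := h
    subst h1
    rcases s with x | x
    · have hx := x.2
      simp only [enc] at h2
      rw [dif_pos ⟨hz, by omega⟩, if_pos (by simp only; omega)]
      congr 3
      apply Fin.ext
      simp only
      omega
    · have hx := x.2
      simp only [enc] at h2
      rw [dif_pos ⟨hz, by omega⟩, if_neg (by simp only; omega)]
      congr 3
      apply Fin.ext
      simp only
      omega

/-- decoding of a play -/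
def conv (m M : ℕ) (w : List (ℕ × ℕ)) : List (Fin m × (Fin M ⊕ Fin M)) :=
  w.filterMap (conv1 m M)

theorem mem_conv (m M : ℕ) (w : List (ℕ × ℕ)) (p : Fin m × (Fin M ⊕ Fin M)) :
    p ∈ conv m M w ↔ (p.1.1, enc p.2) ∈ w := by
  unfold conv
  rw [List.mem_filterMap]
  constructor
  · rintro ⟨q, hq, h⟩
    rw [conv1_iff] at h
    rw [h]; exact hq
  · intro h
    exact ⟨_, h, (conv1_iff m M _ p).mpr rfl⟩

theorem nodup_conv (m M : ℕ) (w : List (ℕ × ℕ)) (h : w.Nodup) : (conv m M w).Nodup := by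
  unfold conv
  apply List.Nodup.filterMap _ h
  intro a a' b hb hb'
  rw [Option.mem_def, conv1_iff] at hb hb'
  rw [← hb, ← hb']

theorem mem_pt (w : List (ℕ × ℕ)) (i e : ℕ) : e ∈ pt w i ↔ (i, e) ∈ w := by
  unfold pt
  rw [List.mem_map]
  constructor
  · rintro ⟨q, hq, rfl⟩
    rw [List.mem_filter] at hq
    obtain ⟨h1, h2⟩ := hq
    have h3 : q.1 = i := by simpa using h2
    rw [← h3]; exact h1
  · intro h
    refine ⟨(i, e), ?_, rfl⟩
    rw [List.mem_filter]
    exact ⟨h, by simp⟩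

theorem legal_conv (m M A B : ℕ) (w : List (ℕ × ℕ)) (h : LegalN (2 * M) m A B w) :
    Legal A B (conv m M w) := by
  obtain ⟨h1, h2, h3⟩ := h
  refine ⟨nodup_conv m M w h2, ?_⟩
  intro z
  obtain ⟨h4, h5⟩ := h3 z.1 z.2
  constructor
  · refine le_trans ?_ ((List.toFinset_card_le _).trans h4)
    apply Finset.card_le_card_of_injOn (fun x => 2 * x.1)
    · intro x hx
      have hx' : (z, Sum.inl x) ∈ conv m M w := by
        exact (mem_Xs _ _ _).mp (Finset.mem_coe.mp hx)
      rw [mem_conv] at hx'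
      rw [Finset.mem_coe, List.mem_toFinset, List.mem_filter, mem_pt]
      exact ⟨hx', by simp⟩
    · intro x _ y _ hxy
      apply Fin.ext
      simp only at hxy
      omega
  · refine le_trans ?_ ((List.toFinset_card_le _).trans h5)
    apply Finset.card_le_card_of_injOn (fun x => 2 * x.1 + 1)
    · intro x hx
      have hx' : (z, Sum.inr x) ∈ conv m M w := by
        exact (mem_Ys _ _ _).mp (Finset.mem_coe.mp hx)
      rw [mem_conv] at hx'
      rw [Finset.mem_coe, List.mem_toFinset, List.mem_filter, mem_pt]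
      refine ⟨hx', ?_⟩
      rw [decide_eq_true_iff]
      show (2 * x.1 + 1) % 2 = 1
      omega
    · intro x _ y _ hxy
      apply Fin.ext
      simp only at hxy
      omega

theorem lift_list (E m : ℕ) (w : List (ℕ × ℕ)) (h : ∀ q ∈ w, q.1 < m ∧ q.2 < E) :
    ∃ l : List (Fin m × Fin E), l.map (fun p => (p.1.1, p.2.1)) = w := by
  induction w with
  | nil => exact ⟨[], rfl⟩
  | cons q w ih =>
    obtain ⟨l, hl⟩ := ih (fun q' hq' => h q' (List.mem_cons_of_mem _ hq'))
    have h5 := h q List.mem_cons_self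
    exact ⟨(⟨q.1, h5.1⟩, ⟨q.2, h5.2⟩) :: l, by rw [List.map_cons, hl]⟩

theorem legal_finite (E m A B : ℕ) : {w : List (ℕ × ℕ) | LegalN E m A B w}.Finite := by
  have h1 : Set.Finite {l : List (Fin m × Fin E) | l.length ≤ m * E} := List.finite_length_le _ _
  apply (h1.image (fun l => l.map (fun p => (p.1.1, p.2.1)))).subset
  intro w hw
  obtain ⟨h2, h3, _⟩ := hw
  obtain ⟨l, hl⟩ := lift_list E m w h2
  refine ⟨l, ?_, hl⟩
  have h5 : l.Nodup := by
    rw [← hl] at h3
    exact List.Nodup.of_map _ h3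
  show l.length ≤ m * E
  have h6 := List.Nodup.length_le_card h5
  simpa using h6

theorem addNew_spec (L : List ℕ) : ∀ h : List ℕ, h.Nodup →
    (addNew h L).Nodup ∧ ∀ e, e ∈ addNew h L ↔ e ∈ h ∨ e ∈ L := by
  induction L with
  | nil =>
    intro h hh
    exact ⟨hh, fun e => by simp [addNew]⟩
  | cons a L ih =>
    intro h hh
    have h1 : addNew h (a :: L) = addNew (if a ∈ h then h else a :: h) L := rfl
    rw [h1]
    by_cases ha : a ∈ h
    · rw [if_pos ha]
      obtain ⟨h2, h3⟩ := ih h hh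
      refine ⟨h2, fun e => ?_⟩
      rw [h3, List.mem_cons]
      constructor
      · rintro (h4 | h4)
        · exact Or.inl h4
        · exact Or.inr (Or.inr h4)
      · rintro (h4 | h4 | h4)
        · exact Or.inl h4
        · rw [h4]; exact Or.inl ha
        · exact Or.inr h4
    · rw [if_neg ha]
      obtain ⟨h2, h3⟩ := ih (a :: h) (List.nodup_cons.mpr ⟨ha, hh⟩)
      refine ⟨h2, fun e => ?_⟩
      rw [h3, List.mem_cons, List.mem_cons]
      tauto

/-- code of a cluster entry -/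
def code {M : ℕ} (p : ℕ × (Fin M ⊕ Fin M)) : ℕ × ℕ := (p.1, enc p.2)

theorem code_inj {M : ℕ} : Function.Injective (code (M := M)) := by
  rintro ⟨a, s⟩ ⟨b, t⟩ h
  simp only [code, Prod.mk.injEq] at h
  rw [h.1, enc_inj h.2]

/-- coded clusters -/
noncomputable def bbl {M : ℕ} (c : Finset (ℕ × (Fin M ⊕ Fin M))) : List (ℕ × ℕ) := c.toList.map code

theorem mem_bbl {M : ℕ} (c : Finset (ℕ × (Fin M ⊕ Fin M))) (q : ℕ × ℕ) :
    q ∈ bbl c ↔ ∃ p ∈ c, code p = q := by
  unfold bbl
  rw [List.mem_map]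
  simp only [Finset.mem_toList]

theorem nodup_bbl {M : ℕ} (c : Finset (ℕ × (Fin M ⊕ Fin M))) : (bbl c).Nodup :=
  List.Nodup.map code_inj (Finset.nodup_toList c)

theorem size_bbl {M : ℕ} (c : Finset (ℕ × (Fin M ⊕ Fin M))) (a' b' N : ℕ)
    (h : ∀ i, lX c i ≤ a' ∧ lY c i ≤ b') (hN : (ids c).card ≤ N) : SizeN a' b' N (bbl c) := by
  refine ⟨?_, ?_⟩
  · intro q _
    obtain ⟨h1, h2⟩ := h q.1
    constructor
    · have h3 : ((bbl c).filter (fun r => r.1 = q.1 ∧ r.2 % 2 = 0)).Nodup :=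
        (nodup_bbl c).filter _
      rw [← List.toFinset_card_of_nodup h3]
      refine le_trans ?_ h1
      unfold lX
      refine le_trans (Finset.card_le_card ?_) (Finset.card_image_le (f := code))
      intro r hr
      rw [List.mem_toFinset, List.mem_filter, mem_bbl, decide_eq_true_iff] at hr
      obtain ⟨⟨p, hp, rfl⟩, hr1, hr2⟩ := hr
      apply Finset.mem_image_of_mem
      rw [Finset.mem_filter]
      refine ⟨hp, hr1, ?_⟩
      obtain ⟨i, s⟩ := p
      rcases s with x | x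
      · rfl
      · simp only [code, enc] at hr2
        omega
    · have h3 : ((bbl c).filter (fun r => r.1 = q.1 ∧ r.2 % 2 = 1)).Nodup :=
        (nodup_bbl c).filter _
      rw [← List.toFinset_card_of_nodup h3]
      refine le_trans ?_ h2
      unfold lY
      refine le_trans (Finset.card_le_card ?_) (Finset.card_image_le (f := code))
      intro r hr
      rw [List.mem_toFinset, List.mem_filter, mem_bbl, decide_eq_true_iff] at hr
      obtain ⟨⟨p, hp, rfl⟩, hr1, hr2⟩ := hr
      apply Finset.mem_image_of_mem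
      rw [Finset.mem_filter]
      refine ⟨hp, hr1, ?_⟩
      obtain ⟨i, s⟩ := p
      rcases s with x | x
      · simp only [code, enc] at hr2
        omega
      · rfl
  · obtain ⟨h3, h4⟩ := addNew_spec ((bbl c).map Prod.fst) [] List.nodup_nil
    rw [← List.toFinset_card_of_nodup h3]
    refine le_trans (Finset.card_le_card ?_) hN
    intro e he
    rw [List.mem_toFinset, h4] at he
    rcases he with he | he
    · exact absurd he List.not_mem_nil
    · rw [List.mem_map] at he
      obtain ⟨q, hq, rfl⟩ := he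
      rw [mem_bbl] at hq
      obtain ⟨p, hp, rfl⟩ := hq
      unfold ids
      rw [Finset.mem_image]
      exact ⟨p, hp, rfl⟩

theorem table_aux (m M A B κ a' b' N : ℕ) (hκ : 1 ≤ κ)
    (dem : List (Fin m × (Fin M ⊕ Fin M)) → Fin M → Fin M → Prop)
    (hdem : ∀ (w : List (ℕ × ℕ)) (x y : Fin M),
      κ ≤ ((List.range m).filter (fun i => (i, 2 * x.1) ∈ w ∧ (i, 2 * y.1 + 1) ∈ w)).length →
      dem (conv m M w) x y)
    (hs : HasStrat (Fin m) (Fin M) (Fin M) A B a' b' N dem) :
    ∃ s, Chk (2 * M) m A B κ a' b' N s := by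
  obtain ⟨cl, hmono, hcl⟩ := hs
  have hfin := legal_finite (2 * M) m A B
  refine ⟨hfin.toFinset.toList.map (fun w => (w, bbl (cl (conv m M w)))), ?_, ?_, ?_⟩
  · refine ⟨([], bbl (cl (conv m M []))), ?_, rfl⟩
    rw [List.mem_map]
    refine ⟨[], ?_, rfl⟩
    rw [Finset.mem_toList, Set.Finite.mem_toFinset]
    refine ⟨fun q hq => absurd hq List.not_mem_nil, List.nodup_nil, fun i _ => ?_⟩
    simp [pt]
  · intro p hp
    rw [List.mem_map] at hp
    obtain ⟨w, hw, rfl⟩ := hp
    rw [Finset.mem_toList, Set.Finite.mem_toFinset] at hw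
    have hw' : LegalN (2 * M) m A B w := hw
    obtain ⟨c1, c2, c3⟩ := hcl (conv m M w) (legal_conv m M _ _ w hw')
    refine ⟨hw', ?_, size_bbl _ _ _ _ c2 c3⟩
    intro x _ y _ hxy
    have hne : ((List.range m).filter (fun i => (i, 2 * x) ∈ w ∧ (i, 2 * y + 1) ∈ w)) ≠ [] := by
      intro h0
      rw [h0] at hxy
      simp only [List.length_nil] at hxy
      omega
    obtain ⟨i, hi⟩ := List.exists_mem_of_ne_nil _ hne
    rw [List.mem_filter, decide_eq_true_iff] at hi
    obtain ⟨_, hi1, hi2⟩ := hi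
    have hx : x < M := by have := (hw'.1 _ hi1).2; simp only at this; omega
    have hy : y < M := by have := (hw'.1 _ hi2).2; simp only at this; omega
    obtain ⟨k, hk1, hk2⟩ := c1 ⟨x, hx⟩ ⟨y, hy⟩ (hdem w ⟨x, hx⟩ ⟨y, hy⟩ hxy)
    refine ⟨(k, 2 * x), ?_, ?_, ?_⟩
    · exact (mem_bbl _ _).mpr ⟨_, hk1, rfl⟩
    · exact (mem_bbl _ _).mpr ⟨_, hk1, rfl⟩
    · exact (mem_bbl _ _).mpr ⟨_, hk2, rfl⟩
  · intro p hp i hi e he hleg
    rw [List.mem_map] at hp
    obtain ⟨w, hw, rfl⟩ := hp
    refine ⟨((i, e) :: w, bbl (cl (conv m M ((i, e) :: w)))), ?_, rfl, ?_⟩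
    · rw [List.mem_map]
      refine ⟨(i, e) :: w, ?_, rfl⟩
      rw [Finset.mem_toList, Set.Finite.mem_toFinset]
      exact hleg
    · intro q hq
      have hq' : q ∈ bbl (cl (conv m M w)) := hq
      rw [mem_bbl] at hq'
      obtain ⟨r, hr, rfl⟩ := hq'
      have h1 : ∃ mv, conv1 m M (i, e) = some mv := by
        unfold conv1
        rw [dif_pos ⟨hi, he⟩]
        exact ⟨_, rfl⟩
      obtain ⟨mv, hmv⟩ := h1
      have h2 : conv m M ((i, e) :: w) = mv :: conv m M w := by
        unfold conv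
        rw [List.filterMap_cons_some hmv]
      show code r ∈ bbl (cl (conv m M ((i, e) :: w)))
      rw [h2, mem_bbl]
      exact ⟨r, hmono mv _ hr, rfl⟩

theorem exists_table (n a b γ : ℕ) (ha : a ≤ n) (hb : b ≤ n) (hγ : γ ≤ n) :
    ∃ s, Chk (2 * 2 ^ n) (mm n γ) (2 ^ a) (2 ^ b) (kk n) (2 * 2 ^ a) (2 * 2 ^ b) (nG n γ) s := by
  have hrl : 1 ≤ rl n := Nat.one_le_pow _ _ (Nat.succ_pos _)
  have hkk : 1 ≤ kk n := by
    unfold kk
    have : 0 < 8 * (hg n + 1) ^ 2 * rl n := by positivity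
    omega
  have hmm : 0 < mm n γ := by
    unfold mm
    have : 0 < kk n := hkk
    positivity
  have : Nonempty (Fin (mm n γ)) := ⟨⟨0, hmm⟩⟩
  have hs := game (Z := Fin (mm n γ)) (U := Fin (2 ^ n)) (V := Fin (2 ^ n)) n a b γ
    (rl n) ha hb hγ hrl (by rw [Fintype.card_fin]) (by rw [Fintype.card_fin])
    (by rw [Fintype.card_fin]; rfl)
  refine table_aux (mm n γ) (2 ^ n) (2 ^ a) (2 ^ b) (kk n) (2 * 2 ^ a) (2 * 2 ^ b) (nG n γ) hkk
    _ ?_ hs
  intro w x y hxy
  have hnd : ((List.range (mm n γ)).filter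
      (fun i => (i, 2 * x.1) ∈ w ∧ (i, 2 * y.1 + 1) ∈ w)).Nodup := List.nodup_range.filter _
  rw [← List.toFinset_card_of_nodup hnd] at hxy
  refine dem_aux _ _ _ _ (Finset.univ.filter
    (fun z : Fin (mm n γ) => (z.1, 2 * x.1) ∈ w ∧ (z.1, 2 * y.1 + 1) ∈ w)) ?_ ?_
  · intro z hz
    rw [Finset.mem_filter] at hz
    rw [mem_conv, mem_conv]
    exact hz.2
  · refine le_trans hxy (le_trans (Finset.card_le_card ?_) (Finset.card_image_le (f := Fin.val)))
    intro j hj
    rw [List.mem_toFinset, List.mem_filter, decide_eq_true_iff, List.mem_range] at hj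
    obtain ⟨hj0, hj1, hj2⟩ := hj
    rw [Finset.mem_image]
    refine ⟨⟨j, hj0⟩, ?_, rfl⟩
    rw [Finset.mem_filter]
    exact ⟨Finset.mem_univ _, hj1, hj2⟩

end Pool.Agent.Helper760.Cov.J1210
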