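import Mathlib
import Pool.Agent.Helper760.Cov.Base2c

set_option autoImplicit false

namespace Pool.Agent.Helper760.Cov.J1212

open Finset
open Pool.Agent.Helper760.Kolm (allLen mem_allLen length_allLen nodup_allLen primrec_allLen)

theorem stage_ne (f : List Bool → List ℕ) (t : ℕ) : stage f t ≠ [] := by
  intro h
  have h1 : (stage f t).length = 2 ^ t := by
    rw [stage, List.length_map, Pool.Agent.Helper760.Kolm.length_allLen]
  rw [h] at h1
  have : 0 < 2 ^ t := by positivity
  simp at h1
  omega

theorem stage_nodup (f : List Bool → List ℕ) (hf : ∀ σ b, f σ ⊆ f (σ ++ [b])) (t : ℕ) :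
    ∀ g ∈ stage f t, g.Nodup := by
  intro g hg
  obtain ⟨σ, _, rfl⟩ := List.mem_map.1 hg
  exact (hist_spec f hf σ).1

theorem stage_lt (E : ℕ) (f : List Bool → List ℕ) (hf : ∀ σ b, f σ ⊆ f (σ ++ [b]))
    (hE : ∀ σ, ∀ e ∈ f σ, e < E) (t : ℕ) :
    ∀ g ∈ stage f t, ∀ e ∈ g, e < E := by
  intro g hg e he
  obtain ⟨σ, _, rfl⟩ := List.mem_map.1 hg
  exact hE σ e (((hist_spec f hf σ).2.1 e).1 he)

theorem hist_filter_card (f : List Bool → List ℕ) (hf : ∀ σ b, f σ ⊆ f (σ ++ [b]))
    (σ : List Bool) (r : ℕ) : ((hist f σ).filter (fun e => e % 2 = r)).length =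
      ((f σ).toFinset.filter (fun e => e % 2 = r)).card := by
  have h1 := hist_spec f hf σ
  have h2 : ((hist f σ).filter (fun e => e % 2 = r)).Nodup := h1.1.filter _
  rw [← List.toFinset_card_of_nodup h2]
  congr 1
  ext e
  simp [h1.2.1 e]

theorem stage_AB (A B : ℕ) (f : List Bool → List ℕ) (hf : ∀ σ b, f σ ⊆ f (σ ++ [b]))
    (hAB : ∀ σ, ((f σ).toFinset.filter (fun e => e % 2 = 0)).card ≤ A ∧
      ((f σ).toFinset.filter (fun e => e % 2 = 1)).card ≤ B) (t : ℕ) :
    ∀ g ∈ stage f t, (g.filter (fun e => e % 2 = 0)).length ≤ A ∧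
      (g.filter (fun e => e % 2 = 1)).length ≤ B := by
  intro g hg
  obtain ⟨σ, _, rfl⟩ := List.mem_map.1 hg
  rw [hist_filter_card f hf σ 0, hist_filter_card f hf σ 1]
  exact hAB σ

theorem run_succ_eq (s : List (List (ℕ × ℕ) × List (ℕ × ℕ))) (m : ℕ) (f : List Bool → List ℕ)
    (t : ℕ) : run s m f (t + 1) = step s m (stage f (t + 1)) (run s m f t) := by
  unfold run
  rw [List.range_succ (n := t + 1), List.foldl_append]
  rfl

theorem run_zero_eq (s : List (List (ℕ × ℕ) × List (ℕ × ℕ))) (m : ℕ) (f : List Bool → List ℕ) :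
    run s m f 0 = step s m (stage f 0) ([], []) := by
  unfold run
  rfl

theorem run_spec (E m A B κ a' b' N : ℕ) (s : List (List (ℕ × ℕ) × List (ℕ × ℕ)))
    (hs : Chk E m A B κ a' b' N s) (f : List Bool → List ℕ) (hf : ∀ σ b, f σ ⊆ f (σ ++ [b]))
    (hE : ∀ σ, ∀ e ∈ f σ, e < E)
    (hAB : ∀ σ, ((f σ).toFinset.filter (fun e => e % 2 = 0)).card ≤ A ∧
      ((f σ).toFinset.filter (fun e => e % 2 = 1)).card ≤ B) (t : ℕ) :
    run s m f t ∈ s ∧ Target m (stage f t) (run s m f t).1 ∧
      (run s m f t).2 ⊆ (run s m f (t + 1)).2 := by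
  have key : ∀ t, run s m f t ∈ s ∧ Target m (stage f t) (run s m f t).1 := by
    intro t
    induction t with
    | zero =>
      rw [run_zero_eq]
      have h := run_step E m A B κ a' b' N s hs (stage f 0) (stage_ne f 0) (stage_nodup f hf 0)
        (stage_lt E f hf hE 0) (stage_AB A B f hf hAB 0) ([], []) (Or.inr rfl) (by
          intro h
          have hpt : ∀ i, pt [] i = [] := fun i => rfl
          simp only [hpt]
          by_cases hh : h = []
          · subst hh
            have h1 : cnt m (stage f 0) [] = m := by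
              unfold cnt
              have h2 : (stage f 0).filter (fun g => suf [] g) = stage f 0 := by
                rw [List.filter_eq_self]
                intro g _
                rw [suf_iff]
                exact List.nil_suffix
              rw [h2]
              exact Nat.mul_div_cancel _ (List.length_pos_iff.2 (stage_ne f 0))
            rw [h1]
            refine (List.length_filter_le _ _).trans ?_
            rw [List.length_range]
          · have h1 : suf h [] = false := by
              rw [Bool.eq_false_iff]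
              intro h2
              rw [suf_iff, List.suffix_nil] at h2
              exact hh h2
            simp [h1])
      exact ⟨h.1, h.2.1⟩
    | succ t ih =>
      rw [run_succ_eq]
      have h := run_step E m A B κ a' b' N s hs (stage f (t+1)) (stage_ne f (t+1))
        (stage_nodup f hf (t+1)) (stage_lt E f hf hE (t+1)) (stage_AB A B f hf hAB (t+1))
        (run s m f t) (Or.inl ih.1) (by
          intro h
          rw [(target_iff m (stage f t) (stage_ne f t) _).1 ih.2 h]
          exact cnt_mono m f hf t h)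
      exact ⟨h.1, h.2.1⟩
  refine ⟨(key t).1, (key t).2, ?_⟩
  rw [run_succ_eq]
  have h := run_step E m A B κ a' b' N s hs (stage f (t+1)) (stage_ne f (t+1))
    (stage_nodup f hf (t+1)) (stage_lt E f hf hE (t+1)) (stage_AB A B f hf hAB (t+1))
    (run s m f t) (Or.inl (key t).1) (by
      intro h
      rw [(target_iff m (stage f t) (stage_ne f t) _).1 (key t).2 h]
      exact cnt_mono m f hf t h)
  exact h.2.2

end Pool.Agent.Helper760.Cov.J1212
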