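import Mathlib
import Pool.Agent.Helper760.Cov.DefsD

set_option autoImplicit false

namespace Pool.Agent.Helper760.Cov.J1213

open Finset
open Pool.Agent.Helper760.Kolm (allLen mem_allLen length_allLen nodup_allLen primrec_allLen)

theorem pr_filter {α β : Type*} [Primcodable α] [Primcodable β] {f : α → List β}
    {p : α → β → Bool} (hf : Primrec f) (hp : Primrec₂ p) :
    Primrec fun a => (f a).filter (p a) := by
  have h : Primrec fun a => (f a).filterMap (fun b => bif p a b then some b else none) := by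
    refine Primrec.listFilterMap hf ?_
    exact Primrec.cond hp (Primrec.option_some.comp Primrec.snd) (Primrec.const none)
  refine h.of_eq fun a => ?_
  induction f a with
  | nil => rfl
  | cons b l ih =>
    rw [List.filterMap_cons, List.filter_cons, ih]
    cases p a b <;> simp

theorem pr_all {α β : Type*} [Primcodable α] [Primcodable β] {f : α → List β}
    {p : α → β → Bool} (hf : Primrec f) (hp : Primrec₂ p) :
    Primrec fun a => (f a).all (p a) := by
  have h : Primrec fun a => (f a).foldr (fun b s => p a b && s) true := by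
    refine Primrec.list_foldr (h := fun a (q : β × Bool) => p a q.1 && q.2) hf
      (Primrec.const true) ?_
    exact Primrec.and.comp (hp.comp Primrec.fst (Primrec.fst.comp Primrec.snd))
      (Primrec.snd.comp Primrec.snd)
  refine h.of_eq fun a => ?_
  induction f a with
  | nil => rfl
  | cons b l ih => rw [List.foldr_cons, List.all_cons, ih]

theorem pr_any {α β : Type*} [Primcodable α] [Primcodable β] {f : α → List β}
    {p : α → β → Bool} (hf : Primrec f) (hp : Primrec₂ p) :
    Primrec fun a => (f a).any (p a) := by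
  have h : Primrec fun a => (f a).foldr (fun b s => p a b || s) false := by
    refine Primrec.list_foldr (h := fun a (q : β × Bool) => p a q.1 || q.2) hf
      (Primrec.const false) ?_
    exact Primrec.or.comp (hp.comp Primrec.fst (Primrec.fst.comp Primrec.snd))
      (Primrec.snd.comp Primrec.snd)
  refine h.of_eq fun a => ?_
  induction f a with
  | nil => rfl
  | cons b l ih => rw [List.foldr_cons, List.any_cons, ih]

theorem pr_find {α β : Type*} [Primcodable α] [Primcodable β] {f : α → List β}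
    {p : α → β → Bool} (hf : Primrec f) (hp : Primrec₂ p) :
    Primrec fun a => (f a).find? (p a) := by
  refine (Primrec.list_head?.comp (pr_filter hf hp)).of_eq fun a => ?_
  simp

theorem pr_pt : Primrec₂ pt := by
  unfold pt
  refine Primrec.list_map (f := fun z : List (ℕ × ℕ) × ℕ =>
    z.1.filter (fun q => decide (q.1 = z.2))) (g := fun _ q => q.2) ?_
    (Primrec.snd.comp Primrec.snd)
  refine pr_filter Primrec.fst ?_
  exact (PrimrecRel.decide Primrec.eq).comp (Primrec.fst.comp Primrec.snd)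
    (Primrec.snd.comp Primrec.fst)

theorem pr_suf : Primrec₂ suf := by
  unfold suf
  refine (PrimrecRel.decide Primrec.eq).comp ?_ Primrec.fst
  exact Primrec.list_drop.comp (Primrec.nat_sub.comp (Primrec.list_length.comp Primrec.snd)
    (Primrec.list_length.comp Primrec.fst)) Primrec.snd

theorem pr_cnt : Primrec fun z : ℕ × List (List ℕ) × List ℕ => cnt z.1 z.2.1 z.2.2 := by
  unfold cnt
  refine Primrec.nat_div.comp (Primrec.nat_mul.comp Primrec.fst (Primrec.list_length.comp ?_))
    (Primrec.list_length.comp (Primrec.fst.comp Primrec.snd))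
  refine pr_filter (f := fun z : ℕ × List (List ℕ) × List ℕ => z.2.1)
    (p := fun z g => suf z.2.2 g) (Primrec.fst.comp Primrec.snd) ?_
  exact pr_suf.comp (Primrec.snd.comp (Primrec.snd.comp Primrec.fst)) Primrec.snd

/-- Boolean version of `Target` -/
def targetB (z : ℕ × List (List ℕ) × List (ℕ × ℕ)) : Bool :=
  ((List.range z.1).all fun i => z.2.1.any fun g => suf (pt z.2.2 i) g) &&
    z.2.1.all fun g => (List.range (g.length + 1)).all fun j =>
      decide (((List.range z.1).filter (fun i => suf (g.drop j) (pt z.2.2 i))).length =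
        cnt z.1 z.2.1 (g.drop j))

theorem targetB_iff (m : ℕ) (L : List (List ℕ)) (w : List (ℕ × ℕ)) :
    targetB (m, L, w) = true ↔ Target m L w := by
  unfold targetB Target
  simp only [Bool.and_eq_true, List.all_eq_true, List.any_eq_true, List.mem_range,
    decide_eq_true_eq]

theorem pr_targetB : Primrec targetB := by
  unfold targetB
  refine Primrec.and.comp ?_ ?_
  · refine pr_all (f := fun z : ℕ × List (List ℕ) × List (ℕ × ℕ) => List.range z.1)
      (p := fun z i => z.2.1.any fun g => suf (pt z.2.2 i) g)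
      (Primrec.list_range.comp Primrec.fst) ?_
    refine pr_any (f := fun y : (ℕ × List (List ℕ) × List (ℕ × ℕ)) × ℕ => y.1.2.1)
      (p := fun y g => suf (pt y.1.2.2 y.2) g)
      (Primrec.fst.comp (Primrec.snd.comp Primrec.fst)) ?_
    exact pr_suf.comp (pr_pt.comp (Primrec.snd.comp (Primrec.snd.comp (Primrec.fst.comp
      Primrec.fst))) (Primrec.snd.comp Primrec.fst)) Primrec.snd
  · refine pr_all (f := fun z : ℕ × List (List ℕ) × List (ℕ × ℕ) => z.2.1)
      (p := fun z g => (List.range (g.length + 1)).all fun j =>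
      decide (((List.range z.1).filter (fun i => suf (g.drop j) (pt z.2.2 i))).length =
        cnt z.1 z.2.1 (g.drop j))) (Primrec.fst.comp Primrec.snd) ?_
    refine pr_all (f := fun y : (ℕ × List (List ℕ) × List (ℕ × ℕ)) × List ℕ =>
        List.range (y.2.length + 1))
      (p := fun y j => decide (((List.range y.1.1).filter
        (fun i => suf (y.2.drop j) (pt y.1.2.2 i))).length = cnt y.1.1 y.1.2.1 (y.2.drop j)))
      (Primrec.list_range.comp (Primrec.succ.comp (Primrec.list_length.comp Primrec.snd))) ?_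
    have hdrop : Primrec fun x : ((ℕ × List (List ℕ) × List (ℕ × ℕ)) × List ℕ) × ℕ =>
        x.1.2.drop x.2 :=
      Primrec.list_drop.comp Primrec.snd (Primrec.snd.comp Primrec.fst)
    refine (PrimrecRel.decide Primrec.eq).comp (Primrec.list_length.comp ?_) ?_
    · refine pr_filter (f := fun x : ((ℕ × List (List ℕ) × List (ℕ × ℕ)) × List ℕ) × ℕ =>
          List.range x.1.1.1)
        (p := fun x i => suf (x.1.2.drop x.2) (pt x.1.1.2.2 i))
        (Primrec.list_range.comp (Primrec.fst.comp (Primrec.fst.comp Primrec.fst))) ?_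
      exact pr_suf.comp (hdrop.comp Primrec.fst) (pr_pt.comp (Primrec.snd.comp (Primrec.snd.comp
        (Primrec.fst.comp (Primrec.fst.comp Primrec.fst)))) Primrec.snd)
    · exact pr_cnt.comp (Primrec.pair (Primrec.fst.comp (Primrec.fst.comp Primrec.fst))
        (Primrec.pair (Primrec.fst.comp (Primrec.snd.comp (Primrec.fst.comp Primrec.fst)))
          hdrop))

attribute [local irreducible] targetB

theorem pr_mem {β : Type*} [Primcodable β] [DecidableEq β] :
    Primrec fun z : β × List β => decide (z.1 ∈ z.2) := by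
  refine (pr_any (f := fun z : β × List β => z.2) (p := fun z b => decide (z.1 = b))
    Primrec.snd ?_).of_eq fun z => ?_
  · exact (PrimrecRel.decide Primrec.eq).comp (Primrec.fst.comp Primrec.fst) Primrec.snd
  · rw [Bool.eq_iff_iff]
    simp

theorem pr_memNN : Primrec fun z : (ℕ × ℕ) × List (ℕ × ℕ) => decide (z.1 ∈ z.2) := by
  refine (pr_any (f := fun z : (ℕ × ℕ) × List (ℕ × ℕ) => z.2) (p := fun z b => decide (z.1 = b))
    Primrec.snd ?_).of_eq fun z => ?_
  · exact (PrimrecRel.decide Primrec.eq).comp (Primrec.fst.comp Primrec.fst) Primrec.snd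
  · rw [Bool.eq_iff_iff]
    simp

theorem pr_addNew : Primrec₂ addNew := by
  unfold addNew
  refine Primrec.list_foldl (f := fun z : List ℕ × List ℕ => z.2)
    (g := fun z => z.1) (h := fun _ (q : List ℕ × ℕ) => if q.2 ∈ q.1 then q.1 else q.2 :: q.1)
    Primrec.snd Primrec.fst ?_
  refine Primrec.ite ?_ (Primrec.fst.comp Primrec.snd)
    (Primrec.list_cons.comp (Primrec.snd.comp Primrec.snd) (Primrec.fst.comp Primrec.snd))
  exact Primrec.primrecPred (pr_mem.comp (Primrec.pair (Primrec.snd.comp Primrec.snd)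
    (Primrec.fst.comp Primrec.snd)))

theorem primrec_step : Primrec (fun z : (List (List (ℕ × ℕ) × List (ℕ × ℕ)) × ℕ × List (List ℕ)) ×
    (List (ℕ × ℕ) × List (ℕ × ℕ)) => step z.1.1 z.1.2.1 z.1.2.2 z.2) := by
  unfold step
  refine Primrec.option_getD.comp ?_ Primrec.snd
  refine pr_find (f := fun z : (List (List (ℕ × ℕ) × List (ℕ × ℕ)) × ℕ × List (List ℕ)) ×
    (List (ℕ × ℕ) × List (ℕ × ℕ)) => z.1.1)
    (p := fun z p => decide (p.1.drop (p.1.length - z.2.1.length) = z.2.1 ∧
      (∀ q ∈ z.2.2, q ∈ p.2) ∧ Target z.1.2.1 z.1.2.2 p.1)) (Primrec.fst.comp Primrec.fst) ?_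
  have h1 : Primrec fun x : ((List (List (ℕ × ℕ) × List (ℕ × ℕ)) × ℕ × List (List ℕ)) ×
      (List (ℕ × ℕ) × List (ℕ × ℕ))) × (List (ℕ × ℕ) × List (ℕ × ℕ)) =>
      decide (x.2.1.drop (x.2.1.length - x.1.2.1.length) = x.1.2.1) := by
    refine (PrimrecRel.decide Primrec.eq).comp ?_ (Primrec.fst.comp (Primrec.snd.comp Primrec.fst))
    exact Primrec.list_drop.comp (Primrec.nat_sub.comp
      (Primrec.list_length.comp (Primrec.fst.comp Primrec.snd))
      (Primrec.list_length.comp (Primrec.fst.comp (Primrec.snd.comp Primrec.fst))))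
      (Primrec.fst.comp Primrec.snd)
  have h2 : Primrec fun x : ((List (List (ℕ × ℕ) × List (ℕ × ℕ)) × ℕ × List (List ℕ)) ×
      (List (ℕ × ℕ) × List (ℕ × ℕ))) × (List (ℕ × ℕ) × List (ℕ × ℕ)) =>
      x.1.2.2.all (fun q => decide (q ∈ x.2.2)) := by
    refine pr_all (f := fun x : ((List (List (ℕ × ℕ) × List (ℕ × ℕ)) × ℕ × List (List ℕ)) ×
      (List (ℕ × ℕ) × List (ℕ × ℕ))) × (List (ℕ × ℕ) × List (ℕ × ℕ)) => x.1.2.2)
      (p := fun x (q : ℕ × ℕ) => decide (q ∈ x.2.2))
      (Primrec.snd.comp (Primrec.snd.comp Primrec.fst)) ?_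
    exact pr_memNN.comp (Primrec.pair Primrec.snd (Primrec.snd.comp (Primrec.snd.comp Primrec.fst)))
  have h3 : Primrec fun x : ((List (List (ℕ × ℕ) × List (ℕ × ℕ)) × ℕ × List (List ℕ)) ×
      (List (ℕ × ℕ) × List (ℕ × ℕ))) × (List (ℕ × ℕ) × List (ℕ × ℕ)) =>
      targetB (x.1.1.2.1, x.1.1.2.2, x.2.1) := by
    have a1 : Primrec fun x : ((List (List (ℕ × ℕ) × List (ℕ × ℕ)) × ℕ × List (List ℕ)) ×
      (List (ℕ × ℕ) × List (ℕ × ℕ))) × (List (ℕ × ℕ) × List (ℕ × ℕ)) => x.1.1.2.1 :=
      Primrec.fst.comp (Primrec.snd.comp (Primrec.fst.comp Primrec.fst))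
    have a2 : Primrec fun x : ((List (List (ℕ × ℕ) × List (ℕ × ℕ)) × ℕ × List (List ℕ)) ×
      (List (ℕ × ℕ) × List (ℕ × ℕ))) × (List (ℕ × ℕ) × List (ℕ × ℕ)) => x.1.1.2.2 :=
      Primrec.snd.comp (Primrec.snd.comp (Primrec.fst.comp Primrec.fst))
    have a3 : Primrec fun x : ((List (List (ℕ × ℕ) × List (ℕ × ℕ)) × ℕ × List (List ℕ)) ×
      (List (ℕ × ℕ) × List (ℕ × ℕ))) × (List (ℕ × ℕ) × List (ℕ × ℕ)) => x.2.1 :=
      Primrec.fst.comp Primrec.snd
    exact pr_targetB.comp (Primrec.pair a1 (Primrec.pair a2 a3))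
  refine (Primrec.and.comp h1 (Primrec.and.comp h2 h3)).of_eq fun x => ?_
  rw [Bool.eq_iff_iff]
  simp only [Bool.and_eq_true, decide_eq_true_eq, List.all_eq_true, targetB_iff]

theorem primrec_stage {α : Type*} [Primcodable α] (f : α → List Bool → List ℕ) (hf : Primrec₂ f) :
    Primrec₂ (fun (p : α) (t : ℕ) => stage (f p) t) := by
  unfold stage
  refine Primrec.list_map (f := fun z : α × ℕ => allLen z.2) (g := fun z σ => hist (f z.1) σ)
    (Kolm.primrec_allLen.comp Primrec.snd) ?_
  unfold hist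
  refine Primrec.list_foldl (f := fun x : (α × ℕ) × List Bool => List.range (x.2.length + 1))
    (g := fun _ => ([] : List ℕ))
    (h := fun x (q : List ℕ × ℕ) => addNew q.1 (f x.1.1 (x.2.take q.2)))
    (Primrec.list_range.comp (Primrec.succ.comp (Primrec.list_length.comp Primrec.snd)))
    (Primrec.const []) ?_
  refine pr_addNew.comp (Primrec.fst.comp Primrec.snd) (hf.comp
    (Primrec.fst.comp (Primrec.fst.comp Primrec.fst)) ?_)
  exact Primrec.list_take.comp (Primrec.snd.comp Primrec.snd) (Primrec.snd.comp Primrec.fst)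

theorem primrec_run {α : Type*} [Primcodable α] (f : α → List Bool → List ℕ) (hf : Primrec₂ f) :
    Primrec (fun z : (List (List (ℕ × ℕ) × List (ℕ × ℕ)) × ℕ) × α × ℕ =>
      run z.1.1 z.1.2 (f z.2.1) z.2.2) := by
  unfold run
  refine Primrec.list_foldl
    (f := fun z : (List (List (ℕ × ℕ) × List (ℕ × ℕ)) × ℕ) × α × ℕ => List.range (z.2.2 + 1))
    (g := fun _ => (([], []) : List (ℕ × ℕ) × List (ℕ × ℕ)))
    (h := fun z (q : (List (ℕ × ℕ) × List (ℕ × ℕ)) × ℕ) =>
      step z.1.1 z.1.2 (stage (f z.2.1) q.2) q.1)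
    (Primrec.list_range.comp (Primrec.succ.comp (Primrec.snd.comp Primrec.snd)))
    (Primrec.const _) ?_
  refine primrec_step.comp (Primrec.pair (Primrec.pair (Primrec.fst.comp
    (Primrec.fst.comp Primrec.fst)) (Primrec.pair (Primrec.snd.comp
    (Primrec.fst.comp Primrec.fst)) ?_)) (Primrec.fst.comp Primrec.snd))
  exact (primrec_stage f hf).comp (Primrec.fst.comp (Primrec.snd.comp Primrec.fst))
    (Primrec.snd.comp Primrec.snd)

end Pool.Agent.Helper760.Cov.J1213
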