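import Mathlib
import Pool.Agent.Helper760.Cov.DefsD

set_option autoImplicit false

namespace Pool.Agent.Helper760.Cov.J1214

open Finset
open Pool.Agent.Helper760.Kolm (allLen mem_allLen length_allLen nodup_allLen primrec_allLen)

section gen
variable {α β : Type*} [Primcodable α] [Primcodable β]

theorem pp_imp {p q : α → Prop} (hp : PrimrecPred p) (hq : PrimrecPred q) :
    PrimrecPred fun a => p a → q a :=
  (hp.not.or hq).of_eq fun a => by tauto

theorem pp_all {f : α → List β} {p : α → β → Prop} (hf : Primrec f)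
    (hp : PrimrecPred fun z : α × β => p z.1 z.2) : PrimrecPred fun a => ∀ b ∈ f a, p a b := by
  have h : PrimrecRel fun (b : β) (a : α) => p a b :=
    hp.comp (Primrec.snd.pair Primrec.fst)
  exact h.forall_mem_list.comp hf Primrec.id

theorem pp_ex {f : α → List β} {p : α → β → Prop} (hf : Primrec f)
    (hp : PrimrecPred fun z : α × β => p z.1 z.2) : PrimrecPred fun a => ∃ b ∈ f a, p a b := by
  have h : PrimrecRel fun (b : β) (a : α) => p a b :=
    hp.comp (Primrec.snd.pair Primrec.fst)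
  exact h.exists_mem_list.comp hf Primrec.id

theorem pp_lt {f : α → ℕ} {p : α → ℕ → Prop} (hf : Primrec f)
    (hp : PrimrecPred fun z : α × ℕ => p z.1 z.2) : PrimrecPred fun a => ∀ n < f a, p a n :=
  (pp_all (Primrec.list_range.comp hf) hp).of_eq fun a => by simp

theorem pp_mem {f : α → β} {g : α → List β} (hf : Primrec f) (hg : Primrec g) :
    PrimrecPred fun a => f a ∈ g a :=
  (pp_ex (p := fun a b => b = f a) hg (Primrec.eq.comp Primrec.snd (hf.comp Primrec.fst))).of_eq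
    fun a => by simp

theorem pp_filter {f : α → List β} {p : α → β → Prop} [∀ a b, Decidable (p a b)] (hf : Primrec f)
    (hp : PrimrecPred fun z : α × β => p z.1 z.2) :
    Primrec fun a => (f a).filter (fun b => decide (p a b)) := by
  have h : PrimrecRel fun (b : β) (a : α) => p a b :=
    hp.comp (Primrec.snd.pair Primrec.fst)
  have : DecidableRel fun (b : β) (a : α) => p a b := fun b a => inferInstance
  have h2 := h.listFilter
  refine (h2.comp hf Primrec.id).of_eq fun a => ?_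
  apply List.filter_congr
  intro b _
  simp

theorem pp_nodup {f : α → List β} (hf : Primrec f) : PrimrecPred fun a => (f a).Nodup := by
  have h : PrimrecPred fun a => ∀ j < (f a).length, ∀ i < j, ¬ ((f a)[i]? = (f a)[j]?) := by
    refine pp_lt (Primrec.list_length.comp hf) ?_
    refine pp_lt (α := α × ℕ) (f := fun z => z.2)
      (p := fun z i => ¬ ((f z.1)[i]? = (f z.1)[z.2]?)) Primrec.snd ?_
    refine PrimrecPred.not ?_
    refine Primrec.eq.comp ?_ ?_
    · exact Primrec.list_getElem?.comp (hf.comp (Primrec.fst.comp Primrec.fst)) Primrec.snd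
    · exact Primrec.list_getElem?.comp (hf.comp (Primrec.fst.comp Primrec.fst))
        (Primrec.snd.comp Primrec.fst)
  refine h.of_eq fun a => ?_
  rw [List.nodup_iff_getElem?_ne_getElem?]
  constructor
  · intro h i j hij hj
    exact h j hj i hij
  · intro h j hj i hij
    exact h i j hij hj

theorem pp_subset {f g : α → List β} (hf : Primrec f) (hg : Primrec g) :
    PrimrecPred fun a => f a ⊆ g a := by
  have h : PrimrecPred fun a => ∀ b ∈ f a, b ∈ g a :=
    pp_all (p := fun a b => b ∈ g a) hf (pp_mem Primrec.snd (hg.comp Primrec.fst))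
  exact h

end gen

section parts
variable {α : Type*} [Primcodable α]

theorem pr_pt {w : α → List (ℕ × ℕ)} {i : α → ℕ} (hw : Primrec w) (hi : Primrec i) :
    Primrec fun a => pt (w a) (i a) := by
  unfold pt
  refine Primrec.list_map ?_ ((Primrec.snd.comp Primrec.snd).to₂)
  refine pp_filter (p := fun a (q : ℕ × ℕ) => q.1 = i a) hw ?_
  exact Primrec.eq.comp (Primrec.fst.comp Primrec.snd) (hi.comp Primrec.fst)

theorem pr_Legal {E m A B : α → ℕ} {w : α → List (ℕ × ℕ)} (hE : Primrec E) (hm : Primrec m)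
    (hA : Primrec A) (hB : Primrec B) (hw : Primrec w) :
    PrimrecPred fun a => LegalN (E a) (m a) (A a) (B a) (w a) := by
  unfold LegalN
  refine PrimrecPred.and ?_ (PrimrecPred.and ?_ ?_)
  · refine pp_all (p := fun a (q : ℕ × ℕ) => q.1 < m a ∧ q.2 < E a) hw ?_
    refine PrimrecPred.and ?_ ?_
    · exact Primrec.nat_lt.comp (Primrec.fst.comp Primrec.snd) (hm.comp Primrec.fst)
    · exact Primrec.nat_lt.comp (Primrec.snd.comp Primrec.snd) (hE.comp Primrec.fst)
  · exact pp_nodup hw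
  · refine pp_lt (p := fun a i => ((pt (w a) i).filter (fun e => e % 2 = 0)).length ≤ A a ∧
      ((pt (w a) i).filter (fun e => e % 2 = 1)).length ≤ B a) hm ?_
    refine PrimrecPred.and ?_ ?_
    · refine Primrec.nat_le.comp (Primrec.list_length.comp ?_) (hA.comp Primrec.fst)
      refine pp_filter (p := fun _ (e : ℕ) => e % 2 = 0)
        (pr_pt (hw.comp Primrec.fst) Primrec.snd) ?_
      exact Primrec.eq.comp (Primrec.nat_mod.comp Primrec.snd (Primrec.const 2)) (Primrec.const 0)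
    · refine Primrec.nat_le.comp (Primrec.list_length.comp ?_) (hB.comp Primrec.fst)
      refine pp_filter (p := fun _ (e : ℕ) => e % 2 = 1)
        (pr_pt (hw.comp Primrec.fst) Primrec.snd) ?_
      exact Primrec.eq.comp (Primrec.nat_mod.comp Primrec.snd (Primrec.const 2)) (Primrec.const 1)

theorem pr_Cov {E κ m : α → ℕ} {w b : α → List (ℕ × ℕ)} (hE : Primrec E) (hκ : Primrec κ)
    (hm : Primrec m) (hw : Primrec w) (hb : Primrec b) :
    PrimrecPred fun a => CovN (E a) (κ a) (m a) (w a) (b a) := by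
  unfold CovN
  refine pp_lt (p := fun a x => ∀ y < E a,
    κ a ≤ ((List.range (m a)).filter (fun i => (i, 2 * x) ∈ w a ∧ (i, 2 * y + 1) ∈ w a)).length →
      ∃ q ∈ b a, (q.1, 2 * x) ∈ b a ∧ (q.1, 2 * y + 1) ∈ b a) hE ?_
  refine pp_lt (α := α × ℕ) (f := fun z => E z.1) (p := fun z y =>
    κ z.1 ≤ ((List.range (m z.1)).filter
      (fun i => (i, 2 * z.2) ∈ w z.1 ∧ (i, 2 * y + 1) ∈ w z.1)).length →
      ∃ q ∈ b z.1, (q.1, 2 * z.2) ∈ b z.1 ∧ (q.1, 2 * y + 1) ∈ b z.1) (hE.comp Primrec.fst) ?_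
  have h1 : Primrec fun z : (α × ℕ) × ℕ => z.1.1 := Primrec.fst.comp Primrec.fst
  have hx : Primrec fun z : (α × ℕ) × ℕ => 2 * z.1.2 :=
    Primrec.nat_mul.comp (Primrec.const 2) (Primrec.snd.comp Primrec.fst)
  have hy : Primrec fun z : (α × ℕ) × ℕ => 2 * z.2 + 1 :=
    Primrec.succ.comp (Primrec.nat_mul.comp (Primrec.const 2) Primrec.snd)
  refine pp_imp ?_ ?_
  · refine Primrec.nat_le.comp (hκ.comp h1) (Primrec.list_length.comp ?_)
    refine pp_filter (α := (α × ℕ) × ℕ) (f := fun z => List.range (m z.1.1))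
      (p := fun z i => (i, 2 * z.1.2) ∈ w z.1.1 ∧ (i, 2 * z.2 + 1) ∈ w z.1.1)
      (Primrec.list_range.comp (hm.comp h1)) ?_
    refine PrimrecPred.and ?_ ?_
    · exact pp_mem (Primrec.snd.pair (hx.comp Primrec.fst)) (hw.comp (h1.comp Primrec.fst))
    · exact pp_mem (Primrec.snd.pair (hy.comp Primrec.fst)) (hw.comp (h1.comp Primrec.fst))
  · refine pp_ex (α := (α × ℕ) × ℕ) (f := fun z => b z.1.1)
      (p := fun z (q : ℕ × ℕ) => (q.1, 2 * z.1.2) ∈ b z.1.1 ∧ (q.1, 2 * z.2 + 1) ∈ b z.1.1)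
      (hb.comp h1) ?_
    refine PrimrecPred.and ?_ ?_
    · exact pp_mem ((Primrec.fst.comp Primrec.snd).pair (hx.comp Primrec.fst))
        (hb.comp (h1.comp Primrec.fst))
    · exact pp_mem ((Primrec.fst.comp Primrec.snd).pair (hy.comp Primrec.fst))
        (hb.comp (h1.comp Primrec.fst))

theorem pr_addNew {h L : α → List ℕ} (hh : Primrec h) (hL : Primrec L) :
    Primrec fun a => addNew (h a) (L a) := by
  unfold addNew
  refine Primrec.list_foldl (h := fun _ (p : List ℕ × ℕ) => if p.2 ∈ p.1 then p.1 else p.2 :: p.1)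
    hL hh ?_
  refine Primrec.ite ?_ ?_ ?_
  · exact pp_mem (Primrec.snd.comp Primrec.snd) (Primrec.fst.comp Primrec.snd)
  · exact Primrec.fst.comp Primrec.snd
  · exact Primrec.list_cons.comp (Primrec.snd.comp Primrec.snd) (Primrec.fst.comp Primrec.snd)

theorem pr_Size {a' b' N : α → ℕ} {b : α → List (ℕ × ℕ)} (ha' : Primrec a') (hb' : Primrec b')
    (hN : Primrec N) (hb : Primrec b) :
    PrimrecPred fun a => SizeN (a' a) (b' a) (N a) (b a) := by
  unfold SizeN
  refine PrimrecPred.and ?_ ?_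
  · refine pp_all (p := fun a (q : ℕ × ℕ) =>
      ((b a).filter (fun r => r.1 = q.1 ∧ r.2 % 2 = 0)).length ≤ a' a ∧
      ((b a).filter (fun r => r.1 = q.1 ∧ r.2 % 2 = 1)).length ≤ b' a) hb ?_
    refine PrimrecPred.and ?_ ?_
    · refine Primrec.nat_le.comp (Primrec.list_length.comp ?_) (ha'.comp Primrec.fst)
      refine pp_filter (α := α × (ℕ × ℕ)) (f := fun z => b z.1)
        (p := fun z (r : ℕ × ℕ) => r.1 = z.2.1 ∧ r.2 % 2 = 0) (hb.comp Primrec.fst) ?_
      refine PrimrecPred.and ?_ ?_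
      · exact Primrec.eq.comp (Primrec.fst.comp Primrec.snd)
          (Primrec.fst.comp (Primrec.snd.comp Primrec.fst))
      · exact Primrec.eq.comp (Primrec.nat_mod.comp (Primrec.snd.comp Primrec.snd)
          (Primrec.const 2)) (Primrec.const 0)
    · refine Primrec.nat_le.comp (Primrec.list_length.comp ?_) (hb'.comp Primrec.fst)
      refine pp_filter (α := α × (ℕ × ℕ)) (f := fun z => b z.1)
        (p := fun z (r : ℕ × ℕ) => r.1 = z.2.1 ∧ r.2 % 2 = 1) (hb.comp Primrec.fst) ?_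
      refine PrimrecPred.and ?_ ?_
      · exact Primrec.eq.comp (Primrec.fst.comp Primrec.snd)
          (Primrec.fst.comp (Primrec.snd.comp Primrec.fst))
      · exact Primrec.eq.comp (Primrec.nat_mod.comp (Primrec.snd.comp Primrec.snd)
          (Primrec.const 2)) (Primrec.const 1)
  · refine Primrec.nat_le.comp (Primrec.list_length.comp ?_) hN
    exact pr_addNew (Primrec.const []) (Primrec.list_map hb ((Primrec.fst.comp Primrec.snd).to₂))

theorem pr_Chk {E m A B κ a' b' N : α → ℕ} {s : α → List (List (ℕ × ℕ) × List (ℕ × ℕ))}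
    (hE : Primrec E) (hm : Primrec m) (hA : Primrec A) (hB : Primrec B) (hκ : Primrec κ)
    (ha' : Primrec a') (hb' : Primrec b') (hN : Primrec N) (hs : Primrec s) :
    PrimrecPred fun a => Chk (E a) (m a) (A a) (B a) (κ a) (a' a) (b' a) (N a) (s a) := by
  unfold Chk
  refine PrimrecPred.and ?_ (PrimrecPred.and ?_ ?_)
  · refine pp_ex (p := fun _ (p : List (ℕ × ℕ) × List (ℕ × ℕ)) => p.1 = []) hs ?_
    exact Primrec.eq.comp (Primrec.fst.comp Primrec.snd) (Primrec.const [])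
  · refine pp_all (p := fun a (p : List (ℕ × ℕ) × List (ℕ × ℕ)) =>
      LegalN (E a) (m a) (A a) (B a) p.1 ∧ CovN (E a) (κ a) (m a) p.1 p.2 ∧
        SizeN (a' a) (b' a) (N a) p.2) hs ?_
    have h1 : Primrec fun z : α × (List (ℕ × ℕ) × List (ℕ × ℕ)) => z.1 := Primrec.fst
    have h2 : Primrec fun z : α × (List (ℕ × ℕ) × List (ℕ × ℕ)) => z.2.1 :=
      Primrec.fst.comp Primrec.snd
    have h3 : Primrec fun z : α × (List (ℕ × ℕ) × List (ℕ × ℕ)) => z.2.2 :=
      Primrec.snd.comp Primrec.snd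
    exact PrimrecPred.and (pr_Legal (hE.comp h1) (hm.comp h1) (hA.comp h1) (hB.comp h1) h2)
      (PrimrecPred.and (pr_Cov (hE.comp h1) (hκ.comp h1) (hm.comp h1) h2 h3)
        (pr_Size (ha'.comp h1) (hb'.comp h1) (hN.comp h1) h3))
  · refine pp_all (p := fun a (p : List (ℕ × ℕ) × List (ℕ × ℕ)) => ∀ i < m a, ∀ e < E a,
      LegalN (E a) (m a) (A a) (B a) ((i, e) :: p.1) →
        ∃ p' ∈ s a, p'.1 = (i, e) :: p.1 ∧ p.2 ⊆ p'.2) hs ?_
    refine pp_lt (α := α × (List (ℕ × ℕ) × List (ℕ × ℕ))) (f := fun z => m z.1)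
      (p := fun z i => ∀ e < E z.1,
      LegalN (E z.1) (m z.1) (A z.1) (B z.1) ((i, e) :: z.2.1) →
        ∃ p' ∈ s z.1, p'.1 = (i, e) :: z.2.1 ∧ z.2.2 ⊆ p'.2) (hm.comp Primrec.fst) ?_
    refine pp_lt (α := (α × (List (ℕ × ℕ) × List (ℕ × ℕ))) × ℕ) (f := fun z => E z.1.1)
      (p := fun z e => LegalN (E z.1.1) (m z.1.1) (A z.1.1) (B z.1.1) ((z.2, e) :: z.1.2.1) →
        ∃ p' ∈ s z.1.1, p'.1 = (z.2, e) :: z.1.2.1 ∧ z.1.2.2 ⊆ p'.2)
      (hE.comp (Primrec.fst.comp Primrec.fst)) ?_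
    have h1 : Primrec fun z : ((α × (List (ℕ × ℕ) × List (ℕ × ℕ))) × ℕ) × ℕ => z.1.1.1 :=
      Primrec.fst.comp (Primrec.fst.comp Primrec.fst)
    have h2 : Primrec fun z : ((α × (List (ℕ × ℕ) × List (ℕ × ℕ))) × ℕ) × ℕ => z.1.1.2.1 :=
      Primrec.fst.comp (Primrec.snd.comp (Primrec.fst.comp Primrec.fst))
    have h3 : Primrec fun z : ((α × (List (ℕ × ℕ) × List (ℕ × ℕ))) × ℕ) × ℕ => z.1.1.2.2 :=
      Primrec.snd.comp (Primrec.snd.comp (Primrec.fst.comp Primrec.fst))
    have h4 : Primrec fun z : ((α × (List (ℕ × ℕ) × List (ℕ × ℕ))) × ℕ) × ℕ =>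
        (z.1.2, z.2) := (Primrec.snd.comp Primrec.fst).pair Primrec.snd
    have h5 : Primrec fun z : ((α × (List (ℕ × ℕ) × List (ℕ × ℕ))) × ℕ) × ℕ =>
        (z.1.2, z.2) :: z.1.1.2.1 := Primrec.list_cons.comp h4 h2
    refine pp_imp (pr_Legal (hE.comp h1) (hm.comp h1) (hA.comp h1) (hB.comp h1) h5) ?_
    refine pp_ex (α := ((α × (List (ℕ × ℕ) × List (ℕ × ℕ))) × ℕ) × ℕ) (f := fun z => s z.1.1.1)
      (p := fun z (p' : List (ℕ × ℕ) × List (ℕ × ℕ)) =>
        p'.1 = (z.1.2, z.2) :: z.1.1.2.1 ∧ z.1.1.2.2 ⊆ p'.2) (hs.comp h1) ?_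
    refine PrimrecPred.and ?_ ?_
    · exact Primrec.eq.comp (Primrec.fst.comp Primrec.snd) (h5.comp Primrec.fst)
    · exact pp_subset (h3.comp Primrec.fst) (Primrec.snd.comp Primrec.snd)

end parts

theorem primrec_Chk : PrimrecPred (fun z : (ℕ × ℕ × ℕ × ℕ × ℕ × ℕ × ℕ × ℕ) ×
    List (List (ℕ × ℕ) × List (ℕ × ℕ)) => Chk z.1.1 z.1.2.1 z.1.2.2.1 z.1.2.2.2.1 z.1.2.2.2.2.1
      z.1.2.2.2.2.2.1 z.1.2.2.2.2.2.2.1 z.1.2.2.2.2.2.2.2 z.2) := by
  have g1 : Primrec fun z : (ℕ × ℕ × ℕ × ℕ × ℕ × ℕ × ℕ × ℕ) ×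
    List (List (ℕ × ℕ) × List (ℕ × ℕ)) => z.1 := Primrec.fst
  have g2 := Primrec.snd.comp g1
  have g3 := Primrec.snd.comp g2
  have g4 := Primrec.snd.comp g3
  have g5 := Primrec.snd.comp g4
  have g6 := Primrec.snd.comp g5
  have g7 := Primrec.snd.comp g6
  have g8 := Primrec.snd.comp g7
  exact pr_Chk (Primrec.fst.comp g1) (Primrec.fst.comp g2) (Primrec.fst.comp g3)
    (Primrec.fst.comp g4) (Primrec.fst.comp g5) (Primrec.fst.comp g6) (Primrec.fst.comp g7) g8
    Primrec.snd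

end Pool.Agent.Helper760.Cov.J1214
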