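import Mathlib
import Pool.Agent.Helper760.Cov.Base2c
import Pool.Agent.Helper760.Cov.J1212
import Pool.Agent.Helper760.Cov.J1210
import Pool.Agent.Helper760.Cov.J1213
import Pool.Agent.Helper760.Cov.J1214

set_option autoImplicit false

namespace Pool.Agent.Helper760.Cov

alias exists_table := J1210.exists_table
alias run_spec := J1212.run_spec
alias primrec_step := J1213.primrec_step
alias primrec_stage := J1213.primrec_stage
alias primrec_run := J1213.primrec_run
alias primrec_Chk := J1214.primrec_Chk

end Pool.Agent.Helper760.Cov
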