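import Mathlib
import Pool.Agent.Helper760.Cov.Base2d

set_option autoImplicit false

namespace Pool.Agent.Helper760.Cov.J1215

open Finset
open Pool.Agent.Helper760.Kolm (allLen mem_allLen length_allLen nodup_allLen primrec_allLen)

theorem pr_pow : Primrec₂ (fun a b : ℕ => a ^ b) := Primrec₂.unpaired'.1 Nat.Primrec.pow

section arith

variable {α : Type*} [Primcodable α]

theorem pr_add {f g : α → ℕ} (hf : Primrec f) (hg' : Primrec g) : Primrec (fun x => f x + g x) :=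
  Primrec.nat_add.comp hf hg'

theorem pr_mul {f g : α → ℕ} (hf : Primrec f) (hg' : Primrec g) : Primrec (fun x => f x * g x) :=
  Primrec.nat_mul.comp hf hg'

theorem pr_pw {f g : α → ℕ} (hf : Primrec f) (hg' : Primrec g) : Primrec (fun x => f x ^ g x) :=
  pr_pow.comp hf hg'

theorem pr_mi {f g : α → ℕ} (hf : Primrec f) (hg' : Primrec g) :
    Primrec (fun x => min (f x) (g x)) :=
  Primrec.nat_min.comp hf hg'

theorem pr_c (k : ℕ) : Primrec (fun _ : α => k) := Primrec.const k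

theorem pr_hg {f : α → ℕ} (hf : Primrec f) : Primrec (fun x => hg (f x)) :=
  pr_add (pr_mul (pr_c 3) hf) (pr_c 6)

theorem pr_nA {f g : α → ℕ} (hf : Primrec f) (hg' : Primrec g) : Primrec (fun x => nA (f x) (g x)) :=
  pr_mul (pr_mul (pr_add (pr_mul (pr_c 2) hf) (pr_c 1))
    (pr_mul (pr_c 4) (pr_add (pr_hg hf) (pr_c 1)))) (pr_pw (pr_c 2) hg')

theorem pr_nB {f g : α → ℕ} (hf : Primrec f) (hg' : Primrec g) : Primrec (fun x => nB (f x) (g x)) :=
  pr_mul (pr_mul (pr_mul (pr_mul (pr_c 8) (pr_hg hf)) (pr_pw (pr_c 2) hg'))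
    (pr_mul (pr_c 8) (pr_pw (pr_add (pr_hg hf) (pr_c 1)) (pr_c 2))))
    (pr_add (pr_mul (pr_mul (pr_c 8) (pr_pw (pr_mul (pr_c 2) (pr_hg hf)) (pr_c 2))) hf)
      (pr_mul (pr_c 8) (pr_hg hf)))

theorem pr_nX {f g : α → ℕ} (hf : Primrec f) (hg' : Primrec g) : Primrec (fun x => nX (f x) (g x)) :=
  pr_add (pr_mul (pr_add (pr_hg hf) (pr_c 1)) (pr_add (pr_mul (pr_c 4) (pr_nA hf hg')) (pr_c 1)))
    (pr_mul (pr_hg hf) (pr_add (pr_add (pr_mul (pr_c 2) (pr_nB hf hg')) (pr_c 1))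
      (pr_mul (pr_mul (pr_add (pr_mul (pr_mul (pr_c 64) (pr_mul (pr_c 2) (pr_hg hf))) hf) (pr_c 1))
        (pr_add (pr_hg hf) (pr_c 1)))
        (pr_mul (pr_pw (pr_c 2) hg')
          (pr_mul (pr_c 8) (pr_pw (pr_add (pr_hg hf) (pr_c 1)) (pr_c 2)))))))

theorem pr_nG {f g : α → ℕ} (hf : Primrec f) (hg' : Primrec g) : Primrec (fun x => nG (f x) (g x)) :=
  pr_mul (pr_c 2) (pr_nX hf hg')

theorem pr_rl {f : α → ℕ} (hf : Primrec f) : Primrec (fun x => rl (f x)) :=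
  pr_pw (pr_add (pr_mul (pr_c 2) (pr_pw (pr_c 2) hf)) (pr_c 1))
    (pr_add (pr_mul (pr_c 2) (pr_pw (pr_c 2) hf)) (pr_c 1))

theorem pr_kk {f : α → ℕ} (hf : Primrec f) : Primrec (fun x => kk (f x)) :=
  pr_mul (pr_mul (pr_c 8) (pr_pw (pr_add (pr_hg hf) (pr_c 1)) (pr_c 2))) (pr_rl hf)

theorem pr_mm {f g : α → ℕ} (hf : Primrec f) (hg' : Primrec g) : Primrec (fun x => mm (f x) (g x)) :=
  pr_mul (pr_pw (pr_c 2) hg') (pr_kk hf)

end arith

/-- the parameters of the table -/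
def Kp (q : ℕ × ℕ × ℕ × ℕ) : ℕ × ℕ × ℕ × ℕ × ℕ × ℕ × ℕ × ℕ :=
  (2 * 2 ^ q.1, mm q.1 (min (q.2.2.2 + 1) q.1), 2 ^ (min q.2.1 q.1), 2 ^ (min q.2.2.1 q.1), kk q.1,
    2 * 2 ^ (min q.2.1 q.1), 2 * 2 ^ (min q.2.2.1 q.1), nG q.1 (min (q.2.2.2 + 1) q.1))

theorem primrec_Kp : Primrec Kp := by
  have h1 : Primrec (fun q : ℕ × ℕ × ℕ × ℕ => q.1) := Primrec.fst
  have h2 : Primrec (fun q : ℕ × ℕ × ℕ × ℕ => q.2.1) := Primrec.fst.comp Primrec.snd
  have h3 : Primrec (fun q : ℕ × ℕ × ℕ × ℕ => q.2.2.1) :=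
    Primrec.fst.comp (Primrec.snd.comp Primrec.snd)
  have h4 : Primrec (fun q : ℕ × ℕ × ℕ × ℕ => q.2.2.2) :=
    Primrec.snd.comp (Primrec.snd.comp Primrec.snd)
  have hga := pr_mi (pr_add h4 (pr_c 1)) h1
  have ha := pr_mi h2 h1
  have hb := pr_mi h3 h1
  exact (pr_mul (pr_c 2) (pr_pw (pr_c 2) h1)).pair ((pr_mm h1 hga).pair
    ((pr_pw (pr_c 2) ha).pair ((pr_pw (pr_c 2) hb).pair ((pr_kk h1).pair
      ((pr_mul (pr_c 2) (pr_pw (pr_c 2) ha)).pair ((pr_mul (pr_c 2) (pr_pw (pr_c 2) hb)).pair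
        (pr_nG h1 hga)))))))

abbrev Tbl := List (List (ℕ × ℕ) × List (ℕ × ℕ))

def ChkK (K : ℕ × ℕ × ℕ × ℕ × ℕ × ℕ × ℕ × ℕ) (s : Tbl) : Prop :=
  Chk K.1 K.2.1 K.2.2.1 K.2.2.2.1 K.2.2.2.2.1 K.2.2.2.2.2.1 K.2.2.2.2.2.2.1 K.2.2.2.2.2.2.2 s

theorem exists_tab (q : ℕ × ℕ × ℕ × ℕ) : ∃ s, ChkK (Kp q) s :=
  exists_table q.1 (min q.2.1 q.1) (min q.2.2.1 q.1) (min (q.2.2.2 + 1) q.1)
    (min_le_right _ _) (min_le_right _ _) (min_le_right _ _)

theorem exists_chkB : ∃ B : (ℕ × ℕ × ℕ × ℕ × ℕ × ℕ × ℕ × ℕ) × Tbl → Bool, Primrec B ∧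
    ∀ z, B z = true ↔ ChkK z.1 z.2 := by
  obtain ⟨inst, hdec⟩ := primrec_Chk
  exact ⟨_, hdec, fun z => by simp [ChkK]⟩

theorem exists_computable_tab :
    ∃ Tab : (ℕ × ℕ × ℕ × ℕ) → Tbl, Computable Tab ∧ ∀ q, ChkK (Kp q) (Tab q) := by
  obtain ⟨B, hB, hBs⟩ := exists_chkB
  let D : (ℕ × ℕ × ℕ × ℕ) → ℕ → Option Tbl := fun q k =>
    (Encodable.decode (α := Tbl) k).bind (fun s => bif B (Kp q, s) then some s else none)
  have hD : Primrec₂ D := by
    refine Primrec.option_bind (Primrec.decode.comp Primrec.snd) ?_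
    refine Primrec.cond ?_ (Primrec.option_some.comp Primrec.snd) (Primrec.const none)
    exact hB.comp ((primrec_Kp.comp (Primrec.fst.comp Primrec.fst)).pair Primrec.snd)
  have hdom : ∀ q, (Nat.rfindOpt (D q)).Dom := by
    intro q
    rw [Nat.rfindOpt_dom]
    obtain ⟨s, hs⟩ := exists_tab q
    refine ⟨Encodable.encode s, s, ?_⟩
    have : B (Kp q, s) = true := (hBs (Kp q, s)).2 hs
    simp [D, this]
  refine ⟨fun q => (Nat.rfindOpt (D q)).get (hdom q), ?_, ?_⟩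
  · exact (Partrec.rfindOpt hD.to_comp).of_eq (fun q => (Part.some_get (hdom q)).symm)
  · intro q
    obtain ⟨k, hk⟩ := Nat.rfindOpt_spec (Part.get_mem (hdom q))
    simp only [D, Option.mem_def, Option.bind_eq_some_iff] at hk
    obtain ⟨s, hs, hs2⟩ := hk
    cases hb : B (Kp q, s)
    · rw [hb] at hs2; simp at hs2
    · rw [hb] at hs2
      simp only [cond_true, Option.some.injEq] at hs2
      exact hs2.subst (motive := fun x => ChkK (Kp q) x) ((hBs (Kp q, s)).1 hb)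

theorem mem_pt (w : List (ℕ × ℕ)) (i e : ℕ) : e ∈ pt w i ↔ (i, e) ∈ w := by
  unfold pt
  simp only [List.mem_map, List.mem_filter, decide_eq_true_eq]
  constructor
  · rintro ⟨q, ⟨hq, h1⟩, h2⟩
    have : q = (i, e) := Prod.ext h1 h2
    rwa [← this]
  · intro h
    exact ⟨(i, e), ⟨h, rfl⟩, rfl⟩

theorem rl_le_kk (n : ℕ) : rl n ≤ kk n := by
  unfold kk
  have : 1 ≤ 8 * (hg n + 1) ^ 2 := by
    have : 1 ≤ (hg n + 1) ^ 2 := Nat.one_le_pow _ _ (Nat.succ_pos _)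
    omega
  exact Nat.le_mul_of_pos_left _ this

theorem rl_pos (n : ℕ) : 0 < rl n := by
  unfold rl
  exact Nat.pow_pos (Nat.succ_pos _)

theorem count_key (g κ r T M c : ℕ) (hr : r ≤ κ) (hT : T ≤ 2 ^ g * M) (hT0 : 0 < T)
    (h : 2 ^ (g + 1) * κ * M ≤ T * (c + r)) : κ ≤ c := by
  have h1 : 2 ^ (g + 1) * κ * M ≤ 2 ^ g * M * (c + r) := h.trans (Nat.mul_le_mul_right _ hT)
  have hM : 0 < 2 ^ g * M := lt_of_lt_of_le hT0 hT
  have h2 : 2 ^ g * M * (2 * κ) ≤ 2 ^ g * M * (c + r) := by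
    calc 2 ^ g * M * (2 * κ) = 2 ^ (g + 1) * κ * M := by ring
      _ ≤ _ := h1
  have h3 := Nat.le_of_mul_le_mul_left h2 hM
  omega

theorem computable_cover {α : Type*} [Primcodable α] (f : α → List Bool → List ℕ)
    (hf : Primrec₂ f) (prm : α → ℕ × ℕ × ℕ × ℕ) (hprm : Primrec prm) :
    ∃ cl : α → ℕ → List (ℕ × ℕ), Computable₂ cl ∧ ∀ p n a b γ, prm p = (n, a, b, γ) →
      a ≤ n → b ≤ n → γ + 1 ≤ n →
      (∀ σ b', f p σ ⊆ f p (σ ++ [b'])) → (∀ σ, ∀ e ∈ f p σ, e < 2 * 2 ^ n) →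
      (∀ σ, ((f p σ).toFinset.filter (fun e => e % 2 = 0)).card ≤ 2 ^ a ∧
        ((f p σ).toFinset.filter (fun e => e % 2 = 1)).card ≤ 2 ^ b) →
      (∀ t, cl p t ⊆ cl p (t + 1)) ∧
      (∀ t, SizeN (2 * 2 ^ a) (2 * 2 ^ b) (nG n (γ + 1)) (cl p t)) ∧
      ∀ t x y, 2 ^ t ≤ 2 ^ γ *
          ((allLen t).filter (fun σ => 2 * x ∈ f p σ ∧ 2 * y + 1 ∈ f p σ)).length →
        ∃ q ∈ cl p t, (q.1, 2 * x) ∈ cl p t ∧ (q.1, 2 * y + 1) ∈ cl p t := by
  obtain ⟨Tab, hTab, hTabs⟩ := exists_computable_tab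
  have h1 : Primrec (fun z : α × ℕ => (prm z.1).1) := Primrec.fst.comp (hprm.comp Primrec.fst)
  have h4 : Primrec (fun z : α × ℕ => (prm z.1).2.2.2) :=
    Primrec.snd.comp (Primrec.snd.comp (Primrec.snd.comp (hprm.comp Primrec.fst)))
  have hm : Primrec (fun z : α × ℕ => mm (prm z.1).1 (min ((prm z.1).2.2.2 + 1) (prm z.1).1)) :=
    pr_mm h1 (pr_mi (pr_add h4 (pr_c 1)) h1)
  refine ⟨fun p t => (run (Tab (prm p)) (mm (prm p).1 (min ((prm p).2.2.2 + 1) (prm p).1))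
    (f p) t).2, ?_, ?_⟩
  · have hc := (primrec_run f hf).to_comp.comp
      ((hTab.comp (hprm.to_comp.comp Computable.fst)).pair hm.to_comp |>.pair
        (Computable.fst.pair Computable.snd))
    exact (Computable.snd.comp hc)
  · intro p n a b γ hp ha hb hγ hf1 hE hAB
    have hchk := hTabs (prm p)
    rw [hp] at hchk
    beta_reduce
    rw [hp]
    have e1 : min a n = a := min_eq_left ha
    have e2 : min b n = b := min_eq_left hb
    have e3 : min (γ + 1) n = γ + 1 := min_eq_left hγ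
    simp only [ChkK, Kp, e1, e2, e3] at hchk
    simp only [e3]
    set s := Tab (n, a, b, γ) with hs
    have hrun := run_spec _ _ _ _ _ _ _ _ s hchk (f p) hf1 hE hAB
    refine ⟨fun t => (hrun t).2.2, fun t => (hchk.2.1 _ (hrun t).1).2.2, ?_⟩
    intro t x y ht
    obtain ⟨hmem, htar, -⟩ := hrun t
    have hcov := (hchk.2.1 _ hmem).2.1
    have hLne : stage (f p) t ≠ [] := by
      intro h0
      have := congrArg List.length h0
      simp only [stage, List.length_map, Kolm.length_allLen, List.length_nil] at this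
      exact absurd this (by positivity)
    have hLlen : (stage (f p) t).length = 2 ^ t := by
      simp only [stage, List.length_map, Kolm.length_allLen]
    have hP := (target_iff _ _ hLne _).1 htar
    have hnd : ∀ g ∈ stage (f p) t, g.Nodup := by
      intro g hg'
      simp only [stage, List.mem_map] at hg'
      obtain ⟨σ, -, rfl⟩ := hg'
      exact (hist_spec (f p) hf1 σ).1
    have hE' : ∀ g ∈ stage (f p) t, ∀ e ∈ g, e < 2 * 2 ^ n := by
      intro g hg' e he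
      simp only [stage, List.mem_map] at hg'
      obtain ⟨σ, -, rfl⟩ := hg'
      exact hE σ e (((hist_spec (f p) hf1 σ).2.1 e).1 he)
    have hrc := round_count (mm n (γ + 1)) (2 * 2 ^ n) (stage (f p) t) hLne hnd hE' _ hP
      (2 * x) (2 * y + 1)
    have hcount : ((stage (f p) t).filter (fun g => 2 * x ∈ g ∧ 2 * y + 1 ∈ g)).length =
        ((allLen t).filter (fun σ => 2 * x ∈ f p σ ∧ 2 * y + 1 ∈ f p σ)).length := by
      simp only [stage, List.filter_map, List.length_map]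
      congr 1
      apply List.filter_congr
      intro σ _
      simp only [Function.comp, (hist_spec (f p) hf1 σ).2.1]
    rw [hcount, hLlen] at hrc
    set M := ((allLen t).filter (fun σ => 2 * x ∈ f p σ ∧ 2 * y + 1 ∈ f p σ)).length with hM
    have hT0 : 0 < 2 ^ t := by positivity
    have hkey : kk n ≤ ((List.range (mm n (γ + 1))).filter (fun i =>
        2 * x ∈ pt (run s (mm n (γ + 1)) (f p) t).1 i ∧
          2 * y + 1 ∈ pt (run s (mm n (γ + 1)) (f p) t).1 i)).length := by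
      refine count_key γ (kk n) (rl n) (2 ^ t) M _ (rl_le_kk n) ht hT0 ?_
      exact hrc
    have hMpos : 0 < M := by
      rcases Nat.eq_zero_or_pos M with h0 | h0
      · rw [h0, Nat.mul_zero] at ht; omega
      · exact h0
    obtain ⟨σ, hσ⟩ := List.exists_mem_of_length_pos (hM ▸ hMpos)
    rw [List.mem_filter] at hσ
    have hσ2 := of_decide_eq_true hσ.2
    have hx : x < 2 * 2 ^ n := by have := hE σ _ hσ2.1; omega
    have hy : y < 2 * 2 ^ n := by have := hE σ _ hσ2.2; omega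
    refine hcov x hx y hy ?_
    simpa only [mem_pt] using hkey

end Pool.Agent.Helper760.Cov.J1215
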