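import Mathlib
import Pool.Agent.Helper760.Cov.Base2d
import Pool.Agent.Helper760.Cov.J1215

set_option autoImplicit false

namespace Pool.Agent.Helper760.Cov

alias computable_cover := J1215.computable_cover

end Pool.Agent.Helper760.Cov
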