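import Mathlib
import Pool.Agent.Helper760.Cov.Num

set_option autoImplicit false

namespace Pool.Agent.Helper760.Cov.J1461


theorem poly_bound (A T : ℕ) (hA : 1 ≤ A) (hT : 1 ≤ T) :
    2 * ((4 * A) * (4 * (A * (4 * (4 * A)) * T) + 1) +
      (4 * A) * (2 * (8 * (4 * A) * T * (8 * (4 * A) ^ 2) *
        (8 * (2 * (4 * A)) ^ 2 * A + 8 * (4 * A))) + 1 +
        (64 * (2 * (4 * A)) * A + 1) * (4 * A) * (T * (8 * (4 * A) ^ 2)))) ≤
    2 ^ 26 * (A ^ 7 * T) := by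
  have h (i : ℕ) (hi : i ≤ 7) : A ^ i * T ≤ A ^ 7 * T :=
    Nat.mul_le_mul_right _ (Nat.pow_le_pow_right hA hi)
  have h1 := h 1 (by norm_num)
  have h2 := h 2 (by norm_num)
  have h3 := h 3 (by norm_num)
  have h4 := h 4 (by norm_num)
  have h5 := h 5 (by norm_num)
  have h6 := h 6 (by norm_num)
  have h0 : A ≤ A ^ 1 * T := by
    rw [pow_one]
    exact Nat.le_mul_of_pos_right _ hT
  have h0' : A ≤ A ^ 7 * T := h0.trans h1
  have e : 2 * ((4 * A) * (4 * (A * (4 * (4 * A)) * T) + 1) +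
      (4 * A) * (2 * (8 * (4 * A) * T * (8 * (4 * A) ^ 2) *
        (8 * (2 * (4 * A)) ^ 2 * A + 8 * (4 * A))) + 1 +
        (64 * (2 * (4 * A)) * A + 1) * (4 * A) * (T * (8 * (4 * A) ^ 2)))) =
      (2 * 256) * (A ^ 3 * T) + 8 * A + 33554432 * (A ^ 7 * T) + 2097152 * (A ^ 5 * T) + 8 * A
        + 2097152 * (A ^ 6 * T) + 4096 * (A ^ 4 * T) := by
    ring
  rw [e]
  omega

theorem nG_le : ∃ C : ℕ, ∀ n γ : ℕ, nG n γ ≤ 2 ^ (γ + C * (Nat.size n + 1)) := by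
  refine ⟨34, ?_⟩
  intro n γ
  set A := 2 ^ (Nat.size n + 1) with hAdef
  set T := 2 ^ γ with hTdef
  have hT : 1 ≤ T := Nat.one_le_two_pow
  have hn : n < 2 ^ Nat.size n := Nat.lt_size_self n
  have hA : A = 2 * 2 ^ Nat.size n := by rw [hAdef, pow_succ]; ring
  have hA2 : 2 ≤ A := by omega
  have hH : hg n + 1 ≤ 4 * A := by unfold hg; omega
  have hH' : hg n ≤ 4 * A := by omega
  have hn1 : 2 * n + 1 ≤ A := by omega
  have hn2 : n ≤ A := by omega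
  have key : nG n γ ≤ 2 * ((4 * A) * (4 * (A * (4 * (4 * A)) * T) + 1) +
      (4 * A) * (2 * (8 * (4 * A) * T * (8 * (4 * A) ^ 2) *
        (8 * (2 * (4 * A)) ^ 2 * A + 8 * (4 * A))) + 1 +
        (64 * (2 * (4 * A)) * A + 1) * (4 * A) * (T * (8 * (4 * A) ^ 2)))) := by
    unfold nG nX nB nA
    gcongr
  refine (key.trans (poly_bound A T (by omega) hT)).trans ?_
  have e1 : 2 ^ (γ + 34 * (Nat.size n + 1)) = A ^ 34 * T := by
    rw [pow_add, pow_mul', hTdef, hAdef]; ring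
  rw [e1]
  have h2 : 2 ^ 26 ≤ A ^ 26 := Nat.pow_le_pow_left hA2 26
  calc 2 ^ 26 * (A ^ 7 * T) ≤ A ^ 26 * (A ^ 7 * T) := Nat.mul_le_mul_right _ h2
    _ = A ^ 33 * T := by ring
    _ ≤ A ^ 34 * T := Nat.mul_le_mul_right _ (Nat.pow_le_pow_right (by omega) (by norm_num))

end Pool.Agent.Helper760.Cov.J1461
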